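import Pool.Agent.H69.DT.ClassQ

/-!
# The low-degree threshold (MP_634cec): the lower bound (complete over the modules)
-/

set_option autoImplicit false

open MeasureTheory ProbabilityTheory
open scoped BigOperators

namespace H69.DT

open Pool.Agent.Results.MP_634cec_lc.LinearDegree
open Pool.Agent.H47.LV
open Pool.Agent.H70.SS (gam symm data_symm measurable_symm null_eq final_ineq integrable_of_test)

variable {G : Type} [Group G] [TopologicalSpace G] [IsTopologicalGroup G] [CompactSpace G]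
  [MeasurableSpace G] [BorelSpace G] {μ : Measure G} [μ.IsHaarMeasure] [IsProbabilityMeasure μ]
  {L n : ℕ} {d : Fin L → ℕ} {ρ : ∀ k : Fin L, G →* Matrix.unitaryGroup (Fin (d k)) ℂ}

theorem lower_bound {lam : ℝ} (h0 : 0 ≤ lam) (h1 : lam < 1) (hρ : Admissible ρ) {D : ℕ}
    (hD : 128 * (∑ k, (d k : ℝ) ^ 2) * D ≤ (1 - lam ^ 2) ^ 2 * n) {f : (Coord n d → ℝ) → ℝ}
    (hf : SumOnBlocks μ ρ D f) : Integrable (fun ω => f (data ρ lam ω)) (law μ n d) ∧
      ((∫ ω, f (data ρ lam ω) ∂(law μ n d)) - ∫ ω, f (data ρ 0 ω) ∂(law μ n d)) ^ 2 ≤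
        (2 / (1 - lam ^ 2)) ^ (∑ k, d k ^ 2) * Var[fun ω => f (data ρ 0 ω); law μ n d] := by
  classical
  have : IsProbabilityMeasure (law μ n d) := by
    unfold law
    infer_instance
  have hfm := hf.measurable
  have hf2 := hf.memLp
  have hfz : Measurable fun z : Coord n d → ℝ => f (symm z) := hfm.comp measurable_symm
  have hf2z := (memLp_null_iff μ ρ hfm).1 hf2
  have hsm : Measurable fun g : Fin n → G => shift ρ lam g :=
    measurable_pi_lambda _ fun c => measurable_shift ρ hρ.1 lam c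
  have hint := integrable_shift (P := Measure.pi fun _ : Fin n => μ) hsm
    (fun g c => abs_shift_le ρ lam g c) hfz hf2z
  have hint2 : Integrable (fun ω => f (data ρ lam ω)) (law μ n d) := by
    simp_rw [data_symm]
    exact hint
  refine ⟨hint2, ?_⟩
  obtain ⟨F, hF, hsum⟩ := hf
  set F' : Finset (Fin n) → (Coord n d → ℝ) → ℝ := fun S z => F S (symm z) with hF'
  have hFsum : ∀ z, ∑ S with S.card ≤ D, F' S z = f (symm z) := fun z => (hsum _).symm
  have hF'm : ∀ S, Measurable (F' S) := fun S => (hF S).1.comp measurable_symm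
  have hF'loc : ∀ S z z', (∀ c, (pr c).1 ∈ S → (pr c).2 ∈ S → z c = z' c) → F' S z = F' S z' := by
    intro S z z' h
    have h' : ∀ c : Coord n d, c.2.1.1 ∈ S → c.2.2.1.1 ∈ S → z c = z' c := fun c h3 h4 => h c h3 h4
    refine (hF S).2.1 _ _ fun c h3 h4 => ?_
    simp only [Pool.Agent.H70.SS.symm]
    rw [h' ⟨c.1, c.2.1, c.2.2.1, true⟩ h3 h4, h' ⟨c.1, c.2.2.1, c.2.1, true⟩ h4 h3,
      h' ⟨c.1, c.2.1, c.2.2.1, false⟩ h3 h4, h' ⟨c.1, c.2.2.1, c.2.1, false⟩ h4 h3]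
  have hF'2 : ∀ S, MemLp (F' S) 2 (gam (Coord n d)) := fun S =>
    (memLp_null_iff μ ρ (hF S).1).1 (hF S).2.2
  have h2 := block_ineq h0 h1 μ hρ hD F' hF'm hF'loc hF'2
  simp_rw [hFsum] at h2
  have e1 : ∫ ω, f (data ρ lam ω) ∂(law μ n d) = ∫ g, ∫ z, f (symm (shift ρ lam g + z))
      ∂(gam (Coord n d)) ∂(Measure.pi fun _ : Fin n => μ) := by
    simp_rw [data_symm]
    exact integral_prod _ hint
  have e2 := null_eq μ ρ f (n := n)
  have e3 : ∫ ω, f (data ρ 0 ω) ^ 2 ∂(law μ n d) =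
      ∫ z, f (symm z) ^ 2 ∂(gam (Coord n d)) := null_eq μ ρ (fun y => f y ^ 2) (n := n)
  rw [e1, variance_eq_sub hf2]
  simp only [Pi.pow_apply]
  rw [e3, e2]
  exact h2

theorem lower_test {lam : ℝ} (h0 : 0 ≤ lam) (h1 : lam < 1) (hρ : Admissible ρ) {D : ℕ}
    (hD : 128 * (∑ k, (d k : ℝ) ^ 2) * D ≤ (1 - lam ^ 2) ^ 2 * n) {φ : (Coord n d → ℝ) → ℝ}
    (hφ : SumOnBlocks μ ρ D φ) (hφ0 : ∀ y, 0 ≤ φ y) (hφ1 : ∀ y, φ y ≤ 1) :
    ((1 - lam ^ 2) / 2) ^ (∑ k, d k ^ 2) / 4 ≤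
      (∫ ω, φ (data ρ 0 ω) ∂(law μ n d)) + (1 - ∫ ω, φ (data ρ lam ω) ∂(law μ n d)) := by
  classical
  have : IsProbabilityMeasure (law μ n d) := by
    unfold law
    infer_instance
  have hl2 : 0 < 1 - lam ^ 2 := by nlinarith
  set C : ℝ := (2 / (1 - lam ^ 2)) ^ (∑ k, d k ^ 2) with hCdef
  have hC : 0 < C := by positivity
  have hC1 : 1 ≤ C := by
    refine one_le_pow₀ ?_
    rw [le_div_iff₀ hl2]
    nlinarith [sq_nonneg lam]
  have hCinv : ((1 - lam ^ 2) / 2) ^ (∑ k, d k ^ 2) / 4 = 1 / (4 * C) := by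
    rw [hCdef, ← inv_div 2 (1 - lam ^ 2), inv_pow]
    field_simp
  rw [hCinv]
  have hC4 : 1 / (4 * C) ≤ 1 / 4 := by
    refine one_div_le_one_div_of_le (by norm_num) ?_
    linarith
  obtain ⟨-, h2⟩ := lower_bound h0 h1 hρ hD hφ
  have hφm := hφ.measurable
  have hd : ∀ l, Measurable fun ω : (Fin n → G) × (Coord n d → ℝ) => data ρ l ω := by
    intro l
    simp_rw [data_symm]
    refine measurable_symm.comp (Measurable.add ?_ measurable_snd)
    exact (measurable_pi_lambda _ fun c => measurable_shift ρ hρ.1 l c).comp measurable_fst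
  have hi : ∀ l, Integrable (fun ω => φ (data ρ l ω)) (law μ n d) := fun l =>
    integrable_of_test _ _ (hφm.comp (hd l)) (fun _ => hφ0 _) fun _ => hφ1 _
  set P0 := ∫ ω, φ (data ρ 0 ω) ∂(law μ n d) with hP0
  set P1 := ∫ ω, φ (data ρ lam ω) ∂(law μ n d) with hP1
  have hP0nn : 0 ≤ P0 := integral_nonneg fun _ => hφ0 _
  have hP11 : P1 ≤ 1 := by
    calc P1 ≤ ∫ _ω, (1 : ℝ) ∂(law μ n d) :=
          integral_mono (hi lam) (integrable_const _) fun _ => hφ1 _
      _ = 1 := by simp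
  have hvar : Var[fun ω => φ (data ρ 0 ω); law μ n d] ≤ P0 := by
    rw [variance_eq_sub hφ.memLp]
    have h3 : ∫ ω, ((fun ω => φ (data ρ 0 ω)) ^ 2) ω ∂(law μ n d) ≤ P0 := by
      refine integral_mono ?_ (hi 0) fun ω => ?_
      · exact (memLp_two_iff_integrable_sq (hφm.comp (hd 0)).aestronglyMeasurable).1 hφ.memLp
      · show φ (data ρ 0 ω) ^ 2 ≤ φ (data ρ 0 ω)
        have := hφ0 (data ρ 0 ω)
        have := hφ1 (data ρ 0 ω)
        nlinarith
    have h4 : 0 ≤ (∫ ω, φ (data ρ 0 ω) ∂(law μ n d)) ^ 2 := sq_nonneg _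
    linarith
  have h3 : (P1 - P0) ^ 2 ≤ P0 * C := by
    calc (P1 - P0) ^ 2 ≤ C * Var[fun ω => φ (data ρ 0 ω); law μ n d] := h2
      _ ≤ C * P0 := mul_le_mul_of_nonneg_left hvar hC.le
      _ = P0 * C := mul_comm _ _
  by_cases hb : P0 ≤ 1 / 4
  · refine (le_min le_rfl hC4).trans (final_ineq hP0nn hP11 hC hb ?_)
    have h4 : P1 - P0 ≤ Real.sqrt (P0 * C) := Real.le_sqrt_of_sq_le h3
    linarith
  · push Not at hb
    refine hC4.trans ?_
    linarith

end H69.DT
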