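import Pool.Agent.H69.DT.Defs

/-!
# Module AvP: the averaged polynomial

`totalDegree_av`: `MvPolynomial.totalDegree_finsetSum`, `totalDegree_mul`, `totalDegree_C`, `totalDegree_finsetProd`
(`∏ i : Fin j, X (κ i)` has degree `≤ j ≤ q.natDegree`). `eval_av`: `q.eval x = ∑ j ∈ range (natDegree + 1), coeff j * x^j`
(`Polynomial.eval_eq_sum_range`), `(∑ c, a c * y c)^j = ∑ κ : Fin j → τ, ∏ i, a (κ i) * y (κ i)`
(`Finset.sum_pow'`-type lemma: `Finset.prod_univ_sum` + `Fintype.piFinset_univ`, or `Fintype.sum_pow`), then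
`integral_finsetSum` (all integrands bounded and measurable, `P` a probability measure).
-/

set_option autoImplicit false

open MeasureTheory ProbabilityTheory
open scoped BigOperators

namespace H69.DT

theorem totalDegree_av {Ω : Type*} [MeasurableSpace Ω] (P : Measure Ω) {τ : Type*} [Fintype τ]
    (a : Ω → τ → ℝ) (q : Polynomial ℝ) : (av P a q).totalDegree ≤ q.natDegree := by
  unfold av
  refine (MvPolynomial.totalDegree_finsetSum _ _).trans (Finset.sup_le fun j hj => ?_)
  refine (MvPolynomial.totalDegree_finsetSum _ _).trans (Finset.sup_le fun κ _ => ?_)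
  refine (MvPolynomial.totalDegree_mul _ _).trans ?_
  rw [MvPolynomial.totalDegree_C, zero_add]
  refine (MvPolynomial.totalDegree_finsetProd _ _).trans ?_
  have h : ∀ i ∈ (Finset.univ : Finset (Fin j)),
      (MvPolynomial.X (R := ℝ) (κ i)).totalDegree ≤ 1 := fun i _ =>
    (MvPolynomial.totalDegree_X (R := ℝ) (κ i)).le
  refine (Finset.sum_le_sum h).trans ?_
  simp only [Finset.sum_const, Finset.card_univ, Fintype.card_fin, smul_eq_mul, mul_one]
  exact Nat.lt_succ_iff.1 (Finset.mem_range.1 hj)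

theorem eval_av {Ω : Type*} [MeasurableSpace Ω] (P : Measure Ω) [IsProbabilityMeasure P]
    {τ : Type*} [Fintype τ] {a : Ω → τ → ℝ} (ha : ∀ c, Measurable fun ω => a ω c) {B : ℝ}
    (hB : ∀ ω c, |a ω c| ≤ B) (q : Polynomial ℝ) (y : τ → ℝ) :
    MvPolynomial.eval y (av P a q) = ∫ ω, q.eval (∑ c, a ω c * y c) ∂P := by
  classical
  have hint : ∀ (j : ℕ) (κ : Fin j → τ), Integrable (fun ω => ∏ i, a ω (κ i)) P := by
    intro j κ
    refine Integrable.of_bound (C := B ^ j)
      (Finset.measurable_prod _ fun i _ => ha (κ i)).aestronglyMeasurable ?_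
    refine Filter.Eventually.of_forall fun ω => ?_
    rw [Real.norm_eq_abs, Finset.abs_prod]
    refine (Finset.prod_le_prod (fun i _ => abs_nonneg _) fun i _ => hB ω (κ i)).trans ?_
    simp
  have h1 : ∀ ω, q.eval (∑ c, a ω c * y c) = ∑ j ∈ Finset.range (q.natDegree + 1),
      ∑ κ : Fin j → τ, (q.coeff j * ∏ i, y (κ i)) * ∏ i, a ω (κ i) := by
    intro ω
    rw [Polynomial.eval_eq_sum_range]
    refine Finset.sum_congr rfl fun j _ => ?_
    rw [Fintype.sum_pow, Finset.mul_sum]
    refine Finset.sum_congr rfl fun κ _ => ?_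
    rw [Finset.prod_mul_distrib]
    ring
  simp only [h1]
  rw [integral_finsetSum _ fun j _ => integrable_finsetSum _ fun κ _ =>
    (hint j κ).const_mul _]
  unfold av
  rw [map_sum]
  refine Finset.sum_congr rfl fun j _ => ?_
  rw [integral_finsetSum _ fun κ _ => (hint j κ).const_mul _, map_sum]
  refine Finset.sum_congr rfl fun κ _ => ?_
  rw [integral_const_mul, map_mul, MvPolynomial.eval_C, map_prod]
  simp only [MvPolynomial.eval_X]
  ring

end H69.DT
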