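import Pool.Agent.H69.DT.Defs

/-!
# Module CharI: the integrals of the powers of the character

`χ g = ρ_0(g)_{00}`, multiplicative, `‖χ g‖ = 1` (`Pool.Agent.H28.Schur.mul_entry`, `inv_entry`; see `norm_chi` in
`Pool/Agent/H69/SR/Main.lean`, `circle_admissible`-type arguments at the end of `Pool/Agent/H28/LinearDegreeModel.lean`),
continuous. Invariance of `μ` : `∫ χ^j = χ(a)^j ∫ χ^j` for every `a`, so either `χ^j = 1` everywhere (integral `1`) or the
integral is `0`: this gives `nonneg`. `zero`: for `2 ≤ j ≤ 2L` write `j = (k+1) + (l+1)` with `k l : Fin L` (`k, l < L`); if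
`χ^j = 1` everywhere then `χ^(k+1) = conj (χ^(l+1))`, so `T = 1` is in the last clause of `Admissible`, hence `1 = 0`,
contradiction. For `j = 1`: if `χ = 1` everywhere then `χ^2 = 1` everywhere.
-/

set_option autoImplicit false

open MeasureTheory ProbabilityTheory
open scoped BigOperators ComplexConjugate

namespace H69.DT

open Pool.Agent.Results.MP_634cec_lc.LinearDegree

private lemma charI_alt {G : Type} [Group G] [TopologicalSpace G] [IsTopologicalGroup G]
    [MeasurableSpace G] [BorelSpace G] (μ : Measure G) [μ.IsHaarMeasure] [IsProbabilityMeasure μ]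
    (χ : G → ℂ) (hmul : ∀ a g, χ (a * g) = χ a * χ g) (j : ℕ) :
    (∀ g, χ g ^ j = 1) ∨ ∫ g, χ g ^ j ∂μ = 0 := by
  by_cases h : ∀ g, χ g ^ j = 1
  · exact Or.inl h
  · right
    push Not at h
    obtain ⟨a, ha⟩ := h
    have h1 : ∫ g, χ g ^ j ∂μ = ∫ g, χ (a * g) ^ j ∂μ :=
      (integral_mul_left_eq_self (fun g => χ g ^ j) a).symm
    have h2 : ∫ g, χ (a * g) ^ j ∂μ = χ a ^ j * ∫ g, χ g ^ j ∂μ := by
      rw [← integral_const_mul]
      refine integral_congr_ae (Filter.Eventually.of_forall fun g => ?_)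
      simp only [hmul, mul_pow]
    have h3 : (χ a ^ j - 1) * ∫ g, χ g ^ j ∂μ = 0 := by
      rw [sub_mul, ← h2, ← h1, one_mul, sub_self]
    rcases mul_eq_zero.1 h3 with h4 | h4
    · exact absurd (sub_eq_zero.1 h4) ha
    · exact h4

theorem charI {G : Type} [Group G] [TopologicalSpace G] [IsTopologicalGroup G] [CompactSpace G]
    [MeasurableSpace G] [BorelSpace G] (μ : Measure G) [μ.IsHaarMeasure] [IsProbabilityMeasure μ]
    {L : ℕ} (hL : 1 ≤ L) (ρ : ∀ _ : Fin L, G →* Matrix.unitaryGroup (Fin 1) ℂ) (χ : G → ℂ)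
    (hχ : ∀ k g, (ρ k g : Matrix (Fin 1) (Fin 1) ℂ) 0 0 = χ g ^ ((k : ℕ) + 1))
    (hρ : Admissible (d := fun _ : Fin L => 1) ρ) : CharL μ χ L := by
  have hchi : ∀ g, χ g = (ρ ⟨0, hL⟩ g : Matrix (Fin 1) (Fin 1) ℂ) 0 0 := by
    intro g
    have h0 := hχ ⟨0, hL⟩ g
    simp only [zero_add, pow_one] at h0
    exact h0.symm
  have hcont : Continuous χ := by
    have h1 : χ = fun g => (ρ ⟨0, hL⟩ g : Matrix (Fin 1) (Fin 1) ℂ) 0 0 := funext hchi
    rw [h1]
    exact (hρ.1 ⟨0, hL⟩).matrix_elem 0 0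
  have hnorm : ∀ g, ‖χ g‖ = 1 := by
    intro g
    have h2 := (Matrix.mem_unitaryGroup_iff.1 (ρ ⟨0, hL⟩ g).2)
    have h3 := congrFun (congrFun h2 0) 0
    rw [Matrix.mul_apply] at h3
    simp only [Finset.univ_unique, Fin.default_eq_zero, Finset.sum_singleton, Matrix.star_apply,
      Matrix.one_apply_eq] at h3
    have h4 : (ρ ⟨0, hL⟩ g : Matrix (Fin 1) (Fin 1) ℂ) 0 0 *
        conj ((ρ ⟨0, hL⟩ g : Matrix (Fin 1) (Fin 1) ℂ) 0 0) = 1 := h3
    rw [← hchi, Complex.mul_conj, Complex.normSq_eq_norm_sq] at h4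
    have h5 : ‖χ g‖ ^ 2 = 1 := by exact_mod_cast h4
    nlinarith [norm_nonneg (χ g)]
  have hmul : ∀ a g, χ (a * g) = χ a * χ g := by
    intro a g
    rw [hchi (a * g), Pool.Agent.H28.Schur.mul_entry, hchi a, hchi g]
    simp only [Finset.univ_unique, Fin.default_eq_zero, Finset.sum_singleton]
  have halt := charI_alt μ χ hmul
  have hne : ∀ j : ℕ, 2 ≤ j → j ≤ 2 * L → ¬ ∀ g, χ g ^ j = 1 := by
    intro j hj1 hj2 hall
    obtain ⟨k, l, hk, hl, hkl⟩ : ∃ k l : ℕ, k < L ∧ l < L ∧ (k + 1) + (l + 1) = j := by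
      by_cases h : j ≤ L + 1
      · exact ⟨0, j - 2, hL, by omega, by omega⟩
      · exact ⟨L - 1, j - L - 1, by omega, by omega, by omega⟩
    have h4 := hρ.2.2.2 ⟨k, hk⟩ ⟨l, hl⟩ (1 : Matrix (Fin 1) (Fin 1) ℂ) (by
      intro g
      rw [mul_one, one_mul]
      ext a b
      have ha : a = 0 := Subsingleton.elim _ _
      have hb : b = 0 := Subsingleton.elim _ _
      subst ha hb
      rw [Matrix.map_apply, hχ, hχ]
      have h5 := hall g
      rw [← hkl, pow_add] at h5
      have h6 : χ g ^ (l + 1) * conj (χ g ^ (l + 1)) = 1 := by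
        rw [Complex.mul_conj, Complex.normSq_eq_norm_sq, norm_pow, hnorm g]
        simp
      have h7 : χ g ^ (l + 1) ≠ 0 := by
        intro h
        rw [h, zero_mul] at h6
        exact zero_ne_one h6
      apply mul_right_cancel₀ h7
      change χ g ^ (k + 1) * χ g ^ (l + 1) = conj (χ g ^ (l + 1)) * χ g ^ (l + 1)
      rw [h5, mul_comm, h6])
    have h8 := congrFun (congrFun h4 0) 0
    simp at h8
  refine ⟨hcont.measurable, hnorm, ?_, ?_⟩
  · intro j hj1 hj2
    rcases halt j with h | h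
    · exfalso
      rcases Nat.lt_or_ge j 2 with h2 | h2
      · have hj : j = 1 := by omega
        subst hj
        refine hne 2 le_rfl (by omega) fun g => ?_
        have := h g
        rw [pow_one] at this
        rw [this, one_pow]
      · exact hne j h2 hj2 h
    · exact h
  · intro j
    rcases halt j with h | h
    · have h1 : ∫ g, χ g ^ j ∂μ = 1 := by
        simp [h]
      rw [h1]
      norm_num
    · rw [h]
      norm_num

end H69.DT
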