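import Mathlib

/-!
# Module Ent: the moment of order `1 + η` of a density

`p ^ (1 + η) = p * exp (η * log p)` and `exp x ≤ 1 + x + x^2` for `|x| ≤ 1` (`Real.abs_exp_sub_one_sub_id_le`) with
`x = η log p`, `|x| ≤ η Λ ≤ 1`; integrate: `≤ 1 + η ∫ p log p + η^2 Λ^2 ≤ exp (..)`. All integrands are bounded
(`p ≤ exp Λ`) and measurable.
-/

set_option autoImplicit false

open MeasureTheory ProbabilityTheory
open scoped BigOperators

namespace H69.DT

theorem ent {G : Type} [MeasurableSpace G] (μ : Measure G) [IsProbabilityMeasure μ] {p : G → ℝ}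
    (hp : Measurable p) (hp0 : ∀ h, 0 < p h) {Λ : ℝ} (hΛ : ∀ h, |Real.log (p h)| ≤ Λ)
    (hp1 : ∫ h, p h ∂μ = 1) {η : ℝ} (hη0 : 0 < η) (hη1 : η * Λ ≤ 1) :
    ∫ h, p h ^ (1 + η : ℝ) ∂μ ≤
      Real.exp (η * (∫ h, p h * Real.log (p h) ∂μ) + η ^ 2 * Λ ^ 2) := by
  have hlog2 : ∀ h, Real.log (p h) ^ 2 ≤ Λ ^ 2 := by
    intro h
    rw [← sq_abs (Real.log (p h))]
    exact pow_le_pow_left₀ (abs_nonneg _) (hΛ h) 2
  have hple : ∀ h, p h ≤ Real.exp Λ := by
    intro h
    rw [← Real.exp_log (hp0 h)]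
    exact Real.exp_le_exp.2 ((le_abs_self _).trans (hΛ h))
  have hi1 : Integrable p μ := by
    refine Integrable.of_bound hp.aestronglyMeasurable (Real.exp Λ) (Filter.Eventually.of_forall fun h => ?_)
    rw [Real.norm_of_nonneg (hp0 h).le]
    exact hple h
  have hi2 : Integrable (fun h => p h * Real.log (p h)) μ := by
    refine Integrable.of_bound (hp.mul hp.log).aestronglyMeasurable (Real.exp Λ * Λ)
      (Filter.Eventually.of_forall fun h => ?_)
    rw [norm_mul, Real.norm_of_nonneg (hp0 h).le, Real.norm_eq_abs]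
    exact mul_le_mul (hple h) (hΛ h) (abs_nonneg _) (Real.exp_pos _).le
  have hpt : ∀ h, p h ^ (1 + η : ℝ) ≤
      p h + η * (p h * Real.log (p h)) + η ^ 2 * Λ ^ 2 * p h := by
    intro h
    have hx : |η * Real.log (p h)| ≤ 1 := by
      rw [abs_mul, abs_of_pos hη0]
      exact (mul_le_mul_of_nonneg_left (hΛ h) hη0.le).trans hη1
    have h1 := (abs_le.1 (Real.abs_exp_sub_one_sub_id_le hx)).2
    have h2 : p h ^ (1 + η : ℝ) = p h * Real.exp (η * Real.log (p h)) := by
      rw [Real.rpow_add (hp0 h), Real.rpow_one, Real.rpow_def_of_pos (hp0 h) η, mul_comm η]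
    have h3 : Real.exp (η * Real.log (p h)) ≤ 1 + η * Real.log (p h) + η ^ 2 * Λ ^ 2 := by
      have h4 : (η * Real.log (p h)) ^ 2 ≤ η ^ 2 * Λ ^ 2 := by
        rw [mul_pow]
        exact mul_le_mul_of_nonneg_left (hlog2 h) (sq_nonneg _)
      linarith
    rw [h2]
    have h5 := mul_le_mul_of_nonneg_left h3 (hp0 h).le
    calc p h * Real.exp (η * Real.log (p h)) ≤ p h * (1 + η * Real.log (p h) + η ^ 2 * Λ ^ 2) := h5
      _ = _ := by ring
  have hint : ∫ h, p h ^ (1 + η : ℝ) ∂μ ≤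
      ∫ h, (p h + η * (p h * Real.log (p h)) + η ^ 2 * Λ ^ 2 * p h) ∂μ :=
    integral_mono_of_nonneg
      (Filter.Eventually.of_forall fun h => Real.rpow_nonneg (hp0 h).le _)
      ((hi1.add (hi2.const_mul η)).add (hi1.const_mul (η ^ 2 * Λ ^ 2)))
      (Filter.Eventually.of_forall hpt)
  have hval : ∫ h, (p h + η * (p h * Real.log (p h)) + η ^ 2 * Λ ^ 2 * p h) ∂μ =
      1 + η * (∫ h, p h * Real.log (p h) ∂μ) + η ^ 2 * Λ ^ 2 := by
    have hs : Integrable (fun h => p h + η * (p h * Real.log (p h))) μ := hi1.add (hi2.const_mul η)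
    rw [integral_add hs (hi1.const_mul (η ^ 2 * Λ ^ 2)),
      integral_add hi1 (hi2.const_mul η), integral_const_mul, integral_const_mul, hp1, mul_one]
  rw [hval] at hint
  have hexp := Real.add_one_le_exp (η * (∫ h, p h * Real.log (p h) ∂μ) + η ^ 2 * Λ ^ 2)
  linarith

end H69.DT
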