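import Mathlib

/-!
# Module Fac: upper bound for the factorial

`D! ≤ e D (D/e)^D` for `D ≥ 1`, by induction: `(D+1) * (e D (D/e)^D) ≤ e (D+1) ((D+1)/e)^(D+1)` because
`(1 + 1/D)^(D+1) ≥ e` (`Real.one_sub_inv_le_log_of_pos` / `Real.add_one_le_exp (-1/(D+1))`:
`1 - 1/(D+1) ≤ exp (-1/(D+1))`).
-/

set_option autoImplicit false

namespace H69.DT

theorem fac {D : ℕ} (hD : 1 ≤ D) :
    (D.factorial : ℝ) ≤ Real.exp 1 * D * (D * Real.exp (-1)) ^ D := by
  induction D, hD using Nat.le_induction with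
  | base =>
    have h : Real.exp 1 * Real.exp (-1) = 1 := by rw [← Real.exp_add]; simp
    simp [h]
  | succ D hD ih =>
    have hD0 : (0 : ℝ) < (D : ℝ) + 1 := by positivity
    have h1 : (D : ℝ) ≤ ((D : ℝ) + 1) * Real.exp (-(1 / ((D : ℝ) + 1))) := by
      have h2 := Real.add_one_le_exp (-(1 / ((D : ℝ) + 1)))
      have h3 : ((D : ℝ) + 1) * (-(1 / ((D : ℝ) + 1)) + 1) = D := by
        field_simp
        ring
      calc (D : ℝ) = ((D : ℝ) + 1) * (-(1 / ((D : ℝ) + 1)) + 1) := h3.symm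
        _ ≤ _ := mul_le_mul_of_nonneg_left h2 hD0.le
    have h4 : (D : ℝ) ^ (D + 1) ≤ ((D : ℝ) + 1) ^ (D + 1) * Real.exp (-1) := by
      calc (D : ℝ) ^ (D + 1) ≤ (((D : ℝ) + 1) * Real.exp (-(1 / ((D : ℝ) + 1)))) ^ (D + 1) :=
            pow_le_pow_left₀ (by positivity) h1 _
        _ = ((D : ℝ) + 1) ^ (D + 1) * Real.exp (-1) := by
            rw [mul_pow, ← Real.exp_nat_mul]
            congr 2
            push_cast
            field_simp
    have h5 : ((D + 1).factorial : ℝ) = ((D : ℝ) + 1) * (D.factorial : ℝ) := by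
      rw [Nat.factorial_succ]
      push_cast
      ring
    rw [h5]
    have he : (0 : ℝ) < Real.exp (-1) := Real.exp_pos _
    have he1 : (0 : ℝ) < Real.exp 1 := Real.exp_pos _
    calc ((D : ℝ) + 1) * (D.factorial : ℝ)
        ≤ ((D : ℝ) + 1) * (Real.exp 1 * D * (D * Real.exp (-1)) ^ D) :=
          mul_le_mul_of_nonneg_left ih hD0.le
      _ = Real.exp 1 * ((D : ℝ) + 1) * ((D : ℝ) ^ (D + 1) * Real.exp (-1) ^ D) := by
          rw [mul_pow, pow_succ]
          ring
      _ ≤ Real.exp 1 * ((D : ℝ) + 1) *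
          ((((D : ℝ) + 1) ^ (D + 1) * Real.exp (-1)) * Real.exp (-1) ^ D) := by
          refine mul_le_mul_of_nonneg_left ?_ (by positivity)
          exact mul_le_mul_of_nonneg_right h4 (by positivity)
      _ = Real.exp 1 * ((D + 1 : ℕ) : ℝ) * (((D + 1 : ℕ) : ℝ) * Real.exp (-1)) ^ (D + 1) := by
          push_cast
          rw [mul_pow, pow_succ (Real.exp (-1))]
          ring

end H69.DT
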