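import Mathlib

/-!
# Module Hoel: lower bound for the moments of a sum by a change of measure

`P h := ∏ i, p (h i)` is a density for `Measure.pi μ`: `∫ X (h i) P(h) = m` for every `i` (`integral_fintype_prod_eq_prod`
with the factor `X p` at `i` and `p` elsewhere), so `∫ (∑ i, X (h i)) P(h) = n m`. Hoelder with `2 D` and
`q = 2D/(2D-1)` (`MeasureTheory.integral_mul_le_Lp_mul_Lq_of_nonneg`, applied to `|∑ X|` and `P`;
`Real.HolderConjugate`): `|n m| ≤ (∫ |∑ X|^(2D))^(1/(2D)) * (∫ P^q)^(1/q)`, `∫ P^q = (∫ p^q)^n`; raise to the power `2D`: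
`((∫ p^q)^n)^(2D/q) = (∫ p^q)^(n (2D-1))` (`2D/q = 2D - 1`).
-/

set_option autoImplicit false

open MeasureTheory ProbabilityTheory
open scoped BigOperators

namespace H69.DT

theorem hoel {G : Type} [MeasurableSpace G] (μ : Measure G) [IsProbabilityMeasure μ] {X p : G → ℝ}
    (hX : Measurable X) (hp : Measurable p) {B : ℝ} (hXb : ∀ h, |X h| ≤ B) (hp0 : ∀ h, 0 ≤ p h)
    {B' : ℝ} (hpb : ∀ h, p h ≤ B') (hp1 : ∫ h, p h ∂μ = 1) (n : ℕ) {D : ℕ} (hD : 1 ≤ D) :
    (n * ∫ h, X h * p h ∂μ) ^ (2 * D) ≤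
      (∫ h : Fin n → G, (∑ i, X (h i)) ^ (2 * D) ∂(Measure.pi fun _ : Fin n => μ)) *
        (∫ h, p h ^ (1 + 1 / (2 * D - 1) : ℝ) ∂μ) ^ (n * (2 * D - 1)) := by
  classical
  obtain ⟨k, rfl⟩ : ∃ k, D = k + 1 := ⟨D - 1, by omega⟩
  have hB : 0 ≤ |B| := abs_nonneg B
  have hXb' : ∀ h, |X h| ≤ |B| := fun h => (hXb h).trans (le_abs_self B)
  have hpb' : ∀ h, p h ≤ |B'| := fun h => (hpb h).trans (le_abs_self B')
  set ν : Measure (Fin n → G) := Measure.pi fun _ : Fin n => μ with hν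
  set S : (Fin n → G) → ℝ := fun h => ∑ i, X (h i) with hS
  set P : (Fin n → G) → ℝ := fun h => ∏ i, p (h i) with hP
  have hSm : Measurable S := Finset.measurable_sum _ fun i _ => hX.comp (measurable_pi_apply i)
  have hPm : Measurable P := Finset.measurable_prod _ fun i _ => hp.comp (measurable_pi_apply i)
  have hSb : ∀ h, |S h| ≤ n * |B| := by
    intro h
    calc |S h| ≤ ∑ i : Fin n, |X (h i)| := Finset.abs_sum_le_sum_abs _ _
      _ ≤ ∑ _i : Fin n, |B| := Finset.sum_le_sum fun i _ => hXb' _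
      _ = n * |B| := by simp
  have hP0 : ∀ h, 0 ≤ P h := fun h => Finset.prod_nonneg fun i _ => hp0 _
  have hPb : ∀ h, P h ≤ |B'| ^ n := by
    intro h
    calc P h ≤ ∏ _i : Fin n, |B'| := Finset.prod_le_prod (fun i _ => hp0 _) fun i _ => hpb' _
      _ = |B'| ^ n := by simp
  have hXPi : ∀ i : Fin n, ∫ h, X (h i) * P h ∂ν = ∫ h, X h * p h ∂μ := by
    intro i
    have h1 : ∀ h : Fin n → G, X (h i) * P h =
        ∏ j, (fun (j : Fin n) (x : G) => if j = i then X x * p x else p x) j (h j) := by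
      intro h
      have h2 : ∀ j, (fun (j : Fin n) (x : G) => if j = i then X x * p x else p x) j (h j) =
          (if j = i then X (h j) else 1) * p (h j) := by
        intro j
        dsimp only
        split_ifs
        · rfl
        · rw [one_mul]
      rw [Finset.prod_congr rfl fun j _ => h2 j, Finset.prod_mul_distrib]
      simp [hP]
    have h3 := integral_fintype_prod_eq_prod (μ := fun _ : Fin n => μ)
      (fun (j : Fin n) (x : G) => if j = i then X x * p x else p x)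
    rw [integral_congr_ae (Filter.Eventually.of_forall h1), hν]
    refine h3.trans ?_
    rw [Finset.prod_eq_single i]
    · simp
    · intro j _ hj
      simp [hj, hp1]
    · intro hi
      exact absurd (Finset.mem_univ _) hi
  have hXPint : ∀ i : Fin n, Integrable (fun h => X (h i) * P h) ν := fun i =>
    Integrable.of_bound (C := |B| * |B'| ^ n)
      ((hX.comp (measurable_pi_apply i)).mul hPm).aestronglyMeasurable
      (Filter.Eventually.of_forall fun h => by
        rw [Real.norm_eq_abs, abs_mul, abs_of_nonneg (hP0 h)]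
        exact mul_le_mul (hXb' _) (hPb h) (hP0 h) hB)
  have hSP : ∫ h, S h * P h ∂ν = n * ∫ h, X h * p h ∂μ := by
    have h1 : ∀ h, S h * P h = ∑ i, X (h i) * P h := by
      intro h
      rw [hS]
      exact Finset.sum_mul _ _ _
    rw [integral_congr_ae (Filter.Eventually.of_forall h1), integral_finsetSum _ fun i _ => hXPint i,
      Finset.sum_congr rfl fun i _ => hXPi i]
    simp
  obtain ⟨q, hq⟩ : ∃ q : ℝ, q = 1 + 1 / (2 * ((k + 1 : ℕ) : ℝ) - 1) := ⟨_, rfl⟩
  have hk0 : (0 : ℝ) ≤ k := Nat.cast_nonneg k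
  have h2D : (0 : ℝ) < 2 * ((k + 1 : ℕ) : ℝ) - 1 := by
    push_cast
    linarith
  have hconj : (2 * ((k + 1 : ℕ) : ℝ)).HolderConjugate q := by
    rw [Real.holderConjugate_iff]
    refine ⟨by linarith, ?_⟩
    rw [hq]
    have h3 : (2 * ((k + 1 : ℕ) : ℝ)) ≠ 0 := by positivity
    have h4 : (2 * ((k + 1 : ℕ) : ℝ) - 1) ≠ 0 := h2D.ne'
    field_simp
    ring
  have hPq : ∫ h, P h ^ q ∂ν = (∫ h, p h ^ q ∂μ) ^ n := by
    have h1 : ∀ h : Fin n → G, P h ^ q = ∏ j, (fun (_ : Fin n) (x : G) => p x ^ q) j (h j) := by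
      intro h
      rw [hP]
      exact (Real.finsetProd_rpow _ _ (fun i _ => hp0 _) q).symm
    have h3 := integral_fintype_prod_eq_prod (μ := fun _ : Fin n => μ)
      (fun (_ : Fin n) (x : G) => p x ^ q)
    rw [integral_congr_ae (Filter.Eventually.of_forall h1), hν]
    refine h3.trans ?_
    simp
  have hSmem : MemLp (fun h => |S h|) (ENNReal.ofReal (2 * ((k + 1 : ℕ) : ℝ))) ν :=
    MemLp.of_bound hSm.abs.aestronglyMeasurable (n * |B|)
      (Filter.Eventually.of_forall fun h => by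
        rw [Real.norm_eq_abs, abs_abs]
        exact hSb h)
  have hPmem : MemLp P (ENNReal.ofReal q) ν :=
    MemLp.of_bound hPm.aestronglyMeasurable (|B'| ^ n)
      (Filter.Eventually.of_forall fun h => by
        rw [Real.norm_eq_abs, abs_of_nonneg (hP0 h)]
        exact hPb h)
  have hH := integral_mul_le_Lp_mul_Lq_of_nonneg hconj
    (Filter.Eventually.of_forall fun h => abs_nonneg (S h))
    (Filter.Eventually.of_forall fun h => hP0 h) hSmem hPmem
  rw [hPq] at hH
  have hSabs : ∫ h, |S h| ^ (2 * ((k + 1 : ℕ) : ℝ)) ∂ν = ∫ h, S h ^ (2 * (k + 1)) ∂ν := by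
    refine integral_congr_ae (Filter.Eventually.of_forall fun h => ?_)
    dsimp only
    have h3 : (2 * ((k + 1 : ℕ) : ℝ)) = ((2 * (k + 1) : ℕ) : ℝ) := by push_cast; ring
    rw [h3, Real.rpow_natCast, pow_mul, sq_abs, ← pow_mul]
  rw [hSabs] at hH
  have hI0 : 0 ≤ ∫ h, S h ^ (2 * (k + 1)) ∂ν := integral_nonneg fun h => by
    dsimp only [Pi.zero_apply]
    rw [pow_mul]
    positivity
  have hJ0 : 0 ≤ ∫ h, p h ^ q ∂μ := integral_nonneg fun h => Real.rpow_nonneg (hp0 h) q
  have habs : |n * ∫ h, X h * p h ∂μ| ≤ ∫ h, |S h| * P h ∂ν := by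
    rw [← hSP]
    refine (abs_integral_le_integral_abs).trans (le_of_eq ?_)
    refine integral_congr_ae (Filter.Eventually.of_forall fun h => ?_)
    dsimp only
    rw [abs_mul, abs_of_nonneg (hP0 h)]
  have h5 := habs.trans hH
  have h6 := pow_le_pow_left₀ (abs_nonneg _) h5 (2 * (k + 1))
  have h7 : |n * ∫ h, X h * p h ∂μ| ^ (2 * (k + 1)) = (n * ∫ h, X h * p h ∂μ) ^ (2 * (k + 1)) := by
    rw [pow_mul, sq_abs, ← pow_mul]
  rw [h7] at h6
  refine h6.trans (le_of_eq ?_)
  rw [mul_pow]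
  congr 1
  · rw [← Real.rpow_natCast, ← Real.rpow_mul hI0]
    have h8 : 1 / (2 * ((k + 1 : ℕ) : ℝ)) * ((2 * (k + 1) : ℕ) : ℝ) = 1 := by
      push_cast
      field_simp
    rw [h8, Real.rpow_one]
  · rw [← Real.rpow_natCast, ← Real.rpow_mul (by positivity), ← Real.rpow_natCast _ n,
      ← Real.rpow_mul hJ0, ← hq, ← Real.rpow_natCast _ (n * (2 * (k + 1) - 1))]
    congr 1
    have h9 : ((n * (2 * (k + 1) - 1) : ℕ) : ℝ) = n * (2 * ((k + 1 : ℕ) : ℝ) - 1) := by
      have h10 : 2 * (k + 1) - 1 = 2 * k + 1 := by omega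
      rw [h10]
      push_cast
      ring
    rw [h9, hq]
    have h4 : (2 * ((k + 1 : ℕ) : ℝ) - 1) ≠ 0 := h2D.ne'
    push_cast at h4 ⊢
    field_simp
    ring

end H69.DT
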