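import Pool.Agent.H69.DT.Defs
import Pool.Agent.H69.DT.Hoel
import Pool.Agent.H69.DT.Ent
import Pool.Agent.H69.DT.Fac

/-!
# Module Low: the moments of the overlap are large

`κ := lam^2 m^2 / L > 0`, `D := ⌊κ n⌋₊`; for large `n` : `1 ≤ D`, `κ n / 2 ≤ D ≤ κ n`. Put `S h := ∑ i, XX χ L (h i)`,
`X := XX χ L`, `|X| ≤ L`. Cauchy-Schwarz: `S h = ∑ k, (∑ i, χ (h i)^(k+1)).re`, so `(S h)^2 ≤ L * ∑ k, ‖∑ i, χ (h i)^(k+1)‖^2`
and the integrand on the right is `≥ (lam^2/(n L) * S^2)^D`. `hoel`: `(n m)^(2D) ≤ (∫ S^(2D)) * (∫ p^(1+η))^(n (2D-1))`,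
`η = 1/(2D-1)`, and `ent` (`η Λ ≤ 1` for large `n`): `(∫ p^(1+η))^(n(2D-1)) ≤ exp (n l + n Λ^2/(2D-1))`, and
`n/(2D-1) ≤ n/D ≤ 2/κ`. So the right side is `≥ (κ n)^D * exp (-n l - 2 Λ^2/κ) ≥ D^D exp(..)`, and
`D! ≤ e D D^D exp(-D)` (`fac`), `D ≥ κ n - 1`: quotient `≥ exp (n (κ - l) - 2Λ^2/κ - 2 - log D)`; take `c := (κ - l)/2` and
`N` large (`log D ≤ log (κ n)` is `≤ c n / 2` eventually: `Real.isLittleO_log_id_atTop` or `Real.log_le_sub_one_of_pos`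
applied to a square root). `c`, `N`, `D` do not depend on `G`, `μ`, `χ`, `p`.
-/

set_option autoImplicit false

open MeasureTheory ProbabilityTheory
open scoped BigOperators

namespace H69.DT

private lemma Low_absXX {G : Type} {χ : G → ℂ} (L : ℕ) (hχ : ∀ g, ‖χ g‖ = 1) (g : G) :
    |XX χ L g| ≤ L := by
  unfold XX
  refine (Finset.abs_sum_le_sum_abs _ _).trans ?_
  calc ∑ k : Fin L, |(χ g ^ ((k : ℕ) + 1)).re| ≤ ∑ _k : Fin L, (1 : ℝ) := by
        refine Finset.sum_le_sum fun k _ => ?_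
        refine (Complex.abs_re_le_norm _).trans ?_
        rw [norm_pow, hχ g, one_pow]
    _ = L := by simp

private lemma Low_cs {G : Type} {χ : G → ℂ} (L n : ℕ) (h : Fin n → G) :
    (∑ i, XX χ L (h i)) ^ 2 ≤ L * ∑ k : Fin L, ‖∑ i, χ (h i) ^ ((k : ℕ) + 1)‖ ^ 2 := by
  have h1 : ∑ i, XX χ L (h i) = ∑ k : Fin L, (∑ i, χ (h i) ^ ((k : ℕ) + 1)).re := by
    unfold XX
    rw [Finset.sum_comm]
    refine Finset.sum_congr rfl fun k _ => ?_
    rw [Complex.re_sum]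
  rw [h1]
  refine (sq_sum_le_card_mul_sum_sq (s := Finset.univ)
    (f := fun k : Fin L => (∑ i, χ (h i) ^ ((k : ℕ) + 1)).re)).trans ?_
  rw [Finset.card_univ, Fintype.card_fin]
  refine mul_le_mul_of_nonneg_left ?_ (Nat.cast_nonneg L)
  refine Finset.sum_le_sum fun k _ => ?_
  refine sq_le_sq' ?_ ?_
  · exact (abs_le.1 (Complex.abs_re_le_norm _)).1
  · exact (abs_le.1 (Complex.abs_re_le_norm _)).2

/-- the moments, from below -/
private lemma Low_int {L : ℕ} (hL : 1 ≤ L) {lam m l Λ : ℝ} {n D : ℕ} (hn : 0 < n) (hD : 1 ≤ D)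
    (hΛ : Λ ≤ 2 * (D : ℝ) - 1) {G : Type} [MeasurableSpace G] (μ : Measure G)
    [IsProbabilityMeasure μ] (χ : G → ℂ) (p : G → ℝ) (hχm : Measurable χ) (hχ : ∀ g, ‖χ g‖ = 1)
    (hT : Tilt μ χ L m l Λ p) :
    (lam ^ 2 * m ^ 2 / L * n) ^ D ≤ (∫ h : Fin n → G,
          (lam ^ 2 / n * ∑ k : Fin L, ‖∑ i, χ (h i) ^ ((k : ℕ) + 1)‖ ^ 2) ^ D
            ∂(Measure.pi fun _ : Fin n => μ)) *
        Real.exp (n * l + n * Λ ^ 2 / (2 * (D : ℝ) - 1)) := by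
  have hLr : (0 : ℝ) < L := by exact_mod_cast hL
  have hnr : (0 : ℝ) < n := by exact_mod_cast hn
  have hDr : (1 : ℝ) ≤ D := by exact_mod_cast hD
  have h2D : (0 : ℝ) < 2 * (D : ℝ) - 1 := by linarith
  have hXm : Measurable (XX χ L) := by
    unfold XX
    exact Finset.measurable_sum _ fun k _ => Complex.measurable_re.comp (hχm.pow_const _)
  have hsm : ∀ k : Fin L, Measurable fun h : Fin n → G => ∑ i, χ (h i) ^ ((k : ℕ) + 1) := by
    intro k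
    exact Finset.measurable_sum _ fun i _ => (hχm.comp (measurable_pi_apply i)).pow_const _
  -- the two integrands
  have hf1m : Measurable fun h : Fin n → G =>
      (lam ^ 2 / n * ∑ k : Fin L, ‖∑ i, χ (h i) ^ ((k : ℕ) + 1)‖ ^ 2) ^ D := by
    refine Measurable.pow_const (Measurable.const_mul ?_ _) _
    exact Finset.measurable_sum _ fun k _ => ((hsm k).norm).pow_const _
  have hf2m : Measurable fun h : Fin n → G => (∑ i, XX χ L (h i)) ^ (2 * D) := by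
    refine Measurable.pow_const ?_ _
    exact Finset.measurable_sum _ fun i _ => hXm.comp (measurable_pi_apply i)
  have hb1 : ∀ (h : Fin n → G) (k : Fin L), ‖∑ i, χ (h i) ^ ((k : ℕ) + 1)‖ ≤ n := by
    intro h k
    refine (norm_sum_le _ _).trans ?_
    calc ∑ i, ‖χ (h i) ^ ((k : ℕ) + 1)‖ = ∑ _i : Fin n, (1 : ℝ) :=
          Finset.sum_congr rfl fun i _ => by rw [norm_pow, hχ, one_pow]
      _ ≤ n := by simp
  have hi1 : Integrable (fun h : Fin n → G =>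
      (lam ^ 2 / n * ∑ k : Fin L, ‖∑ i, χ (h i) ^ ((k : ℕ) + 1)‖ ^ 2) ^ D)
      (Measure.pi fun _ : Fin n => μ) := by
    refine Integrable.of_bound hf1m.aestronglyMeasurable
      ((lam ^ 2 / n * (L * (n : ℝ) ^ 2)) ^ D) (ae_of_all _ fun h => ?_)
    have h0 : 0 ≤ lam ^ 2 / n * ∑ k : Fin L, ‖∑ i, χ (h i) ^ ((k : ℕ) + 1)‖ ^ 2 := by positivity
    rw [Real.norm_of_nonneg (pow_nonneg h0 _)]
    refine pow_le_pow_left₀ h0 ?_ _
    refine mul_le_mul_of_nonneg_left ?_ (by positivity)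
    calc ∑ k : Fin L, ‖∑ i, χ (h i) ^ ((k : ℕ) + 1)‖ ^ 2 ≤ ∑ _k : Fin L, (n : ℝ) ^ 2 :=
          Finset.sum_le_sum fun k _ => pow_le_pow_left₀ (norm_nonneg _) (hb1 h k) 2
      _ = L * (n : ℝ) ^ 2 := by simp
  have hi2 : Integrable (fun h : Fin n → G => (∑ i, XX χ L (h i)) ^ (2 * D))
      (Measure.pi fun _ : Fin n => μ) := by
    refine Integrable.of_bound hf2m.aestronglyMeasurable
      (((n : ℝ) * L) ^ (2 * D)) (ae_of_all _ fun h => ?_)
    rw [norm_pow, Real.norm_eq_abs]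
    refine pow_le_pow_left₀ (abs_nonneg _) ?_ _
    refine (Finset.abs_sum_le_sum_abs _ _).trans ?_
    calc ∑ i, |XX χ L (h i)| ≤ ∑ _i : Fin n, (L : ℝ) :=
          Finset.sum_le_sum fun i _ => Low_absXX L hχ (h i)
      _ = n * L := by simp
  set J : ℝ := ∫ h : Fin n → G, (∑ i, XX χ L (h i)) ^ (2 * D) ∂(Measure.pi fun _ : Fin n => μ)
    with hJ
  set I : ℝ := ∫ h : Fin n → G,
          (lam ^ 2 / n * ∑ k : Fin L, ‖∑ i, χ (h i) ^ ((k : ℕ) + 1)‖ ^ 2) ^ D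
            ∂(Measure.pi fun _ : Fin n => μ) with hI
  have hJI : (lam ^ 2 / (n * L)) ^ D * J ≤ I := by
    rw [hJ, hI, ← integral_const_mul]
    refine integral_mono (hi2.const_mul _) hi1 fun h => ?_
    show (lam ^ 2 / (n * L)) ^ D * (∑ i, XX χ L (h i)) ^ (2 * D) ≤
      (lam ^ 2 / n * ∑ k : Fin L, ‖∑ i, χ (h i) ^ ((k : ℕ) + 1)‖ ^ 2) ^ D
    rw [pow_mul, ← mul_pow]
    refine pow_le_pow_left₀ (by positivity) ?_ _
    have h1 := Low_cs (χ := χ) L n h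
    calc lam ^ 2 / (n * L) * (∑ i, XX χ L (h i)) ^ 2
        ≤ lam ^ 2 / (n * L) * (L * ∑ k : Fin L, ‖∑ i, χ (h i) ^ ((k : ℕ) + 1)‖ ^ 2) :=
          mul_le_mul_of_nonneg_left h1 (by positivity)
      _ = lam ^ 2 / n * ∑ k : Fin L, ‖∑ i, χ (h i) ^ ((k : ℕ) + 1)‖ ^ 2 := by
          field_simp
  -- the change of measure
  have hpb : ∀ g, p g ≤ Real.exp Λ := by
    intro g
    rw [← Real.exp_log (hT.pos g)]
    exact Real.exp_le_exp.2 ((le_abs_self _).trans (hT.log g))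
  have hh := hoel μ hXm hT.meas (Low_absXX L hχ) (fun g => (hT.pos g).le) hpb hT.one n hD
  rw [hT.mean, ← hJ] at hh
  set η : ℝ := 1 / (2 * D - 1) with hη
  have hη0 : 0 < η := by positivity
  have hηΛ : η * Λ ≤ 1 := by
    rw [hη, one_div, inv_mul_le_iff₀ h2D, mul_one]
    exact hΛ
  have he := ent μ hT.meas hT.pos hT.log hT.one hη0 hηΛ
  have hp0 : 0 ≤ ∫ h, p h ^ (1 + η : ℝ) ∂μ :=
    integral_nonneg fun g => Real.rpow_nonneg (hT.pos g).le _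
  have he2 : ∫ h, p h ^ (1 + η : ℝ) ∂μ ≤ Real.exp (η * l + η ^ 2 * Λ ^ 2) := by
    refine he.trans (Real.exp_le_exp.2 ?_)
    have := mul_le_mul_of_nonneg_left hT.ent hη0.le
    linarith
  have hQ : (∫ h, p h ^ (1 + η : ℝ) ∂μ) ^ (n * (2 * D - 1)) ≤
      Real.exp (n * l + n * Λ ^ 2 / (2 * (D : ℝ) - 1)) := by
    refine (pow_le_pow_left₀ hp0 he2 _).trans (le_of_eq ?_)
    rw [← Real.exp_nat_mul]
    congr 1
    rw [Nat.cast_mul, Nat.cast_sub (by omega)]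
    push_cast
    rw [hη]
    field_simp
  have hJ0 : 0 ≤ J := by
    rw [hJ]
    refine integral_nonneg fun h => ?_
    show 0 ≤ (∑ i, XX χ L (h i)) ^ (2 * D)
    rw [pow_mul]
    positivity
  have h3 : ((n : ℝ) * m) ^ (2 * D) ≤ J * Real.exp (n * l + n * Λ ^ 2 / (2 * (D : ℝ) - 1)) :=
    hh.trans (mul_le_mul_of_nonneg_left hQ hJ0)
  calc (lam ^ 2 * m ^ 2 / L * n) ^ D
      = (lam ^ 2 / (n * L)) ^ D * ((n : ℝ) * m) ^ (2 * D) := by
        have h4 : lam ^ 2 * m ^ 2 / L * n = lam ^ 2 / (n * L) * ((n : ℝ) * m) ^ 2 := by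
          field_simp
        rw [h4, mul_pow, ← pow_mul]
    _ ≤ (lam ^ 2 / (n * L)) ^ D *
        (J * Real.exp (n * l + n * Λ ^ 2 / (2 * (D : ℝ) - 1))) :=
        mul_le_mul_of_nonneg_left h3 (by positivity)
    _ = ((lam ^ 2 / (n * L)) ^ D * J) * Real.exp (n * l + n * Λ ^ 2 / (2 * (D : ℝ) - 1)) := by
        ring
    _ ≤ I * Real.exp (n * l + n * Λ ^ 2 / (2 * (D : ℝ) - 1)) :=
        mul_le_mul_of_nonneg_right hJI (Real.exp_pos _).le

theorem low {L : ℕ} (hL : 1 ≤ L) {lam m l Λ : ℝ} (h0 : 0 < lam) (hm : 0 < m)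
    (hl : l < lam ^ 2 * m ^ 2 / L) : ∃ c : ℝ, 0 < c ∧ ∃ N : ℕ, ∀ n ≥ N, ∃ D : ℕ, 1 ≤ D ∧
      (D : ℝ) ≤ lam ^ 2 * m ^ 2 / L * n ∧
      ∀ (G : Type) [MeasurableSpace G] (μ : Measure G) [IsProbabilityMeasure μ] (χ : G → ℂ)
        (p : G → ℝ), Measurable χ → (∀ g, ‖χ g‖ = 1) → Tilt μ χ L m l Λ p →
        Real.exp (c * n) * D.factorial ≤ ∫ h : Fin n → G,
          (lam ^ 2 / n * ∑ k : Fin L, ‖∑ i, χ (h i) ^ ((k : ℕ) + 1)‖ ^ 2) ^ D
            ∂(Measure.pi fun _ : Fin n => μ) := by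
  have hLr : (0 : ℝ) < L := by exact_mod_cast hL
  set κ : ℝ := lam ^ 2 * m ^ 2 / L with hκ
  have hκ0 : 0 < κ := by positivity
  have hkl : 0 < κ - l := by linarith
  have ht : Filter.Tendsto (fun n : ℕ => κ * (n : ℝ)) Filter.atTop Filter.atTop :=
    tendsto_natCast_atTop_atTop.const_mul_atTop hκ0
  have ht2 : Filter.Tendsto (fun n : ℕ => (κ - l) * (n : ℝ)) Filter.atTop Filter.atTop :=
    tendsto_natCast_atTop_atTop.const_mul_atTop hkl
  have e1 := ht.eventually_ge_atTop 2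
  have e2 := ht.eventually_ge_atTop (2 * Λ)
  have e3 := ht2.eventually_ge_atTop (4 * (2 + 2 * Λ ^ 2 / κ))
  have e4 : ∀ᶠ n : ℕ in Filter.atTop, Real.log (κ * n) ≤ (κ - l) / (4 * κ) * (κ * n) := by
    have h1 := Real.isLittleO_log_id_atTop.bound (show 0 < (κ - l) / (4 * κ) by positivity)
    have h2 := ht.eventually h1
    filter_upwards [h2, e1] with n hn hn1
    have h3 : ‖id (κ * (n : ℝ))‖ = κ * n := by
      rw [id, Real.norm_of_nonneg (by linarith)]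
    rw [h3] at hn
    exact (le_abs_self _).trans hn
  obtain ⟨N, hN⟩ := Filter.eventually_atTop.1 (e1.and (e2.and (e3.and e4)))
  refine ⟨(κ - l) / 2, by positivity, N, fun n hn => ?_⟩
  obtain ⟨h1, h2, h3, h4⟩ := hN n hn
  have hn0 : 0 < n := by
    rcases Nat.eq_zero_or_pos n with h | h
    · rw [h] at h1
      norm_num at h1
    · exact h
  have hκn : 0 ≤ κ * n := by linarith
  have hDle : ((⌊κ * (n : ℝ)⌋₊ : ℕ) : ℝ) ≤ κ * n := Nat.floor_le hκn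
  have hDlt : κ * n < ((⌊κ * (n : ℝ)⌋₊ : ℕ) : ℝ) + 1 := Nat.lt_floor_add_one _
  have hD1 : 1 ≤ ⌊κ * (n : ℝ)⌋₊ := by
    refine Nat.le_floor ?_
    push_cast
    linarith
  generalize ⌊κ * (n : ℝ)⌋₊ = D at hDle hDlt hD1 ⊢
  have hDr : (1 : ℝ) ≤ D := by exact_mod_cast hD1
  refine ⟨D, hD1, hDle, fun G _ μ _ χ p hχm hχ hT => ?_⟩
  have hnr : (0 : ℝ) < n := by exact_mod_cast hn0
  have key := Low_int (lam := lam) hL hn0 hD1 (by linarith) μ χ p hχm hχ hT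
  rw [← hκ] at key
  set I : ℝ := ∫ h : Fin n → G,
          (lam ^ 2 / n * ∑ k : Fin L, ‖∑ i, χ (h i) ^ ((k : ℕ) + 1)‖ ^ 2) ^ D
            ∂(Measure.pi fun _ : Fin n => μ) with hI
  have hI0 : 0 ≤ I := by
    rw [hI]
    refine integral_nonneg fun h => ?_
    show 0 ≤ (lam ^ 2 / n * ∑ k : Fin L, ‖∑ i, χ (h i) ^ ((k : ℕ) + 1)‖ ^ 2) ^ D
    positivity
  have hE : (n : ℝ) * l + n * Λ ^ 2 / (2 * (D : ℝ) - 1) ≤ n * l + 2 * Λ ^ 2 / κ := by
    have h5 : (n : ℝ) * Λ ^ 2 / (2 * (D : ℝ) - 1) ≤ 2 * Λ ^ 2 / κ := by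
      rw [div_le_div_iff₀ (by linarith) hκ0]
      have h6 : κ * n ≤ 2 * (2 * (D : ℝ) - 1) := by linarith
      have h7 : 0 ≤ Λ ^ 2 := sq_nonneg Λ
      nlinarith
    linarith
  have key2 : (D : ℝ) ^ D ≤ I * Real.exp (n * l + 2 * Λ ^ 2 / κ) := by
    calc (D : ℝ) ^ D ≤ (κ * n) ^ D := pow_le_pow_left₀ (by positivity) hDle D
      _ ≤ _ := key
      _ ≤ _ := mul_le_mul_of_nonneg_left (Real.exp_le_exp.2 hE) hI0
  have hfac := fac hD1
  have hDexp : (D : ℝ) ≤ Real.exp (Real.log (κ * n)) := by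
    rw [Real.exp_log (by linarith)]
    exact hDle
  have hexp : Real.exp (n * l + 2 * Λ ^ 2 / κ) * (Real.exp ((κ - l) / 2 * n) *
      (Real.exp 1 * Real.exp (Real.log (κ * n)) * Real.exp (-D))) ≤ 1 := by
    rw [← Real.exp_add, ← Real.exp_add, ← Real.exp_add, ← Real.exp_add, Real.exp_le_one_iff]
    have h5 : (κ - l) / (4 * κ) * (κ * n) = (κ - l) * n / 4 := by
      field_simp
    rw [h5] at h4
    linarith
  calc Real.exp ((κ - l) / 2 * n) * D.factorial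
      ≤ Real.exp ((κ - l) / 2 * n) * (Real.exp 1 * D * (D * Real.exp (-1)) ^ D) :=
        mul_le_mul_of_nonneg_left hfac (Real.exp_pos _).le
    _ = (D : ℝ) ^ D * (Real.exp ((κ - l) / 2 * n) * (Real.exp 1 * D * Real.exp (-D))) := by
        rw [mul_pow, ← Real.exp_nat_mul, mul_neg_one]
        ring
    _ ≤ (I * Real.exp (n * l + 2 * Λ ^ 2 / κ)) *
        (Real.exp ((κ - l) / 2 * n) * (Real.exp 1 * Real.exp (Real.log (κ * n)) *
          Real.exp (-D))) := by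
        refine mul_le_mul key2 ?_ (by positivity) (by positivity)
        refine mul_le_mul_of_nonneg_left ?_ (Real.exp_pos _).le
        refine mul_le_mul_of_nonneg_right ?_ (Real.exp_pos _).le
        exact mul_le_mul_of_nonneg_left hDexp (Real.exp_pos _).le
    _ = I * (Real.exp (n * l + 2 * Λ ^ 2 / κ) * (Real.exp ((κ - l) / 2 * n) *
      (Real.exp 1 * Real.exp (Real.log (κ * n)) * Real.exp (-D)))) := by ring
    _ ≤ I * 1 := mul_le_mul_of_nonneg_left hexp hI0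
    _ = I := mul_one I

end H69.DT
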