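import Pool.Agent.H28.LinearDegreeModel

/-!
# Module OvlB: the overlaps for a character

`shift_inner` (`Pool/Agent/H28/LinearDegreeModel.lean`): `∑ c, shift g c * shift g' c = lam^2/n * ∑ c : VIdx d, ‖∑ i, vv ρ c (g_i⁻¹ g'_i)‖^2`;
for blocks of size one `vv ρ ⟨k, (0,0)⟩ h = χ(h)^(k+1)`. `ovl_self`: `g = g'`, all terms are `χ(1) = 1`, `n ≥ 1`.
`ovl_mom`: for fixed `g` the map `g' ↦ g⁻¹ g'` preserves `Measure.pi μ` (`integral_mul_left_eq_self`, as in `integral_sE` of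
`Pool/Agent/H47/LV/Main.lean`), and the outer integral is over a constant.
-/

set_option autoImplicit false

open MeasureTheory ProbabilityTheory
open scoped BigOperators ComplexConjugate

namespace H69.DT

open Pool.Agent.Results.MP_634cec_lc.LinearDegree

private lemma OvlB_sum {G : Type} [Group G] {L n : ℕ}
    (ρ : ∀ _ : Fin L, G →* Matrix.unitaryGroup (Fin 1) ℂ) (h : Fin n → G) :
    ∑ c : VIdx (fun _ : Fin L => 1), ‖∑ i, vv (d := fun _ : Fin L => 1) ρ c (h i)‖ ^ 2 =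
      ∑ k : Fin L, ‖∑ i, (ρ k (h i) : Matrix (Fin 1) (Fin 1) ℂ) 0 0‖ ^ 2 := by
  rw [Fintype.sum_sigma]
  refine Finset.sum_congr rfl fun k _ => ?_
  rw [Fintype.sum_prod_type]
  simp [vv]

theorem ovl_self {G : Type} [Group G] {L n : ℕ} (hn : 1 ≤ n)
    (ρ : ∀ _ : Fin L, G →* Matrix.unitaryGroup (Fin 1) ℂ) (lam : ℝ) (g : Fin n → G) :
    ∑ c, shift (d := fun _ : Fin L => 1) ρ lam g c ^ 2 = lam ^ 2 * n * L := by
  have h := shift_inner (d := fun _ : Fin L => 1) ρ lam g g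
  have h1 : ∑ c, shift (d := fun _ : Fin L => 1) ρ lam g c ^ 2 =
      ∑ c, shift (d := fun _ : Fin L => 1) ρ lam g c *
        shift (d := fun _ : Fin L => 1) ρ lam g c :=
    Finset.sum_congr rfl fun c _ => sq _
  rw [h1, h, OvlB_sum ρ (fun i => (g i)⁻¹ * g i)]
  have hn' : (n : ℝ) ≠ 0 := by
    have : (0 : ℝ) < n := by exact_mod_cast hn
    exact this.ne'
  simp
  field_simp

theorem ovl_mom {G : Type} [Group G] [TopologicalSpace G] [IsTopologicalGroup G] [CompactSpace G]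
    [MeasurableSpace G] [BorelSpace G] (μ : Measure G) [μ.IsHaarMeasure] [IsProbabilityMeasure μ]
    {L n : ℕ} (ρ : ∀ _ : Fin L, G →* Matrix.unitaryGroup (Fin 1) ℂ) (χ : G → ℂ)
    (hχ : ∀ k g, (ρ k g : Matrix (Fin 1) (Fin 1) ℂ) 0 0 = χ g ^ ((k : ℕ) + 1)) (lam : ℝ) (D : ℕ) :
    ∫ g, ∫ g', (∑ c, shift (d := fun _ : Fin L => 1) ρ lam g c *
        shift (d := fun _ : Fin L => 1) ρ lam g' c) ^ D
        ∂(Measure.pi fun _ : Fin n => μ) ∂(Measure.pi fun _ : Fin n => μ) =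
      ∫ h : Fin n → G, (lam ^ 2 / n * ∑ k : Fin L, ‖∑ i, χ (h i) ^ ((k : ℕ) + 1)‖ ^ 2) ^ D
        ∂(Measure.pi fun _ : Fin n => μ) := by
  rw [overlap_bound (d := fun _ : Fin L => 1) μ ρ lam D]
  refine integral_congr_ae (Filter.Eventually.of_forall fun h => ?_)
  show (lam ^ 2 / n * ∑ c : VIdx (fun _ : Fin L => 1),
    ‖∑ i, vv (d := fun _ : Fin L => 1) ρ c (h i)‖ ^ 2) ^ D = _
  rw [OvlB_sum ρ h]
  simp only [hχ]

end H69.DT
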