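import Pool.Agent.H69.DT.Mom3

/-!
# Module Reg1: the tilt for `lam` close to one

`β := 16 (1 - lam^2)` (`0 < β ≤ 1/11`), `b := β / L`, `p := 1 + b * XX χ L` (`|b X| ≤ β ≤ 1/11`, so `p ∈ [1/2, 3/2]`,
`|log p| ≤ 1 =: Λ`). `m := b * (L/2) = 8 (1 - lam^2)` (`∫ X = 0`, `∫ X^2 = L/2`).
`l := b^2 L/4 - b^3 (3 L (L-1)/8)/6 + b^4 (L^3/2)/3`: from `(1+y) log (1+y) ≤ y + y^2/2 - y^3/6 + y^4/3` for `|y| ≤ 1/2`
(multiply `log (1+y) ≤ y - y^2/2 + y^3/3` by `1 + y > 0`), `y = b X`, and the moments. `l < lam^2 m^2 / L`: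
`lam^2 m^2/L = lam^2 b^2 L/4`; the difference is `b^2 L (-(1 - lam^2)/4 + β (L-1)/(16 L) - β^2/6)` and `(L-1)/L ≥ 1/2`,
`β/32 - β^2/6 ≥ β (1/32 - 1/66) > β/64 = (1 - lam^2)/4`. `log (1+y) ≤ y - y^2/2 + y^3/3` for `y > -1`: derivative
of the difference is `y^3/(1+y)`; or `Real.abs_log_sub_add_sum_range_le`; only `|y| ≤ 1/11` is needed.
-/

set_option autoImplicit false

open MeasureTheory ProbabilityTheory
open scoped BigOperators

namespace H69.DT

private theorem reg1_log {y : ℝ} (hy : |y| ≤ 1 / 11) :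
    (1 + y) * Real.log (1 + y) ≤ y + y ^ 2 / 2 - y ^ 3 / 6 + y ^ 4 / 3 := by
  have hy' := abs_le.1 hy
  have h1 : |-y| < 1 := by rw [abs_neg]; linarith
  have h2 := Real.abs_log_sub_add_sum_range_le h1 4
  rw [abs_neg, sub_neg_eq_add] at h2
  have h3 := (abs_le.1 h2).2
  simp only [Finset.sum_range_succ, Finset.sum_range_zero] at h3
  norm_num at h3
  have hy0 : 0 ≤ |y| := abs_nonneg y
  have h4 : |y| ^ 5 / (1 - |y|) ≤ y ^ 4 / 10 := by
    rw [div_le_iff₀ (by linarith)]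
    have e : |y| ^ 5 = |y| * y ^ 4 := by
      rw [pow_succ, mul_comm, show |y| ^ 4 = y ^ 4 from by
        rw [← abs_pow, abs_of_nonneg (by positivity)]]
    rw [e]
    have hp : 0 ≤ y ^ 4 := by positivity
    nlinarith
  have h5 : Real.log (1 + y) ≤ y - y ^ 2 / 2 + y ^ 3 / 3 := by
    have hp : 0 ≤ y ^ 4 := by positivity
    have e3 : (-y) ^ 3 = -y ^ 3 := by ring
    have e4 : (-y) ^ 4 = y ^ 4 := by ring
    have e2 : (-y) ^ 2 = y ^ 2 := by ring
    linarith
  have h6 := mul_le_mul_of_nonneg_left h5 (show (0 : ℝ) ≤ 1 + y by linarith)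
  refine h6.trans (le_of_eq ?_)
  ring

private theorem reg1_num {q L : ℝ} (hq : 0 < q) (hq1 : 176 * q ≤ 1) (hL : 2 ≤ L) :
    (16 * q / L) ^ 2 * L / 4 - (16 * q / L) ^ 3 * (3 * (L * (L - 1)) / 8) / 6 +
      (16 * q / L) ^ 4 * (L ^ 3 / 2) / 3 < (1 - q) * (8 * q) ^ 2 / L := by
  have hL0 : 0 < L := by linarith
  have e : (16 * q / L) ^ 2 * L / 4 - (16 * q / L) ^ 3 * (3 * (L * (L - 1)) / 8) / 6 +
      (16 * q / L) ^ 4 * (L ^ 3 / 2) / 3 =
      (64 * q ^ 2 - 256 * q ^ 3 * ((L - 1) / L) + 65536 / 6 * q ^ 4) / L := by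
    field_simp
    ring
  rw [e]
  refine div_lt_div_of_pos_right ?_ hL0
  have h1 : 1 / 2 ≤ (L - 1) / L := by
    rw [div_le_div_iff₀ two_pos hL0]
    linarith
  have h3 : 0 < q ^ 3 := by positivity
  have h2 : 256 * q ^ 3 * (1 / 2) ≤ 256 * q ^ 3 * ((L - 1) / L) :=
    mul_le_mul_of_nonneg_left h1 (by positivity)
  have h4 : q ^ 4 = q * q ^ 3 := by ring
  rw [h4]
  nlinarith

private theorem reg1_int {G : Type} [MeasurableSpace G] {μ : Measure G} [IsProbabilityMeasure μ]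
    {f : G → ℝ} (hf : Measurable f) {C : ℝ} (hC : ∀ g, |f g| ≤ C) : Integrable f μ :=
  Integrable.of_bound hf.aestronglyMeasurable C
    (Filter.Eventually.of_forall fun g => by rw [Real.norm_eq_abs]; exact hC g)

theorem reg1 {L : ℕ} (hL : 2 ≤ L) {lam : ℝ} (h0 : 0 ≤ lam) (h1 : lam < 1)
    (h2 : 176 * (1 - lam ^ 2) ≤ 1) : ∃ l : ℝ,
      l < lam ^ 2 * (8 * (1 - lam ^ 2)) ^ 2 / L ∧ ∀ (G : Type) [MeasurableSpace G] (μ : Measure G)
        [IsProbabilityMeasure μ] (χ : G → ℂ), CharL μ χ L →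
        ∃ p, Tilt μ χ L (8 * (1 - lam ^ 2)) l 1 p := by
  obtain ⟨q, hq⟩ : ∃ q, q = 1 - lam ^ 2 := ⟨_, rfl⟩
  have hq0 : 0 < q := by rw [hq]; nlinarith
  have hlam : lam ^ 2 = 1 - q := by rw [hq]; ring
  rw [← hq] at h2 ⊢
  have hLr : (2 : ℝ) ≤ L := by exact_mod_cast hL
  have hL0 : (0 : ℝ) < L := by linarith
  obtain ⟨b, hb⟩ : ∃ b : ℝ, b = 16 * q / L := ⟨_, rfl⟩
  have hb0 : 0 < b := by rw [hb]; positivity
  refine ⟨b ^ 2 * L / 4 - b ^ 3 * (3 * (L * (L - 1)) / 8) / 6 + b ^ 4 * ((L : ℝ) ^ 3 / 2) / 3, ?_, ?_⟩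
  · rw [hlam, hb]
    exact reg1_num hq0 h2 hLr
  · intro G _ μ _ χ h
    have hm := meas_XX h
    have hX := abs_XX h
    have hbX : ∀ g, |b * XX χ L g| ≤ 1 / 11 := by
      intro g
      rw [abs_mul, abs_of_pos hb0]
      calc b * |XX χ L g| ≤ b * L := mul_le_mul_of_nonneg_left (hX g) hb0.le
        _ = 16 * q := by rw [hb]; field_simp
        _ ≤ 1 / 11 := by linarith
    have hi : ∀ j : ℕ, Integrable (fun g => XX χ L g ^ j) μ := fun j =>
      reg1_int (hm.pow_const j) (C := (L : ℝ) ^ j) fun g => by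
        rw [abs_pow]
        exact pow_le_pow_left₀ (abs_nonneg _) (hX g) j
    have hi1 : Integrable (fun g => XX χ L g) μ := reg1_int hm hX
    have hp0 : ∀ g, 0 < 1 + b * XX χ L g := fun g => by
      have := (abs_le.1 (hbX g)).1
      linarith
    refine ⟨fun g => 1 + b * XX χ L g, ?_, hp0, ?_, ?_, ?_, ?_⟩
    · exact measurable_const.add (hm.const_mul b)
    · intro g
      have h3 := abs_le.1 (hbX g)
      have h4 := Real.log_le_sub_one_of_pos (hp0 g)
      have h5 := Real.one_sub_inv_le_log_of_pos (hp0 g)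
      have h6 : (1 + b * XX χ L g)⁻¹ ≤ 2 := by
        rw [inv_le_comm₀ (hp0 g) two_pos]
        norm_num
        linarith
      rw [abs_le]
      constructor <;> linarith
    · rw [integral_add (integrable_const _) (hi1.const_mul b), integral_const_mul, mom1 h]
      simp
    · have e : ∀ g, XX χ L g * (1 + b * XX χ L g) = XX χ L g + b * XX χ L g ^ 2 := fun g => by ring
      simp only [e]
      rw [integral_add hi1 ((hi 2).const_mul b), integral_const_mul, mom1 h, mom2 h, hb]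
      field_simp
      ring
    · have h7 : ∫ g, (1 + b * XX χ L g) * Real.log (1 + b * XX χ L g) ∂μ ≤
          ∫ g, (b * XX χ L g + b ^ 2 / 2 * XX χ L g ^ 2 - b ^ 3 / 6 * XX χ L g ^ 3 +
            b ^ 4 / 3 * XX χ L g ^ 4) ∂μ := by
        refine integral_mono ?_ ((((hi1.const_mul b).add ((hi 2).const_mul _)).sub
          ((hi 3).const_mul _)).add ((hi 4).const_mul _)) fun g => ?_
        · refine reg1_int (((measurable_const.add (hm.const_mul b))).mul
            (Real.measurable_log.comp (measurable_const.add (hm.const_mul b)))) (C := 2) fun g => ?_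
          have h3 := abs_le.1 (hbX g)
          have h4 := Real.log_le_sub_one_of_pos (hp0 g)
          have h5 := Real.one_sub_inv_le_log_of_pos (hp0 g)
          have h6 : (1 + b * XX χ L g)⁻¹ ≤ 2 := by
            rw [inv_le_comm₀ (hp0 g) two_pos]
            norm_num
            linarith
          rw [abs_mul, abs_of_pos (hp0 g)]
          have h8 : |Real.log (1 + b * XX χ L g)| ≤ 1 := by
            rw [abs_le]
            constructor <;> linarith
          have h9 := hp0 g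
          nlinarith [abs_nonneg (Real.log (1 + b * XX χ L g))]
        · refine (reg1_log (hbX g)).trans (le_of_eq ?_)
          ring
      refine h7.trans ?_
      have i1 : Integrable (fun g => b * XX χ L g) μ := hi1.const_mul b
      have i2 : Integrable (fun g => b ^ 2 / 2 * XX χ L g ^ 2) μ := (hi 2).const_mul _
      have i3 : Integrable (fun g => b ^ 3 / 6 * XX χ L g ^ 3) μ := (hi 3).const_mul _
      have i4 : Integrable (fun g => b ^ 4 / 3 * XX χ L g ^ 4) μ := (hi 4).const_mul _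
      have i5 : Integrable (fun g => b * XX χ L g + b ^ 2 / 2 * XX χ L g ^ 2) μ := i1.add i2
      have i6 : Integrable (fun g => b * XX χ L g + b ^ 2 / 2 * XX χ L g ^ 2 -
        b ^ 3 / 6 * XX χ L g ^ 3) μ := i5.sub i3
      rw [integral_add i6 i4, integral_sub i5 i3, integral_add i1 i2,
        integral_const_mul, integral_const_mul, integral_const_mul, integral_const_mul, mom1 h, mom2 h]
      have h3 := mom3 h
      have h4 := mom4 h
      have h5 := mul_le_mul_of_nonneg_left h3 (show (0 : ℝ) ≤ b ^ 3 / 6 by positivity)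
      have h6 := mul_le_mul_of_nonneg_left h4 (show (0 : ℝ) ≤ b ^ 4 / 3 by positivity)
      linarith

end H69.DT
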