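import Pool.Agent.H69.DT.Defs

/-!
# Module Mom3: the first four moments of `X = Re (χ + .. + χ^L)`

`|χ| = 1`, so `Re χ^k = (χ^k + conj χ^k)/2` and a product of two or three of them is a sum of real parts of `χ^j` or
`conj χ^j` with `j ≥ 0` (`2 Re u Re v = Re (u v) + Re (u conj v)`; `χ^a * conj (χ^b) = χ^(a-b)` for `a ≥ b`).
Write `e j := (∫ χ^j).re` (`e 0 = 1`, `e j = 0` for `1 ≤ j ≤ 2L`, `e j ≥ 0`).
`∫ X = ∑ e k = 0`. `∫ Re χ^k Re χ^l = (e (k+l) + e |k-l|)/2 = (if k = l then 1/2 else 0)`: `∫ X^2 = L/2`.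
`∫ Re χ^a Re χ^b Re χ^c = (e (a+b+c) + e |a+b-c| + e |a-b+c| + e |b+c-a|)/4 ≥ ([a+b=c] + [a+c=b] + [b+c=a])/4`; the number of
`(a,b,c)` in `[1,L]^3` with `a + b = c` is `L(L-1)/2`, so `∫ X^3 ≥ 3 L (L-1)/8`.
`∫ X^4 ≤ L^2 ∫ X^2 = L^3/2` because `|X| ≤ L`.
-/

set_option autoImplicit false

open MeasureTheory ProbabilityTheory
open scoped BigOperators ComplexConjugate

namespace H69.DT

variable {G : Type} [MeasurableSpace G] {μ : Measure G} [IsProbabilityMeasure μ] {χ : G → ℂ} {L : ℕ}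

private lemma mom3_conj (z : ℂ) (hz : ‖z‖ = 1) (a b : ℕ) (hab : b ≤ a) :
    z ^ a * conj (z ^ b) = z ^ (a - b) := by
  have h1 : z ^ a = z ^ (a - b) * z ^ b := by rw [← pow_add, Nat.sub_add_cancel hab]
  have h2 : z ^ b * conj (z ^ b) = 1 := by
    rw [Complex.mul_conj, Complex.normSq_eq_norm_sq, norm_pow, hz]
    simp
  rw [h1, mul_assoc, h2, mul_one]

private lemma mom3_re (z : ℂ) (hz : ‖z‖ = 1) (a b : ℕ) :
    (z ^ a * conj (z ^ b)).re = (z ^ ((a - b) + (b - a))).re := by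
  rcases le_total b a with hab | hab
  · rw [mom3_conj z hz a b hab, Nat.sub_eq_zero_of_le hab, add_zero]
  · have h1 : z ^ a * conj (z ^ b) = conj (z ^ b * conj (z ^ a)) := by
      rw [map_mul, Complex.conj_conj, mul_comm]
    rw [h1, Complex.conj_re, mom3_conj z hz b a hab, Nat.sub_eq_zero_of_le hab, zero_add]

private lemma mom3_int (h : CharL μ χ L) (j : ℕ) : Integrable (fun g => χ g ^ j) μ := by
  refine Integrable.of_bound (h.meas.pow_const j).aestronglyMeasurable 1 ?_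
  exact ae_of_all _ fun g => by rw [norm_pow, h.norm g, one_pow]

private lemma mom3_reint (h : CharL μ χ L) (j : ℕ) : Integrable (fun g => (χ g ^ j).re) μ :=
  (mom3_int h j).re

private lemma mom3_eint (h : CharL μ χ L) (j : ℕ) :
    ∫ g, (χ g ^ j).re ∂μ = (∫ g, χ g ^ j ∂μ).re := by
  have h1 := integral_re (𝕜 := ℂ) (mom3_int h j)
  simpa using h1

private lemma mom3_pp (h : CharL μ χ L) (a b : ℕ) :
    ∫ g, (χ g ^ a * conj (χ g ^ b)).re ∂μ = (∫ g, χ g ^ ((a - b) + (b - a)) ∂μ).re := by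
  rw [← mom3_eint h]
  refine integral_congr_ae (ae_of_all _ fun g => ?_)
  exact mom3_re (χ g) (h.norm g) a b

private lemma mom3_ppint (h : CharL μ χ L) (a b : ℕ) :
    Integrable (fun g => (χ g ^ a * conj (χ g ^ b)).re) μ := by
  have h1 : (fun g => (χ g ^ a * conj (χ g ^ b)).re) = fun g => (χ g ^ ((a - b) + (b - a))).re := by
    funext g
    exact mom3_re (χ g) (h.norm g) a b
  rw [h1]
  exact (mom3_int h _).re

private lemma mom3_nonneg (h : CharL μ χ L) (a b : ℕ) :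
    0 ≤ ∫ g, (χ g ^ a * conj (χ g ^ b)).re ∂μ := by
  rw [mom3_pp h]
  exact h.nonneg _

private lemma mom3_ge (h : CharL μ χ L) (a b : ℕ) :
    (if a = b then (1 : ℝ) else 0) ≤ ∫ g, (χ g ^ a * conj (χ g ^ b)).re ∂μ := by
  split_ifs with hab
  · rw [mom3_pp h, hab]
    simp
  · exact mom3_nonneg h a b

private lemma mom3_eq (h : CharL μ χ L) (a b : ℕ) (h1 : a ≤ b + 2 * L) (h2 : b ≤ a + 2 * L) :
    ∫ g, (χ g ^ a * conj (χ g ^ b)).re ∂μ = if a = b then (1 : ℝ) else 0 := by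
  split_ifs with hab
  · rw [mom3_pp h, hab]
    simp
  · rw [mom3_pp h, h.zero _ (by omega) (by omega), Complex.zero_re]

private lemma mom3_two (z : ℂ) (a b : ℕ) :
    (z ^ a).re * (z ^ b).re =
      ((z ^ (a + b) * conj (z ^ 0)).re + (z ^ a * conj (z ^ b)).re) / 2 := by
  rw [pow_add, pow_zero, map_one, mul_one]
  simp only [Complex.mul_re, Complex.conj_re, Complex.conj_im]
  ring

private lemma mom3_three (z : ℂ) (a b c : ℕ) :
    (z ^ a).re * (z ^ b).re * (z ^ c).re =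
      ((z ^ (a + b + c) * conj (z ^ 0)).re + (z ^ (a + b) * conj (z ^ c)).re +
        (z ^ (a + c) * conj (z ^ b)).re + (z ^ (b + c) * conj (z ^ a)).re) / 4 := by
  rw [pow_add, pow_add, pow_add, pow_add, pow_zero, map_one, mul_one]
  simp only [Complex.mul_re, Complex.mul_im, Complex.conj_re, Complex.conj_im]
  ring

private lemma mom3_cnt1 (L c : ℕ) (hc : c < L) :
    ∑ a ∈ Finset.range L, ∑ b ∈ Finset.range L,
      (if a + 1 + (b + 1) = c + 1 then (1 : ℝ) else 0) = c := by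
  have h1 : ∀ a ∈ Finset.range L, ∑ b ∈ Finset.range L,
      (if a + 1 + (b + 1) = c + 1 then (1 : ℝ) else 0) =
      if a ∈ Finset.range c then (1 : ℝ) else 0 := by
    intro a _
    by_cases hac : a < c
    · rw [if_pos (Finset.mem_range.2 hac), Finset.sum_eq_single (c - 1 - a)]
      · rw [if_pos (by omega)]
      · intro b _ hb
        rw [if_neg (by omega)]
      · intro hb
        exact absurd (Finset.mem_range.2 (by omega)) hb
    · rw [if_neg (fun hh => hac (Finset.mem_range.1 hh))]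
      refine Finset.sum_eq_zero fun b _ => ?_
      rw [if_neg (by omega)]
  rw [Finset.sum_congr rfl h1, Finset.sum_ite_mem,
    Finset.inter_eq_right.2 (Finset.range_subset_range.2 hc.le)]
  simp

private lemma mom3_gauss (L : ℕ) : ∑ c ∈ Finset.range L, (c : ℝ) = (L : ℝ) * (L - 1) / 2 := by
  induction L with
  | zero => simp
  | succ n ih =>
    rw [Finset.sum_range_succ, ih]
    push_cast
    ring

private lemma mom3_cnt (L : ℕ) :
    ∑ a : Fin L, ∑ b : Fin L, ∑ c : Fin L,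
      (if (a : ℕ) + 1 + ((b : ℕ) + 1) = (c : ℕ) + 1 then (1 : ℝ) else 0) =
      (L : ℝ) * (L - 1) / 2 := by
  have h1 : ∑ a : Fin L, ∑ b : Fin L, ∑ c : Fin L,
      (if (a : ℕ) + 1 + ((b : ℕ) + 1) = (c : ℕ) + 1 then (1 : ℝ) else 0) =
      ∑ c : Fin L, ∑ a : Fin L, ∑ b : Fin L,
      (if (a : ℕ) + 1 + ((b : ℕ) + 1) = (c : ℕ) + 1 then (1 : ℝ) else 0) := by
    have h2 : ∀ a : Fin L, ∑ b : Fin L, ∑ c : Fin L,
        (if (a : ℕ) + 1 + ((b : ℕ) + 1) = (c : ℕ) + 1 then (1 : ℝ) else 0) =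
        ∑ c : Fin L, ∑ b : Fin L,
        (if (a : ℕ) + 1 + ((b : ℕ) + 1) = (c : ℕ) + 1 then (1 : ℝ) else 0) :=
      fun a => Finset.sum_comm
    rw [Finset.sum_congr rfl fun a _ => h2 a]
    exact Finset.sum_comm
  rw [h1]
  have h3 : ∀ c : Fin L, ∑ a : Fin L, ∑ b : Fin L,
      (if (a : ℕ) + 1 + ((b : ℕ) + 1) = (c : ℕ) + 1 then (1 : ℝ) else 0) = ((c : ℕ) : ℝ) := by
    intro c
    rw [← mom3_cnt1 L c c.2, Finset.sum_range]
    refine Finset.sum_congr rfl fun a _ => ?_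
    rw [Finset.sum_range]
  rw [Finset.sum_congr rfl fun c _ => h3 c, ← Finset.sum_range (fun c => (c : ℝ)), mom3_gauss]

private lemma mom3_cube {ι : Type} [Fintype ι] (f : ι → ℝ) :
    (∑ a, f a) ^ 3 = ∑ a, ∑ b, ∑ c, f a * f b * f c := by
  rw [pow_succ, pow_two, Finset.sum_mul_sum]
  simp only [Finset.sum_mul]
  simp only [Finset.mul_sum]

omit [IsProbabilityMeasure μ] in
private lemma mom3_int4 {f1 f2 f3 f4 : G → ℝ} (h1 : Integrable f1 μ) (h2 : Integrable f2 μ)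
    (h3 : Integrable f3 μ) (h4 : Integrable f4 μ) :
    ∫ g, (f1 g + f2 g + f3 g + f4 g) / 4 ∂μ =
      (∫ g, f1 g ∂μ + ∫ g, f2 g ∂μ + ∫ g, f3 g ∂μ + ∫ g, f4 g ∂μ) / 4 := by
  have h12 : Integrable (fun g => f1 g + f2 g) μ := h1.add h2
  have h123 : Integrable (fun g => f1 g + f2 g + f3 g) μ := h12.add h3
  rw [integral_div, integral_add h123 h4, integral_add h12 h3, integral_add h1 h2]

omit [IsProbabilityMeasure μ] in
private lemma mom3_pint [IsFiniteMeasure μ] (hm : Measurable (XX χ L))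
    (hb : ∀ g, |XX χ L g| ≤ L) (n : ℕ) : Integrable (fun g => XX χ L g ^ n) μ := by
  refine Integrable.of_bound (hm.pow_const n).aestronglyMeasurable ((L : ℝ) ^ n) ?_
  refine ae_of_all _ fun g => ?_
  rw [norm_pow, Real.norm_eq_abs]
  exact pow_le_pow_left₀ (abs_nonneg _) (hb g) n

omit [IsProbabilityMeasure μ] in
theorem meas_XX (h : CharL μ χ L) : Measurable (XX χ L) := by
  unfold XX
  exact Finset.measurable_sum _ fun k _ =>
    Complex.measurable_re.comp (h.meas.pow_const _)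

omit [IsProbabilityMeasure μ] in
theorem abs_XX (h : CharL μ χ L) (g : G) : |XX χ L g| ≤ L := by
  unfold XX
  refine (Finset.abs_sum_le_sum_abs _ _).trans ?_
  have h1 : ∀ k ∈ (Finset.univ : Finset (Fin L)), |(χ g ^ ((k : ℕ) + 1)).re| ≤ (1 : ℝ) := by
    intro k _
    refine (Complex.abs_re_le_norm _).trans ?_
    rw [norm_pow, h.norm g, one_pow]
  refine (Finset.sum_le_sum h1).trans ?_
  simp

theorem mom1 (h : CharL μ χ L) : ∫ g, XX χ L g ∂μ = 0 := by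
  unfold XX
  rw [integral_finsetSum _ fun k _ => mom3_reint h _]
  refine Finset.sum_eq_zero fun k _ => ?_
  have h1 := mom3_eint h ((k : ℕ) + 1)
  rw [h.zero _ (by omega) (by omega), Complex.zero_re] at h1
  exact h1

theorem mom2 (h : CharL μ χ L) : ∫ g, XX χ L g ^ 2 ∂μ = L / 2 := by
  have h1 : ∀ g, XX χ L g ^ 2 = ∑ a : Fin L, ∑ b : Fin L,
      ((χ g ^ (((a : ℕ) + 1) + ((b : ℕ) + 1)) * conj (χ g ^ 0)).re +
        (χ g ^ ((a : ℕ) + 1) * conj (χ g ^ ((b : ℕ) + 1))).re) / 2 := by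
    intro g
    unfold XX
    rw [pow_two, Finset.sum_mul_sum]
    exact Finset.sum_congr rfl fun a _ => Finset.sum_congr rfl fun b _ => mom3_two (χ g) _ _
  have hi : ∀ a b : Fin L, Integrable (fun g =>
      ((χ g ^ (((a : ℕ) + 1) + ((b : ℕ) + 1)) * conj (χ g ^ 0)).re +
        (χ g ^ ((a : ℕ) + 1) * conj (χ g ^ ((b : ℕ) + 1))).re) / 2) μ := fun a b =>
    ((mom3_ppint h _ _).add (mom3_ppint h _ _)).div_const 2
  rw [integral_congr_ae (ae_of_all _ h1),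
    integral_finsetSum _ fun a _ => integrable_finsetSum _ fun b _ => hi a b]
  have h2 : ∀ a : Fin L, ∫ g, ∑ b : Fin L,
      ((χ g ^ (((a : ℕ) + 1) + ((b : ℕ) + 1)) * conj (χ g ^ 0)).re +
        (χ g ^ ((a : ℕ) + 1) * conj (χ g ^ ((b : ℕ) + 1))).re) / 2 ∂μ = 1 / 2 := by
    intro a
    rw [integral_finsetSum _ fun b _ => hi a b]
    have h3 : ∀ b : Fin L, ∫ g,
      ((χ g ^ (((a : ℕ) + 1) + ((b : ℕ) + 1)) * conj (χ g ^ 0)).re +
        (χ g ^ ((a : ℕ) + 1) * conj (χ g ^ ((b : ℕ) + 1))).re) / 2 ∂μ =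
        if b = a then (1 / 2 : ℝ) else 0 := by
      intro b
      have ha := a.2
      have hb := b.2
      rw [integral_div, integral_add (mom3_ppint h _ _) (mom3_ppint h _ _),
        mom3_eq h _ _ (by omega) (by omega), mom3_eq h _ _ (by omega) (by omega),
        if_neg (by omega)]
      by_cases hab : b = a
      · subst hab
        rw [if_pos rfl, if_pos rfl]
        norm_num
      · have hab' : ¬ ((a : ℕ) + 1 = (b : ℕ) + 1) := by
          intro hh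
          apply hab
          apply Fin.ext
          omega
        rw [if_neg hab', if_neg hab]
        norm_num
    rw [Finset.sum_congr rfl fun b _ => h3 b]
    simp
  rw [Finset.sum_congr rfl fun a _ => h2 a]
  simp only [Finset.sum_const, Finset.card_univ, Fintype.card_fin, nsmul_eq_mul]
  ring

theorem mom3 (h : CharL μ χ L) : 3 * (L * (L - 1) : ℝ) / 8 ≤ ∫ g, XX χ L g ^ 3 ∂μ := by
  have h1 : ∀ g, XX χ L g ^ 3 = ∑ a : Fin L, ∑ b : Fin L, ∑ c : Fin L,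
      ((χ g ^ (((a : ℕ) + 1) + ((b : ℕ) + 1) + ((c : ℕ) + 1)) * conj (χ g ^ 0)).re +
        (χ g ^ (((a : ℕ) + 1) + ((b : ℕ) + 1)) * conj (χ g ^ ((c : ℕ) + 1))).re +
        (χ g ^ (((a : ℕ) + 1) + ((c : ℕ) + 1)) * conj (χ g ^ ((b : ℕ) + 1))).re +
        (χ g ^ (((b : ℕ) + 1) + ((c : ℕ) + 1)) * conj (χ g ^ ((a : ℕ) + 1))).re) / 4 := by
    intro g
    unfold XX
    rw [mom3_cube]
    exact Finset.sum_congr rfl fun a _ => Finset.sum_congr rfl fun b _ =>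
      Finset.sum_congr rfl fun c _ => mom3_three (χ g) _ _ _
  have hi : ∀ a b c : Fin L, Integrable (fun g =>
      ((χ g ^ (((a : ℕ) + 1) + ((b : ℕ) + 1) + ((c : ℕ) + 1)) * conj (χ g ^ 0)).re +
        (χ g ^ (((a : ℕ) + 1) + ((b : ℕ) + 1)) * conj (χ g ^ ((c : ℕ) + 1))).re +
        (χ g ^ (((a : ℕ) + 1) + ((c : ℕ) + 1)) * conj (χ g ^ ((b : ℕ) + 1))).re +
        (χ g ^ (((b : ℕ) + 1) + ((c : ℕ) + 1)) * conj (χ g ^ ((a : ℕ) + 1))).re) / 4) μ :=
    fun a b c => ((((mom3_ppint h _ _).add (mom3_ppint h _ _)).add (mom3_ppint h _ _)).add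
      (mom3_ppint h _ _)).div_const 4
  rw [integral_congr_ae (ae_of_all _ h1),
    integral_finsetSum _ fun a _ => integrable_finsetSum _ fun b _ =>
      integrable_finsetSum _ fun c _ => hi a b c]
  have h2 : ∀ a b c : Fin L,
      ((if (a : ℕ) + 1 + ((b : ℕ) + 1) = (c : ℕ) + 1 then (1 : ℝ) else 0) +
        (if (a : ℕ) + 1 + ((c : ℕ) + 1) = (b : ℕ) + 1 then (1 : ℝ) else 0) +
        (if (b : ℕ) + 1 + ((c : ℕ) + 1) = (a : ℕ) + 1 then (1 : ℝ) else 0)) / 4 ≤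
      ∫ g, ((χ g ^ (((a : ℕ) + 1) + ((b : ℕ) + 1) + ((c : ℕ) + 1)) * conj (χ g ^ 0)).re +
        (χ g ^ (((a : ℕ) + 1) + ((b : ℕ) + 1)) * conj (χ g ^ ((c : ℕ) + 1))).re +
        (χ g ^ (((a : ℕ) + 1) + ((c : ℕ) + 1)) * conj (χ g ^ ((b : ℕ) + 1))).re +
        (χ g ^ (((b : ℕ) + 1) + ((c : ℕ) + 1)) * conj (χ g ^ ((a : ℕ) + 1))).re) / 4 ∂μ := by
    intro a b c
    rw [mom3_int4 (mom3_ppint h _ _) (mom3_ppint h _ _) (mom3_ppint h _ _) (mom3_ppint h _ _)]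
    have e0 := mom3_nonneg h (((a : ℕ) + 1) + ((b : ℕ) + 1) + ((c : ℕ) + 1)) 0
    have e1 := mom3_ge h (((a : ℕ) + 1) + ((b : ℕ) + 1)) ((c : ℕ) + 1)
    have e2 := mom3_ge h (((a : ℕ) + 1) + ((c : ℕ) + 1)) ((b : ℕ) + 1)
    have e3 := mom3_ge h (((b : ℕ) + 1) + ((c : ℕ) + 1)) ((a : ℕ) + 1)
    linarith
  have h3 : ∀ a : Fin L, ∑ b : Fin L, ∑ c : Fin L,
      ((if (a : ℕ) + 1 + ((b : ℕ) + 1) = (c : ℕ) + 1 then (1 : ℝ) else 0) +
        (if (a : ℕ) + 1 + ((c : ℕ) + 1) = (b : ℕ) + 1 then (1 : ℝ) else 0) +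
        (if (b : ℕ) + 1 + ((c : ℕ) + 1) = (a : ℕ) + 1 then (1 : ℝ) else 0)) / 4 ≤
      ∫ g, ∑ b : Fin L, ∑ c : Fin L,
      ((χ g ^ (((a : ℕ) + 1) + ((b : ℕ) + 1) + ((c : ℕ) + 1)) * conj (χ g ^ 0)).re +
        (χ g ^ (((a : ℕ) + 1) + ((b : ℕ) + 1)) * conj (χ g ^ ((c : ℕ) + 1))).re +
        (χ g ^ (((a : ℕ) + 1) + ((c : ℕ) + 1)) * conj (χ g ^ ((b : ℕ) + 1))).re +
        (χ g ^ (((b : ℕ) + 1) + ((c : ℕ) + 1)) * conj (χ g ^ ((a : ℕ) + 1))).re) / 4 ∂μ := by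
    intro a
    rw [integral_finsetSum _ fun b _ => integrable_finsetSum _ fun c _ => hi a b c]
    refine Finset.sum_le_sum fun b _ => ?_
    rw [integral_finsetSum _ fun c _ => hi a b c]
    exact Finset.sum_le_sum fun c _ => h2 a b c
  refine le_trans ?_ (Finset.sum_le_sum fun a _ => h3 a)
  have c1 := mom3_cnt L
  have c2 : ∑ a : Fin L, ∑ b : Fin L, ∑ c : Fin L,
      (if (a : ℕ) + 1 + ((c : ℕ) + 1) = (b : ℕ) + 1 then (1 : ℝ) else 0) =
      (L : ℝ) * (L - 1) / 2 := by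
    rw [← c1]
    exact Finset.sum_congr rfl fun a _ => Finset.sum_comm
  have c3 : ∑ a : Fin L, ∑ b : Fin L, ∑ c : Fin L,
      (if (b : ℕ) + 1 + ((c : ℕ) + 1) = (a : ℕ) + 1 then (1 : ℝ) else 0) =
      (L : ℝ) * (L - 1) / 2 := by
    rw [← c2]
    exact Finset.sum_comm
  simp only [← Finset.sum_div, Finset.sum_add_distrib]
  rw [c1, c2, c3]
  apply le_of_eq
  ring

theorem mom4 (h : CharL μ χ L) : ∫ g, XX χ L g ^ 4 ∂μ ≤ (L : ℝ) ^ 3 / 2 := by
  have h1 : ∫ g, XX χ L g ^ 4 ∂μ ≤ ∫ g, (L : ℝ) ^ 2 * XX χ L g ^ 2 ∂μ := by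
    refine integral_mono (mom3_pint (meas_XX h) (abs_XX h) 4)
      ((mom3_pint (meas_XX h) (abs_XX h) 2).const_mul _) fun g => ?_
    have h2 : XX χ L g ^ 2 ≤ (L : ℝ) ^ 2 := by
      rw [← sq_abs]
      exact pow_le_pow_left₀ (abs_nonneg _) (abs_XX h g) 2
    have h3 : 0 ≤ XX χ L g ^ 2 := sq_nonneg _
    have h4 : XX χ L g ^ 4 = XX χ L g ^ 2 * XX χ L g ^ 2 := by ring
    simp only [h4]
    exact mul_le_mul_of_nonneg_right h2 h3
  rw [integral_const_mul, mom2 h] at h1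
  refine h1.trans (le_of_eq ?_)
  ring

end H69.DT
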