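import Pool.Agent.H69.DT.Fej
import Pool.Agent.H69.DT.Mom3

/-!
# Module Reg2: the tilt for all `lam ≥ lam0` and many frequencies

`t := 160 / lam0^4` (`lam0 < 1` may be assumed, otherwise there is no `lam`; so `t ≥ 160`), `L0 := ⌈2 t⌉₊`, `w := t / L ≤ 1/2`,
`p := 1 - w + w * FK χ L`, `m := w * (L/2) = t/2`, `p ≥ 1/2`, `p ≤ 1 + w (L+1) ≤ 1 + 2t`, so `|log p| ≤ 1 + log (1 + 2t) =: Λ`.
`l := (t/L) (1 + log (1 + 2t))`: `p log p ≤ (1 + w F) log (1 + w F)` (`x log x` increasing for `x ≥ 1/e`:
`Real.self_mul_log`-type monotonicity, or: for `p ≤ 1` the left side is `≤ 0 ≤` right side, for `p > 1` both factors increase)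
`≤ w F + w F log (1 + 2t)`, integrate with `∫ F = 1`. `l < lam^2 m^2/L = lam^2 t^2/(4L)` iff `4 (1 + log (1+2t)) < lam^2 t`:
`log (1 + 2t) ≤ 2 (√(1+2t) - 1)` or `log x = 2 log √x ≤ 2 √x - 2`, `√(1 + 2t) ≤ 1 + √(2t)`, `√(2t) = √320/lam0^2 ≤ 17.9/lam0^2`,
so `4 (1 + log) ≤ 4 + 144/lam0^2 < 160/lam0^2` when `lam0 ≤ 1`. `M := t^2/4`.
-/

set_option autoImplicit false

open MeasureTheory ProbabilityTheory
open scoped BigOperators

namespace H69.DT

private theorem reg2_num {a : ℝ} (ha : 0 < a) (ha1 : a ≤ 1) :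
    4 * (1 + Real.log (1 + 2 * (160 / a ^ 2))) < 160 / a := by
  have hy : (0 : ℝ) ≤ 17.9 / a := by positivity
  have h1 : 1 + 2 * (160 / a ^ 2) ≤ (1 + 17.9 / a) ^ 2 := by
    have e : (17.9 / a) ^ 2 = 320.41 / a ^ 2 := by rw [div_pow]; norm_num
    have e2 : 2 * (160 / a ^ 2) ≤ 320.41 / a ^ 2 := by
      rw [← mul_div_assoc]
      exact div_le_div_of_nonneg_right (by norm_num) (by positivity)
    nlinarith
  have h2 : Real.log (1 + 2 * (160 / a ^ 2)) ≤ 2 * (17.9 / a) := by
    have h3 : Real.log (1 + 2 * (160 / a ^ 2)) ≤ Real.log ((1 + 17.9 / a) ^ 2) :=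
      Real.log_le_log (by positivity) h1
    rw [Real.log_pow] at h3
    have h4 : Real.log (1 + 17.9 / a) ≤ 1 + 17.9 / a - 1 :=
      Real.log_le_sub_one_of_pos (by linarith)
    push_cast at h3
    linarith
  have h3 : (4 : ℝ) ≤ 4 / a := by
    rw [le_div_iff₀ ha]
    linarith
  have e3 : 8 * (17.9 / a) = 143.2 / a := by ring
  have e4 : 160 / a = 143.2 / a + 4 / a + 12.8 / a := by ring
  have h5 : 0 < 12.8 / a := by positivity
  linarith

private theorem reg2_int {G : Type} [MeasurableSpace G] {μ : Measure G} [IsProbabilityMeasure μ]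
    {f : G → ℝ} (hf : Measurable f) {C : ℝ} (hC : ∀ g, |f g| ≤ C) : Integrable f μ :=
  Integrable.of_bound hf.aestronglyMeasurable C
    (Filter.Eventually.of_forall fun g => by rw [Real.norm_eq_abs]; exact hC g)

private theorem reg2_main {t : ℝ} (ht : 1 ≤ t) {L : ℕ} (hL : 2 * t ≤ L)
    (G : Type) [MeasurableSpace G] (μ : Measure G) [IsProbabilityMeasure μ] (χ : G → ℂ)
    (h : CharL μ χ L) : ∃ p, Tilt μ χ L (t / 2) (t / L * (1 + Real.log (1 + 2 * t)))
      (1 + Real.log (1 + 2 * t)) p := by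
  have hL0 : (0 : ℝ) < L := by linarith
  set w : ℝ := t / L with hw
  have hw0 : 0 < w := by positivity
  have hw1 : w ≤ 1 / 2 := by
    rw [hw, div_le_iff₀ hL0]
    linarith
  have hwL : w * L = t := by rw [hw]; field_simp
  have hlog0 : 0 ≤ Real.log (1 + 2 * t) := Real.log_nonneg (by linarith)
  have hF0 : ∀ g, 0 ≤ FK χ L g := fun g => FK_nonneg g
  have hF1 : ∀ g, FK χ L g ≤ L + 1 := fun g => FK_le h g
  have hs : ∀ g, 1 + w * FK χ L g ≤ 1 + 2 * t := by
    intro g
    have h1 : w * FK χ L g ≤ w * (L + 1) := mul_le_mul_of_nonneg_left (hF1 g) hw0.le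
    have h2 : w * ((L : ℝ) + 1) = t + w := by rw [mul_add, hwL, mul_one]
    linarith
  have hwF : ∀ g, 0 ≤ w * FK χ L g := fun g => mul_nonneg hw0.le (hF0 g)
  have hp : ∀ g, 1 / 2 ≤ 1 - w + w * FK χ L g := fun g => by
    have := hwF g
    linarith
  have hmF := meas_FK h
  have hmX := meas_XX h
  have iF : Integrable (FK χ L) μ := reg2_int hmF (C := L + 1) fun g => by
    rw [abs_of_nonneg (hF0 g)]; exact hF1 g
  have iX : Integrable (XX χ L) μ := reg2_int hmX (abs_XX h)
  have iXF : Integrable (fun g => XX χ L g * FK χ L g) μ :=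
    reg2_int (hmX.mul hmF) (C := L * (L + 1)) fun g => by
      rw [abs_mul, abs_of_nonneg (hF0 g)]
      exact mul_le_mul (abs_XX h g) (hF1 g) (hF0 g) hL0.le
  refine ⟨fun g => 1 - w + w * FK χ L g, ?_, ?_, ?_, ?_, ?_, ?_⟩
  · exact measurable_const.add (hmF.const_mul w)
  · intro g
    have := hp g
    linarith
  · intro g
    rw [abs_le]
    have h1 := hp g
    constructor
    · have h2 : Real.log (1 / 2) ≤ Real.log (1 - w + w * FK χ L g) :=
        Real.log_le_log (by norm_num) h1
      have h3 : Real.log (1 / 2) = -Real.log 2 := by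
        rw [one_div, Real.log_inv]
      have h4 : Real.log 2 ≤ 2 - 1 := Real.log_le_sub_one_of_pos (by norm_num)
      linarith
    · have h2 : Real.log (1 - w + w * FK χ L g) ≤ Real.log (1 + 2 * t) :=
        Real.log_le_log (by linarith) (by have := hs g; linarith)
      linarith
  · rw [integral_add (integrable_const _) (iF.const_mul w), integral_const_mul, int_FK h,
      integral_const]
    simp
  · have e : ∀ g, XX χ L g * (1 - w + w * FK χ L g) =
        (1 - w) * XX χ L g + w * (XX χ L g * FK χ L g) := fun g => by ring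
    rw [integral_congr_ae (Filter.Eventually.of_forall e),
      integral_add (iX.const_mul _) (iXF.const_mul _), integral_const_mul, integral_const_mul,
      mom1 h, int_XX_FK h, mul_zero, zero_add, ← mul_div_assoc, hwL]
  · have hpt : ∀ g, (1 - w + w * FK χ L g) * Real.log (1 - w + w * FK χ L g) ≤
        (w * (1 + Real.log (1 + 2 * t))) * FK χ L g := by
      intro g
      have h1 := hp g
      have h2 := hwF g
      have h0 : 0 ≤ (w * (1 + Real.log (1 + 2 * t))) * FK χ L g :=
        mul_nonneg (by positivity) (hF0 g)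
      rcases le_or_gt (1 - w + w * FK χ L g) 1 with h3 | h3
      · have h4 : Real.log (1 - w + w * FK χ L g) ≤ 0 := Real.log_nonpos (by linarith) h3
        have h5 := mul_nonpos_of_nonneg_of_nonpos (by linarith : 0 ≤ 1 - w + w * FK χ L g) h4
        linarith
      · have h4 : Real.log (1 - w + w * FK χ L g) ≤ Real.log (1 + w * FK χ L g) :=
          Real.log_le_log (by linarith) (by linarith)
        have h5 : 0 ≤ Real.log (1 - w + w * FK χ L g) := Real.log_nonneg h3.le
        have h6 : (1 - w + w * FK χ L g) * Real.log (1 - w + w * FK χ L g) ≤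
            (1 + w * FK χ L g) * Real.log (1 + w * FK χ L g) :=
          mul_le_mul (by linarith) h4 h5 (by linarith)
        have h7 : Real.log (1 + w * FK χ L g) ≤ 1 + w * FK χ L g - 1 :=
          Real.log_le_sub_one_of_pos (by linarith)
        have h8 : Real.log (1 + w * FK χ L g) ≤ Real.log (1 + 2 * t) :=
          Real.log_le_log (by linarith) (hs g)
        have h9 : w * FK χ L g * Real.log (1 + w * FK χ L g) ≤
            w * FK χ L g * Real.log (1 + 2 * t) := mul_le_mul_of_nonneg_left h8 h2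
        calc _ ≤ _ := h6
          _ = Real.log (1 + w * FK χ L g) + w * FK χ L g * Real.log (1 + w * FK χ L g) := by ring
          _ ≤ w * FK χ L g + w * FK χ L g * Real.log (1 + 2 * t) := by linarith
          _ = _ := by ring
    have iL : Integrable (fun g => (1 - w + w * FK χ L g) *
        Real.log (1 - w + w * FK χ L g)) μ := by
      have hm : Measurable fun g => 1 - w + w * FK χ L g := measurable_const.add (hmF.const_mul w)
      refine reg2_int (hm.mul (Real.measurable_log.comp hm))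
        (C := (1 + 2 * t) * (1 + Real.log (1 + 2 * t))) fun g => ?_
      have h1 := hp g
      rw [abs_mul, abs_of_nonneg (by linarith : 0 ≤ 1 - w + w * FK χ L g)]
      refine mul_le_mul (by have := hs g; linarith) ?_ (abs_nonneg _) (by linarith)
      rw [abs_le]
      constructor
      · have h2 : Real.log (1 / 2) ≤ Real.log (1 - w + w * FK χ L g) :=
          Real.log_le_log (by norm_num) h1
        have h3 : Real.log (1 / 2) = -Real.log 2 := by
          rw [one_div, Real.log_inv]
        have h4 : Real.log 2 ≤ 2 - 1 := Real.log_le_sub_one_of_pos (by norm_num)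
        linarith
      · have h2 : Real.log (1 - w + w * FK χ L g) ≤ Real.log (1 + 2 * t) :=
          Real.log_le_log (by linarith) (by have := hs g; linarith)
        linarith
    calc ∫ g, (1 - w + w * FK χ L g) * Real.log (1 - w + w * FK χ L g) ∂μ
        ≤ ∫ g, (w * (1 + Real.log (1 + 2 * t))) * FK χ L g ∂μ :=
          integral_mono iL (iF.const_mul _) hpt
      _ = w * (1 + Real.log (1 + 2 * t)) := by rw [integral_const_mul, int_FK h, mul_one]

theorem reg2 {lam0 : ℝ} (h0 : 0 < lam0) : ∃ (L0 : ℕ) (m : ℝ), 1 ≤ L0 ∧ 0 < m ∧ ∀ L ≥ L0, ∀ lam : ℝ,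
    lam0 ≤ lam → lam < 1 → ∃ l Λ : ℝ, l < lam ^ 2 * m ^ 2 / L ∧
      ∀ (G : Type) [MeasurableSpace G] (μ : Measure G) [IsProbabilityMeasure μ] (χ : G → ℂ),
        CharL μ χ L → ∃ p, Tilt μ χ L m l Λ p := by
  rcases le_or_gt 1 lam0 with h1 | h1
  · exact ⟨1, 1, le_rfl, one_pos, fun L _ lam hl hl1 => absurd (h1.trans hl) (not_le.2 hl1)⟩
  · set a : ℝ := lam0 ^ 2 with ha
    have ha0 : 0 < a := by positivity
    have ha1 : a ≤ 1 := by rw [ha]; exact pow_le_one₀ h0.le h1.le
    set t : ℝ := 160 / a ^ 2 with ht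
    have ht1 : 1 ≤ t := by
      rw [ht, le_div_iff₀ (by positivity)]
      have : a ^ 2 ≤ 1 := pow_le_one₀ ha0.le ha1
      linarith
    have hnum := reg2_num ha0 ha1
    refine ⟨⌈2 * t⌉₊, t / 2, Nat.one_le_iff_ne_zero.2 ?_, by linarith, fun L hL lam hl _ => ?_⟩
    · have : 0 < ⌈2 * t⌉₊ := Nat.ceil_pos.2 (by linarith)
      omega
    · have hL2 : 2 * t ≤ L := (Nat.le_ceil _).trans (by exact_mod_cast hL)
      have hL0 : (0 : ℝ) < L := by linarith
      refine ⟨t / L * (1 + Real.log (1 + 2 * t)), 1 + Real.log (1 + 2 * t), ?_,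
        fun G _ μ _ χ h => reg2_main ht1 hL2 G μ χ h⟩
      have h2 : a ≤ lam ^ 2 := by rw [ha]; exact pow_le_pow_left₀ h0.le hl 2
      have h3 : a * t = 160 / a := by rw [ht]; field_simp
      have h4 : 4 * (1 + Real.log (1 + 2 * t)) < lam ^ 2 * t := by
        have : a * t ≤ lam ^ 2 * t := mul_le_mul_of_nonneg_right h2 (by linarith)
        linarith
      have h5 : lam ^ 2 * (t / 2) ^ 2 / L = t / L * (lam ^ 2 * t / 4) := by ring
      rw [h5]
      apply mul_lt_mul_of_pos_left _ (by positivity)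
      linarith

end H69.DT
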