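import Pool.Agent.H69.DT.First

/-!
# Module Second: the second moment of the averaged heat polynomial

`f := av P s (hq v D) : MvPolynomial σ ℝ`, `f.totalDegree ≤ D`, `eval z f = ∫ ω, (hq v D).eval (∑ c, s ω c * z c)` (`eval_av`).
`Pool.Agent.H28.GaussLowDeg.integral_eval_shift` (`stdG = gam` by definition) and `heat_first` give for all `x`
`∑ α ∈ Box, cf f α * ∏ x^α = ∫ ω, (∑ c, s ω c * x c)^D = ∑ α ∈ univ.piAntidiag D, multinomial α * mom α * ∏ x^α`,
`mom α := ∫ ω, ∏ c, s ω c ^ α c`, `Box = piFinset (range (D+1))`. Compare coefficients (`MvPolynomial.funext`, polynomials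
`∑ α, monomial (Finsupp.equivFunOnFinite.symm α) (..)`): `cf f α = multinomial α * mom α` if `∑ α = D`, else `0`, for `α ∈ Box`.
`integral_eval_sq`: `∫ f^2 = ∑ α ∈ Box, (∏ (α i)!) (cf f α)^2 = ∑_(|α| = D) D! * multinomial α * (mom α)^2`
(`Nat.multinomial_spec`) and `pow_sum_integral`.
-/

set_option autoImplicit false

open MeasureTheory ProbabilityTheory
open scoped BigOperators

namespace H69.DT

open Pool.Agent.H70.SS (gam)

private lemma second_coeff {σ : Type*} [Fintype σ] [DecidableEq σ] (S T : Finset (σ → ℕ))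
    (g h : (σ → ℕ) → ℝ)
    (H : ∀ x : σ → ℝ, ∑ α ∈ S, g α * ∏ i, x i ^ α i = ∑ α ∈ T, h α * ∏ i, x i ^ α i)
    (β : σ → ℕ) : (if β ∈ S then g β else 0) = if β ∈ T then h β else 0 := by
  have key : ∀ (U : Finset (σ → ℕ)) (k : (σ → ℕ) → ℝ) (x : σ → ℝ),
      MvPolynomial.eval x (∑ α ∈ U, MvPolynomial.monomial (Finsupp.equivFunOnFinite.symm α) (k α)) =
        ∑ α ∈ U, k α * ∏ i, x i ^ α i := by
    intro U k x
    rw [map_sum]
    refine Finset.sum_congr rfl fun α _ => ?_
    rw [MvPolynomial.eval_monomial, Finsupp.prod_fintype _ _ (fun i => pow_zero _)]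
    rfl
  have hc : ∀ (U : Finset (σ → ℕ)) (k : (σ → ℕ) → ℝ),
      MvPolynomial.coeff (Finsupp.equivFunOnFinite.symm β)
        (∑ α ∈ U, MvPolynomial.monomial (Finsupp.equivFunOnFinite.symm α) (k α)) =
        if β ∈ U then k β else 0 := by
    intro U k
    rw [MvPolynomial.coeff_sum]
    simp only [MvPolynomial.coeff_monomial, EmbeddingLike.apply_eq_iff_eq]
    rw [Finset.sum_ite_eq' U β k]
  have hp : (∑ α ∈ S, MvPolynomial.monomial (Finsupp.equivFunOnFinite.symm α) (g α)) =
      (∑ α ∈ T, MvPolynomial.monomial (Finsupp.equivFunOnFinite.symm α) (h α) :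
        MvPolynomial σ ℝ) := by
    refine MvPolynomial.funext fun x => ?_
    rw [key, key, H]
  rw [← hc S g, ← hc T h, hp]

theorem heat_second {σ : Type*} [Fintype σ] {Ω : Type*} [MeasurableSpace Ω] (P : Measure Ω)
    [IsProbabilityMeasure P] {s : Ω → σ → ℝ} (hs : ∀ c, Measurable fun ω => s ω c) {B : ℝ}
    (hB : ∀ ω c, |s ω c| ≤ B) {v : ℝ} (hv : ∀ ω, ∑ c, s ω c ^ 2 = v) (D : ℕ) :
    ∫ z, (∫ ω, (hq v D).eval (∑ c, s ω c * z c) ∂P) ^ 2 ∂(gam σ) =
      (D.factorial : ℝ) * ∫ ω, ∫ ω', (∑ c, s ω c * s ω' c) ^ D ∂P ∂P := by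
  classical
  have hdeg : (av P s (hq v D)).totalDegree ≤ D :=
    (totalDegree_av P s (hq v D)).trans (natDegree_hq v D)
  have heval : ∀ z : σ → ℝ, ∫ ω, (hq v D).eval (∑ c, s ω c * z c) ∂P =
      MvPolynomial.eval z (av P s (hq v D)) := fun z => (eval_av P hs hB (hq v D) z).symm
  simp_rw [heval]
  have hsq := Pool.Agent.H28.GaussLowDeg.integral_eval_sq (av P s (hq v D)) D hdeg
  have hsh := fun x : σ → ℝ =>
    Pool.Agent.H28.GaussLowDeg.integral_eval_shift (av P s (hq v D)) D hdeg x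
  have hfirst := fun x : σ → ℝ => heat_first P hs hB hv D x
  have hmom : ∀ x : σ → ℝ, ∫ ω, (∑ c, s ω c * x c) ^ D ∂P =
      ∑ α ∈ (Finset.univ : Finset σ).piAntidiag D,
        ((Nat.multinomial Finset.univ α : ℝ) * ∫ ω, ∏ i, s ω i ^ α i ∂P) * ∏ i, x i ^ α i := by
    intro x
    have h1 : ∀ ω, (∑ c, s ω c * x c) ^ D = ∑ α ∈ (Finset.univ : Finset σ).piAntidiag D,
        ((Nat.multinomial Finset.univ α : ℝ) * ∏ i, x i ^ α i) * ∏ i, s ω i ^ α i := by
      intro ω
      rw [Finset.sum_pow_eq_sum_piAntidiag]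
      refine Finset.sum_congr rfl fun α _ => ?_
      rw [mul_assoc, ← Finset.prod_mul_distrib]
      congr 1
      exact Finset.prod_congr rfl fun i _ => by rw [mul_pow, mul_comm]
    simp_rw [h1]
    rw [integral_finsetSum]
    · refine Finset.sum_congr rfl fun α _ => ?_
      rw [integral_const_mul]
      ring
    · intro α _
      exact (Pool.Agent.H28.GaussLowDeg.integrable_mom P s hs B hB α).const_mul _
  have hH : ∀ x : σ → ℝ, ∑ α ∈ Fintype.piFinset (fun _ : σ => Finset.range (D + 1)),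
      Pool.Agent.H28.GaussLowDeg.cf (av P s (hq v D)) α * ∏ i, x i ^ α i =
      ∑ α ∈ (Finset.univ : Finset σ).piAntidiag D,
        ((Nat.multinomial Finset.univ α : ℝ) * ∫ ω, ∏ i, s ω i ^ α i ∂P) * ∏ i, x i ^ α i := by
    intro x
    rw [← hsh x, ← hmom x, ← hfirst x]
    refine integral_congr_ae (Filter.Eventually.of_forall fun z => ?_)
    change MvPolynomial.eval (x + z) (av P s (hq v D)) = _
    rw [← heval (x + z)]
    rfl
  have hcf := second_coeff _ _ _ _ hH
  change ∫ z, (MvPolynomial.eval z (av P s (hq v D))) ^ 2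
    ∂(Pool.Agent.H28.GaussLowDeg.stdG σ) = _
  rw [hsq, Pool.Agent.H28.GaussLowDeg.pow_sum_integral P s hs B hB D, Finset.mul_sum]
  have hsub : (Finset.univ : Finset σ).piAntidiag D ⊆
      Fintype.piFinset (fun _ : σ => Finset.range (D + 1)) := by
    intro α hα
    have hα' : ∑ i, α i = D := by simpa using hα
    rw [Fintype.mem_piFinset]
    intro i
    have : α i ≤ ∑ i, α i :=
      Finset.single_le_sum (f := α) (fun _ _ => Nat.zero_le _) (Finset.mem_univ i)
    rw [Finset.mem_range]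
    omega
  rw [← Finset.sum_subset hsub]
  · refine Finset.sum_congr rfl fun α hα => ?_
    have h1 := hcf α
    rw [if_pos (hsub hα), if_pos hα] at h1
    rw [h1]
    have hα' : ∑ i, α i = D := by simpa using hα
    have hspec := Nat.multinomial_spec Finset.univ α
    rw [hα'] at hspec
    have hspec' : (∏ i, ((α i).factorial : ℝ)) * (Nat.multinomial Finset.univ α : ℝ) =
        (D.factorial : ℝ) := by exact_mod_cast hspec
    rw [← hspec']
    ring
  · intro α hα hα2
    have h1 := hcf α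
    rw [if_pos hα, if_neg hα2] at h1
    rw [h1]
    ring

end H69.DT
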