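import Pool.Agent.H70.SS.Sig

/-!
# Module SymQ: the scalar product with the mean shift is a linear form in the data

`symm z c = (1/√(n d)) / 2 * (z(k,i,j,true) + z(k,j,i,true))` or `(.. z(k,i,j,false) - z(k,j,i,false))`
(`Pool/Agent/H70/SS/Defs.lean`); `√(n d) * (1/√(n d)) = 1` (`n, d > 0` if there is a coordinate). The shift is symmetric:
`shift (k,j,i,true) = shift (k,i,j,true)`, `shift (k,j,i,false) = - shift (k,i,j,false)` (`signal_conj` in
`Pool/Agent/H28/LinearDegreeModel.lean`). Split the sum over `Coord` (`Fintype.sum_sigma`, `sum_prod_type`, `sum_bool`) and swap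
`i`, `j` in one half.
-/

set_option autoImplicit false

open MeasureTheory ProbabilityTheory
open scoped BigOperators ComplexConjugate

namespace H69.DT

open Pool.Agent.Results.MP_634cec_lc.LinearDegree
open Pool.Agent.H70.SS (symm)

private def swp {L n : ℕ} {d : Fin L → ℕ} (c : Coord n d) : Coord n d :=
  ⟨c.1, c.2.2.1, c.2.1, c.2.2.2⟩

private theorem swp_swp {L n : ℕ} {d : Fin L → ℕ} : Function.Involutive (swp (n := n) (d := d)) := by
  rintro ⟨k, i, j, b⟩
  rfl

private theorem term_eq {G : Type} [Group G] {L n : ℕ} {d : Fin L → ℕ}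
    (ρ : ∀ k : Fin L, G →* Matrix.unitaryGroup (Fin (d k)) ℂ) (lam : ℝ) (g : Fin n → G)
    (z : Coord n d → ℝ) (c : Coord n d) :
    (Real.sqrt (n * d c.1) * shift ρ lam g c) * symm z c =
      (1 / 2) * (shift ρ lam g c * z c) + (1 / 2) * (shift ρ lam g (swp c) * z (swp c)) := by
  obtain ⟨k, i, j, b⟩ := c
  have hn : (0 : ℝ) < n := by
    have := i.1.pos
    exact_mod_cast this
  have hd : (0 : ℝ) < d k := by
    have := i.2.pos
    exact_mod_cast this
  have hs : 0 < Real.sqrt (n * d k) := Real.sqrt_pos.2 (mul_pos hn hd)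
  have h := signal_conj ρ g k i j
  cases b
  · simp only [Pool.Agent.H70.SS.symm, swp, shift, Bool.false_eq_true, if_false, h, Complex.conj_im]
    field_simp
    ring
  · simp only [Pool.Agent.H70.SS.symm, swp, shift, if_true, h, Complex.conj_re]
    field_simp

theorem sum_symm {G : Type} [Group G] {L n : ℕ} {d : Fin L → ℕ}
    (ρ : ∀ k : Fin L, G →* Matrix.unitaryGroup (Fin (d k)) ℂ) (lam : ℝ) (g : Fin n → G)
    (z : Coord n d → ℝ) :
    ∑ c, (Real.sqrt (n * d c.1) * shift ρ lam g c) * symm z c = ∑ c, shift ρ lam g c * z c := by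
  rw [Finset.sum_congr rfl fun c _ => term_eq ρ lam g z c, Finset.sum_add_distrib,
    ← Finset.mul_sum, ← Finset.mul_sum]
  have h := Equiv.sum_comp (swp_swp (n := n) (d := d)).toPerm (fun c => shift ρ lam g c * z c)
  simp only [Function.Involutive.coe_toPerm] at h
  rw [h]
  ring

end H69.DT
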