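import Pool.Agent.H69.DT.ClassQ
import Pool.Agent.H69.DT.Second
import Pool.Agent.H69.DT.Low
import Pool.Agent.H69.DT.CharI
import Pool.Agent.H69.DT.Reg1
import Pool.Agent.H69.DT.Reg2
import Pool.Agent.H69.DT.SymQ
import Pool.Agent.H69.DT.OvlB

/-!
# The low-degree threshold (MP_634cec): the upper bound (complete over the modules)
-/

set_option autoImplicit false

open MeasureTheory ProbabilityTheory
open scoped BigOperators

namespace H69.DT

open Pool.Agent.Results.MP_634cec_lc.LinearDegree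
open Pool.Agent.H47.LV
open Pool.Agent.H70.SS (gam symm data_symm measurable_symm null_eq)

/-- blocks of size one -/
abbrev one1 (L : ℕ) : Fin L → ℕ := fun _ => 1

/-- the values of the polynomial -/
lemma eval_pol {G : Type} [Group G] [TopologicalSpace G] [IsTopologicalGroup G] [CompactSpace G]
    [MeasurableSpace G] [BorelSpace G] (μ : Measure G) [μ.IsHaarMeasure] [IsProbabilityMeasure μ]
    {L n : ℕ} {d : Fin L → ℕ} {ρ : ∀ k : Fin L, G →* Matrix.unitaryGroup (Fin (d k)) ℂ}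
    (hρ : Admissible ρ) (lam : ℝ) (q : Polynomial ℝ) (z : Coord n d → ℝ) :
    MvPolynomial.eval (symm z) (av (Measure.pi fun _ : Fin n => μ)
        (fun g c => Real.sqrt (n * d c.1) * shift ρ lam g c) q) =
      ∫ g, q.eval (∑ c, shift ρ lam g c * z c) ∂(Measure.pi fun _ : Fin n => μ) := by
  rw [eval_av (Measure.pi fun _ : Fin n => μ)
    (a := fun g c => Real.sqrt (n * d c.1) * shift ρ lam g c)
    (fun c => (measurable_shift ρ hρ.1 lam c).const_mul _)
    (B := (∑ k, Real.sqrt (n * d k)) * ∑ k, |lam * Real.sqrt (d k / n)|) ?_]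
  · refine integral_congr_ae (ae_of_all _ fun g => ?_)
    show q.eval (∑ c, (Real.sqrt (n * d c.1) * shift ρ lam g c) * symm z c) = _
    rw [sum_symm]
  · intro g c
    show |Real.sqrt (n * d c.1) * shift ρ lam g c| ≤ _
    rw [abs_mul, abs_of_nonneg (Real.sqrt_nonneg _)]
    refine mul_le_mul ?_ (abs_shift_le ρ lam g c) (abs_nonneg _)
      (Finset.sum_nonneg fun _ _ => Real.sqrt_nonneg _)
    exact Finset.single_le_sum (f := fun k => Real.sqrt ((n : ℝ) * d k))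
      (fun _ _ => Real.sqrt_nonneg _) (Finset.mem_univ c.1)

theorem upper_core {L : ℕ} (hL : 1 ≤ L) {lam m l Λ : ℝ} (h0 : 0 < lam) (hm : 0 < m)
    (hl : l < lam ^ 2 * m ^ 2 / L)
    (ht : ∀ (G : Type) [MeasurableSpace G] (μ : Measure G) [IsProbabilityMeasure μ] (χ : G → ℂ),
      CharL μ χ L → ∃ p, Tilt μ χ L m l Λ p) :
    ∃ c : ℝ, 0 < c ∧ ∃ N : ℕ, ∀ n ≥ N, ∀ (G : Type) [Group G] [TopologicalSpace G]
      [IsTopologicalGroup G] [CompactSpace G] [MeasurableSpace G] [BorelSpace G] (μ : Measure G)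
      [μ.IsHaarMeasure] [IsProbabilityMeasure μ]
      (ρ : ∀ _ : Fin L, G →* Matrix.unitaryGroup (Fin 1) ℂ) (χ : G → ℂ),
      (∀ k g, (ρ k g : Matrix (Fin 1) (Fin 1) ℂ) 0 0 = χ g ^ ((k : ℕ) + 1)) →
      Admissible (d := one1 L) ρ → ∃ p : MvPolynomial (Coord n (one1 L)) ℝ,
        (p.totalDegree : ℝ) ≤ lam ^ 2 * m ^ 2 / L * n ∧
        0 < Var[fun ω => MvPolynomial.eval (data (d := one1 L) ρ 0 ω) p; law μ n (one1 L)] ∧
        Real.exp (c * n) *
            Var[fun ω => MvPolynomial.eval (data (d := one1 L) ρ 0 ω) p; law μ n (one1 L)] ≤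
          ((∫ ω, MvPolynomial.eval (data (d := one1 L) ρ lam ω) p ∂(law μ n (one1 L))) -
            ∫ ω, MvPolynomial.eval (data (d := one1 L) ρ 0 ω) p ∂(law μ n (one1 L))) ^ 2 := by
  obtain ⟨c, hc, N, hN⟩ := low hL h0 hm hl (Λ := Λ)
  refine ⟨c, hc, N, fun n hn G _ _ _ _ _ _ μ _ _ ρ χ hχ hρ => ?_⟩
  obtain ⟨D, hD1, hDn, hlow⟩ := hN n hn
  have hchar := charI μ hL ρ χ hχ hρ
  obtain ⟨p, hp⟩ := ht G μ χ hchar
  have hM := hlow G μ χ p hchar.meas hchar.norm hp
  have hn1 : 1 ≤ n := by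
    rcases Nat.eq_zero_or_pos n with h | h
    · subst h
      have h1 : (1 : ℝ) ≤ D := by exact_mod_cast hD1
      simp only [Nat.cast_zero, mul_zero] at hDn
      linarith
    · exact h
  have : IsProbabilityMeasure (law μ n (one1 L)) := by
    unfold law
    infer_instance
  set P := Measure.pi fun _ : Fin n => μ with hP
  set v : ℝ := lam ^ 2 * n * L with hv
  set q := hq v D with hqdef
  have hsm : ∀ c : Coord n (one1 L), Measurable fun g : Fin n → G =>
      shift (d := one1 L) ρ lam g c := fun c => measurable_shift ρ hρ.1 lam c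
  have hsb : ∀ (g : Fin n → G) (c : Coord n (one1 L)), |shift (d := one1 L) ρ lam g c| ≤
      ∑ k, |lam * Real.sqrt ((one1 L k : ℕ) / n)| := fun g c => abs_shift_le ρ lam g c
  have hself : ∀ g : Fin n → G, ∑ c, shift (d := one1 L) ρ lam g c ^ 2 = v := fun g =>
    ovl_self hn1 ρ lam g
  set pol : MvPolynomial (Coord n (one1 L)) ℝ := av P
    (fun g c => Real.sqrt (n * (one1 L c.1 : ℕ)) * shift (d := one1 L) ρ lam g c) q with hpol
  have hev : ∀ z : Coord n (one1 L) → ℝ, MvPolynomial.eval (symm z) pol =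
      ∫ g, q.eval (∑ c, shift (d := one1 L) ρ lam g c * z c) ∂P := fun z =>
    eval_pol μ hρ lam q z
  have hmem : MemLp (fun ω => MvPolynomial.eval (data (d := one1 L) ρ 0 ω) pol) 2
      (law μ n (one1 L)) := memLp_poly pol
  have hpm : Measurable fun y : Coord n (one1 L) → ℝ => MvPolynomial.eval y pol :=
    (MvPolynomial.continuous_eval _).measurable
  -- the three moments
  set MD : ℝ := ∫ h : Fin n → G, (lam ^ 2 / n * ∑ k : Fin L, ‖∑ i, χ (h i) ^ ((k : ℕ) + 1)‖ ^ 2) ^ D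
    ∂P with hMD
  have hmom : ∫ g, ∫ g', (∑ c, shift (d := one1 L) ρ lam g c *
      shift (d := one1 L) ρ lam g' c) ^ D ∂P ∂P = MD := ovl_mom μ ρ χ hχ lam D
  have e0 : ∫ ω, MvPolynomial.eval (data (d := one1 L) ρ 0 ω) pol ∂(law μ n (one1 L)) = 0 := by
    rw [null_eq μ ρ (fun y => MvPolynomial.eval y pol) (n := n)]
    simp_rw [hev]
    have h1 := heat_first P hsm hsb hself D (0 : Coord n (one1 L) → ℝ)
    simp only [Pi.zero_apply, zero_add, mul_zero, Finset.sum_const_zero] at h1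
    rw [h1, zero_pow (by omega)]
    simp
  have e2 : ∫ ω, MvPolynomial.eval (data (d := one1 L) ρ 0 ω) pol ^ 2 ∂(law μ n (one1 L)) =
      D.factorial * MD := by
    rw [null_eq μ ρ (fun y => MvPolynomial.eval y pol ^ 2) (n := n)]
    simp_rw [hev]
    rw [heat_second P hsm hsb hself D, hmom]
  have e1 : ∫ ω, MvPolynomial.eval (data (d := one1 L) ρ lam ω) pol ∂(law μ n (one1 L)) = MD := by
    have hfz : Measurable fun z : Coord n (one1 L) → ℝ => MvPolynomial.eval (symm z) pol :=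
      hpm.comp measurable_symm
    have hf2z := (memLp_null_iff μ ρ hpm).1 hmem
    have hint := integrable_shift (P := P) (measurable_pi_lambda _ hsm) hsb hfz hf2z
    simp_rw [data_symm]
    have h1 : ∫ ω, MvPolynomial.eval (symm (shift (d := one1 L) ρ lam ω.1 + ω.2)) pol
        ∂(law μ n (one1 L)) = ∫ g, ∫ z, MvPolynomial.eval (symm (shift (d := one1 L) ρ lam g + z)) pol
          ∂(gam (Coord n (one1 L))) ∂P := integral_prod _ hint
    rw [h1]
    have h2 : ∀ g : Fin n → G, ∫ z, MvPolynomial.eval (symm (shift (d := one1 L) ρ lam g + z)) pol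
        ∂(gam (Coord n (one1 L))) = ∫ g', (∑ c, shift (d := one1 L) ρ lam g c *
          shift (d := one1 L) ρ lam g' c) ^ D ∂P := by
      intro g
      simp_rw [hev]
      have h3 := heat_first P hsm hsb hself D (shift (d := one1 L) ρ lam g)
      simp only [Pi.add_apply]
      rw [h3]
      refine integral_congr_ae (ae_of_all _ fun g' => ?_)
      show (∑ c, _) ^ D = (∑ c, _) ^ D
      congr 1
      exact Finset.sum_congr rfl fun c _ => mul_comm _ _
    simp_rw [h2]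
    exact hmom
  have hvar : Var[fun ω => MvPolynomial.eval (data (d := one1 L) ρ 0 ω) pol; law μ n (one1 L)] =
      D.factorial * MD := by
    rw [variance_eq_sub hmem, e0]
    simp only [Pi.pow_apply]
    rw [e2]
    ring
  have hfac : (0 : ℝ) < D.factorial := by exact_mod_cast D.factorial_pos
  have hMpos : 0 < MD := lt_of_lt_of_le (by positivity) hM
  refine ⟨pol, ?_, ?_, ?_⟩
  · have h1 : pol.totalDegree ≤ D := (totalDegree_av P _ q).trans (natDegree_hq v D)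
    have h2 : (pol.totalDegree : ℝ) ≤ D := by exact_mod_cast h1
    exact h2.trans hDn
  · rw [hvar]
    positivity
  · rw [hvar, e1, e0, sub_zero]
    calc Real.exp (c * n) * (D.factorial * MD) = (Real.exp (c * n) * D.factorial) * MD := by ring
      _ ≤ MD * MD := mul_le_mul_of_nonneg_right hM hMpos.le
      _ = MD ^ 2 := by ring

/-- explicit constants for `lam` close to one -/
theorem upper_one {L : ℕ} (hL : 2 ≤ L) {lam : ℝ} (h0 : 0 ≤ lam) (h1 : lam < 1)
    (h2 : 176 * (1 - lam ^ 2) ≤ 1) :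
    ∃ c : ℝ, 0 < c ∧ ∃ N : ℕ, ∀ n ≥ N, ∀ (G : Type) [Group G] [TopologicalSpace G]
      [IsTopologicalGroup G] [CompactSpace G] [MeasurableSpace G] [BorelSpace G] (μ : Measure G)
      [μ.IsHaarMeasure] [IsProbabilityMeasure μ]
      (ρ : ∀ _ : Fin L, G →* Matrix.unitaryGroup (Fin 1) ℂ) (χ : G → ℂ),
      (∀ k g, (ρ k g : Matrix (Fin 1) (Fin 1) ℂ) 0 0 = χ g ^ ((k : ℕ) + 1)) →
      Admissible (d := one1 L) ρ → ∃ p : MvPolynomial (Coord n (one1 L)) ℝ,
        (p.totalDegree : ℝ) ≤ 64 * (1 - lam ^ 2) ^ 2 / L * n ∧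
        0 < Var[fun ω => MvPolynomial.eval (data (d := one1 L) ρ 0 ω) p; law μ n (one1 L)] ∧
        Real.exp (c * n) *
            Var[fun ω => MvPolynomial.eval (data (d := one1 L) ρ 0 ω) p; law μ n (one1 L)] ≤
          ((∫ ω, MvPolynomial.eval (data (d := one1 L) ρ lam ω) p ∂(law μ n (one1 L))) -
            ∫ ω, MvPolynomial.eval (data (d := one1 L) ρ 0 ω) p ∂(law μ n (one1 L))) ^ 2 := by
  have hl2 : 0 < 1 - lam ^ 2 := by nlinarith
  have hlam : 0 < lam := by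
    rcases h0.lt_or_eq with h | h
    · exact h
    · rw [← h] at h2
      norm_num at h2
  obtain ⟨l, hl, ht⟩ := reg1 hL h0 h1 h2
  obtain ⟨c, hc, N, hN⟩ := upper_core (by omega) hlam (m := 8 * (1 - lam ^ 2)) (by positivity) hl ht
  refine ⟨c, hc, N, fun n hn G _ _ _ _ _ _ μ _ _ ρ χ hχ hρ => ?_⟩
  obtain ⟨p, hp1, hp2, hp3⟩ := hN n hn G μ ρ χ hχ hρ
  refine ⟨p, hp1.trans ?_, hp2, hp3⟩
  have hL0 : (0 : ℝ) < L := by
    have : 0 < L := by omega
    exact_mod_cast this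
  have h3 : lam ^ 2 * (8 * (1 - lam ^ 2)) ^ 2 ≤ 64 * (1 - lam ^ 2) ^ 2 := by
    have : lam ^ 2 ≤ 1 := by linarith
    nlinarith [sq_nonneg (1 - lam ^ 2)]
  refine mul_le_mul_of_nonneg_right ?_ (Nat.cast_nonneg _)
  exact div_le_div_of_nonneg_right h3 hL0.le

/-- all `lam ≥ lam0`, many frequencies -/
theorem upper_all {lam0 : ℝ} (h0 : 0 < lam0) : ∃ (L0 : ℕ) (C : ℝ), 0 < C ∧ ∀ L ≥ L0, ∀ lam : ℝ,
    lam0 ≤ lam → lam < 1 → ∃ c : ℝ, 0 < c ∧ ∃ N : ℕ, ∀ n ≥ N, ∀ (G : Type) [Group G]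
      [TopologicalSpace G] [IsTopologicalGroup G] [CompactSpace G] [MeasurableSpace G]
      [BorelSpace G] (μ : Measure G) [μ.IsHaarMeasure] [IsProbabilityMeasure μ]
      (ρ : ∀ _ : Fin L, G →* Matrix.unitaryGroup (Fin 1) ℂ) (χ : G → ℂ),
      (∀ k g, (ρ k g : Matrix (Fin 1) (Fin 1) ℂ) 0 0 = χ g ^ ((k : ℕ) + 1)) →
      Admissible (d := one1 L) ρ → ∃ p : MvPolynomial (Coord n (one1 L)) ℝ,
        (p.totalDegree : ℝ) ≤ C * (1 - lam ^ 2) ^ 2 / L * n ∧
        0 < Var[fun ω => MvPolynomial.eval (data (d := one1 L) ρ 0 ω) p; law μ n (one1 L)] ∧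
        Real.exp (c * n) *
            Var[fun ω => MvPolynomial.eval (data (d := one1 L) ρ 0 ω) p; law μ n (one1 L)] ≤
          ((∫ ω, MvPolynomial.eval (data (d := one1 L) ρ lam ω) p ∂(law μ n (one1 L))) -
            ∫ ω, MvPolynomial.eval (data (d := one1 L) ρ 0 ω) p ∂(law μ n (one1 L))) ^ 2 := by
  obtain ⟨L0, m, hL0, hm, hreg⟩ := reg2 h0
  refine ⟨max L0 2, 64 + m ^ 2 * 176 ^ 2, by positivity, fun L hL lam hl0 hl1 => ?_⟩
  have hL1 : L0 ≤ L := (le_max_left _ _).trans hL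
  have hL2 : 2 ≤ L := (le_max_right _ _).trans hL
  have hlam : 0 < lam := by linarith
  have hl2 : 0 < 1 - lam ^ 2 := by nlinarith
  have hLr : (0 : ℝ) < L := by
    have : 0 < L := by omega
    exact_mod_cast this
  by_cases hcase : 176 * (1 - lam ^ 2) ≤ 1
  · obtain ⟨c, hc, N, hN⟩ := upper_one hL2 hlam.le hl1 hcase
    refine ⟨c, hc, N, fun n hn G _ _ _ _ _ _ μ _ _ ρ χ hχ hρ => ?_⟩
    obtain ⟨p, hp1, hp2, hp3⟩ := hN n hn G μ ρ χ hχ hρ
    refine ⟨p, hp1.trans ?_, hp2, hp3⟩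
    refine mul_le_mul_of_nonneg_right ?_ (Nat.cast_nonneg _)
    refine div_le_div_of_nonneg_right ?_ hLr.le
    nlinarith [mul_nonneg (sq_nonneg m) (sq_nonneg (1 - lam ^ 2))]
  · push Not at hcase
    obtain ⟨l, Λ, hl, ht⟩ := hreg L hL1 lam hl0 hl1
    obtain ⟨c, hc, N, hN⟩ := upper_core (by omega) hlam hm hl ht
    refine ⟨c, hc, N, fun n hn G _ _ _ _ _ _ μ _ _ ρ χ hχ hρ => ?_⟩
    obtain ⟨p, hp1, hp2, hp3⟩ := hN n hn G μ ρ χ hχ hρ
    refine ⟨p, hp1.trans ?_, hp2, hp3⟩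
    refine mul_le_mul_of_nonneg_right ?_ (Nat.cast_nonneg _)
    refine div_le_div_of_nonneg_right ?_ hLr.le
    have h3 : (1 : ℝ) ≤ 176 ^ 2 * (1 - lam ^ 2) ^ 2 := by nlinarith
    have h4 : lam ^ 2 * m ^ 2 ≤ m ^ 2 := by nlinarith [sq_nonneg m]
    have h5 : m ^ 2 * 1 ≤ m ^ 2 * (176 ^ 2 * (1 - lam ^ 2) ^ 2) :=
      mul_le_mul_of_nonneg_left h3 (sq_nonneg m)
    nlinarith [sq_nonneg (1 - lam ^ 2)]

end H69.DT
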