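import Pool.Agent.H47.LV.Main

/-!
# Module VertQ: the inequality for sums of functions of principal submatrices

Copy of the proof of `cov_mob` in `Pool/Agent/H47/LV/Main.lean` with `hilb (Ge_inner μ ρ hρ lam) (ME_empty μ (wl ρ) _)`
applied to the predicate `fun E => (vx E).card ≤ D` (monotone: `vx` is monotone) and the sets `fun K => K ×ˢ K`
(`vx (K ×ˢ K) ⊆ K`); the locality step uses `sE_inter ρ lam E (K ×ˢ K)`. At the end `sum_few` of
`Pool/Agent/H47/LV/Comb.lean` turns the sum over `E` into the sum over `V`.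
-/

set_option autoImplicit false

open MeasureTheory ProbabilityTheory
open scoped BigOperators RealInnerProductSpace

namespace H69.DT

open Pool.Agent.Results.MP_634cec_lc.LinearDegree
open Pool.Agent.H70.SS (gam)
open Pool.Agent.H47.LV

theorem vert_mob {G : Type} [Group G] [TopologicalSpace G] [IsTopologicalGroup G] [CompactSpace G]
    [MeasurableSpace G] [BorelSpace G] (μ : Measure G) [μ.IsHaarMeasure] [IsProbabilityMeasure μ]
    {L n : ℕ} {d : Fin L → ℕ} (ρ : ∀ k : Fin L, G →* Matrix.unitaryGroup (Fin (d k)) ℂ)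
    (hρ : ∀ k, Continuous fun g => (ρ k g : Matrix (Fin (d k)) (Fin (d k)) ℂ)) (lam : ℝ)
    (D : ℕ) (F : Finset (Fin n) → (Coord n d → ℝ) → ℝ) (hF : ∀ K, Measurable (F K))
    (hloc : ∀ K z z', (∀ c, (pr c).1 ∈ K → (pr c).2 ∈ K → z c = z' c) → F K z = F K z')
    (hF2 : ∀ K, MemLp (F K) 2 (gam (Coord n d))) :
    ((∫ g, ∫ z, ∑ K with K.card ≤ D, F K (shift ρ lam g + z) ∂(gam (Coord n d))
        ∂(Measure.pi fun _ : Fin n => μ)) -
          ∫ z, ∑ K with K.card ≤ D, F K z ∂(gam (Coord n d))) ^ 2 ≤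
      ((∫ z, (∑ K with K.card ≤ D, F K z) ^ 2 ∂(gam (Coord n d))) -
        (∫ z, ∑ K with K.card ≤ D, F K z ∂(gam (Coord n d))) ^ 2) *
      ∑ V ∈ (Finset.univ : Finset (Finset (Fin n))).filter (fun V => V ≠ ∅ ∧ V.card ≤ D),
        mob (MK μ (wl ρ) (lam / Real.sqrt n)) V := by
  classical
  rw [← sum_few μ (wl ρ) (lam / Real.sqrt n) D]
  set ν := Measure.pi fun _ : Fin n => μ with hν
  have hsm : ∀ E, Measurable fun g : Fin n → G => sE ρ lam E g := fun E =>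
    measurable_sE ρ hρ lam E
  have hsb : ∀ E (g : Fin n → G) (c : Coord n d), |sE ρ lam E g c| ≤
      ∑ k, |lam * Real.sqrt (d k / n)| := fun E g c => abs_sE_le ρ lam E g c
  have hPhi : ∀ E, MemLp (Phi ν (sE ρ lam E)) 2 (gam (Coord n d)) := fun E =>
    memLp_Phi (hsm E) (hsb E)
  have hGe : ∀ E, Ge μ ρ hρ lam E = (hPhi E).toLp (Phi ν (sE ρ lam E)) := fun E => rfl
  set s := (Finset.univ : Finset (Finset (Fin n))).filter (fun K => K.card ≤ D) with hs
  set Fe : Finset (Fin n) → Lp ℝ 2 (gam (Coord n d)) := fun K => (hF2 K).toLp (F K) with hFe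
  have hf0 : MemLp (fun z => ∑ K ∈ s, F K z) 2 (gam (Coord n d)) :=
    memLp_finsetSum _ fun K _ => hF2 K
  have hf0m : Measurable fun z => ∑ K ∈ s, F K z := Finset.measurable_sum _ fun K _ => hF K
  have hsum : ∑ K ∈ s, Fe K = hf0.toLp (fun z => ∑ K ∈ s, F K z) := by
    apply Lp.ext
    refine (Lp.coeFn_fun_finsetSum s Fe).trans ?_
    have h1 : ∀ᵐ z ∂(gam (Coord n d)), ∀ K ∈ s,
        (Fe K : (Coord n d → ℝ) → ℝ) z = F K z := by
      rw [Filter.eventually_all_finset]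
      intro K _
      exact (hF2 K).coeFn_toLp
    filter_upwards [h1, hf0.coeFn_toLp] with z h2 h3
    rw [h3]
    exact Finset.sum_congr rfl fun K hK => h2 K hK
  have hFGe : ∀ K E, ⟪Fe K, Ge μ ρ hρ lam E⟫ =
      ∫ g, ∫ z, F K (sE ρ lam E g + z) ∂(gam (Coord n d)) ∂ν := by
    intro K E
    rw [hGe, hFe, inner_toLp (hF2 K) (hPhi E), inner_F (hsm E) (hsb E) (hF K) (hF2 K)]
  have hFG : ∀ K ∈ s, ∀ E, ⟪Fe K, Ge μ ρ hρ lam E⟫ =
      ⟪Fe K, Ge μ ρ hρ lam (E ∩ (K ×ˢ K))⟫ := by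
    intro K _ E
    rw [hFGe, hFGe]
    refine integral_congr_ae (ae_of_all _ fun g => ?_)
    refine integral_congr_ae (ae_of_all _ fun z => ?_)
    refine hloc K _ _ fun c hc1 hc2 => ?_
    rw [Pi.add_apply, Pi.add_apply,
      sE_inter ρ lam E (K ×ˢ K) g c (Finset.mem_product.2 ⟨hc1, hc2⟩)]
  have key := hilb (Ge_inner μ ρ hρ lam) (ME_empty μ (wl ρ) _) (fun E => (vx E).card ≤ D)
    (fun S V hVS hS => (Finset.card_le_card (Finset.union_subset_union
      (Finset.image_subset_image hVS) (Finset.image_subset_image hVS))).trans hS) s Fe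
    (fun K => K ×ˢ K)
    (fun K hK => (Finset.card_le_card ((vx_subset_iff _ _).2 (Finset.Subset.refl _))).trans
      (Finset.mem_filter.1 hK).2) hFG
  have e1 : ⟪∑ K ∈ s, Fe K, Ge μ ρ hρ lam Finset.univ⟫ =
      ∫ g, ∫ z, ∑ K ∈ s, F K (shift ρ lam g + z) ∂(gam (Coord n d)) ∂ν := by
    rw [hsum, hGe, inner_toLp hf0 (hPhi _), inner_F (hsm _) (hsb _) hf0m hf0]
    simp_rw [sE_univ]
  have e2 : ⟪∑ K ∈ s, Fe K, Ge μ ρ hρ lam ∅⟫ = ∫ z, ∑ K ∈ s, F K z ∂(gam (Coord n d)) := by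
    rw [hsum, hGe, inner_toLp hf0 (hPhi _), inner_F (hsm _) (hsb _) hf0m hf0]
    simp_rw [sE_empty, zero_add]
    simp
  have e3 : ⟪∑ K ∈ s, Fe K, ∑ K ∈ s, Fe K⟫ =
      ∫ z, (∑ K ∈ s, F K z) ^ 2 ∂(gam (Coord n d)) := by
    rw [hsum, inner_toLp hf0 hf0]
    exact integral_congr_ae (ae_of_all _ fun z => (sq _).symm)
  rw [e1, e2, e3] at key
  exact key

end H69.DT
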