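import Pool.Agent.H47.LV.Iso
import Pool.Agent.H70.SS.RotPart

/-!
# Module WlQ: the norm of the overlap vector

`wl ρ` is in `Pool/Agent/H47/LV/Iso.lean` (index `(c, true)` / `(c, false)`: `√2` times real / imaginary part of
`vv ρ c`, `c = (k, (a, b))`), `vv ρ c g = √(d k) * ρ_k(g)_{ab}`. So the sum of the squares is
`2 ∑_k d_k ∑_{a,b} |ρ_k(g)_{ab}|^2 = 2 ∑_k d_k * d_k` (rows of a unitary matrix have norm one). See `frob` (private) in
`Pool/Agent/H70/SS/HoefP.lean` and `sum_coord`-type lemmas for the sum over `VIdx d × Bool`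
(`Fintype.sum_prod_type`, `Fintype.sum_bool`, `Fintype.sum_sigma`). `card_wl`: see `card_idx` in
`Pool/Agent/H70/SS/RotPart.lean` (`numK d = ∑ k, d k ^ 2`).
-/

set_option autoImplicit false

open scoped BigOperators

namespace H69.DT

open Pool.Agent.Results.MP_634cec_lc.LinearDegree
open Pool.Agent.H47.LV (wl)

private theorem wlq_frob {p : ℕ} (U : Matrix.unitaryGroup (Fin p) ℂ) :
    ∑ a, ∑ b, ‖(U : Matrix (Fin p) (Fin p) ℂ) a b‖ ^ 2 = p := by
  have h : ∀ a, ∑ b, ‖(U : Matrix (Fin p) (Fin p) ℂ) a b‖ ^ 2 = 1 := by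
    intro a
    have h1 : (U : Matrix (Fin p) (Fin p) ℂ) * star (U : Matrix (Fin p) (Fin p) ℂ) = 1 :=
      Matrix.mem_unitaryGroup_iff.1 U.2
    have h2 := congrFun (congrFun h1 a) a
    rw [Matrix.mul_apply, Matrix.one_apply_eq] at h2
    have h3 : ((∑ b, ‖(U : Matrix (Fin p) (Fin p) ℂ) a b‖ ^ 2 : ℝ) : ℂ) = 1 := by
      rw [← h2]
      push_cast
      refine Finset.sum_congr rfl fun b _ => ?_
      rw [Matrix.star_apply, Complex.star_def, Complex.mul_conj, Complex.normSq_eq_norm_sq]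
      push_cast
      rfl
    exact_mod_cast h3
  simp [h]

theorem sum_wl_sq {G : Type} [Group G] {L : ℕ} {d : Fin L → ℕ}
    (ρ : ∀ k : Fin L, G →* Matrix.unitaryGroup (Fin (d k)) ℂ) (h : G) :
    ∑ l, wl ρ l h ^ 2 = 2 * ∑ k, (d k : ℝ) ^ 2 := by
  have hc : ∀ c : VIdx d, wl ρ (c, true) h ^ 2 + wl ρ (c, false) h ^ 2 =
      2 * ((d c.1 : ℝ) *
        ‖(ρ c.1 h : Matrix (Fin (d c.1)) (Fin (d c.1)) ℂ) c.2.1 c.2.2‖ ^ 2) := by
    intro c
    have h1 : ‖vv ρ c h‖ ^ 2 = (d c.1 : ℝ) *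
        ‖(ρ c.1 h : Matrix (Fin (d c.1)) (Fin (d c.1)) ℂ) c.2.1 c.2.2‖ ^ 2 := by
      unfold vv
      rw [norm_mul, mul_pow, Complex.norm_real, Real.norm_eq_abs, sq_abs,
        Real.sq_sqrt (Nat.cast_nonneg _)]
    rw [← h1, ← Complex.normSq_eq_norm_sq, Complex.normSq_apply]
    simp only [wl, if_true, Bool.false_eq_true, if_false]
    rw [mul_pow, mul_pow, Real.sq_sqrt (by norm_num)]
    ring
  rw [Fintype.sum_prod_type]
  simp only [Fintype.sum_bool, hc]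
  rw [← Finset.mul_sum, Fintype.sum_sigma]
  congr 1
  refine Finset.sum_congr rfl fun k _ => ?_
  have h2 : ∑ x : Fin (d k) × Fin (d k), (d k : ℝ) *
      ‖(ρ k h : Matrix (Fin (d k)) (Fin (d k)) ℂ) x.1 x.2‖ ^ 2 = (d k : ℝ) ^ 2 := by
    rw [← Finset.mul_sum, Fintype.sum_prod_type]
    have h3 := wlq_frob (ρ k h)
    rw [h3, sq]
  exact h2

theorem card_wl {L : ℕ} (d : Fin L → ℕ) : Fintype.card (VIdx d × Bool) = 2 * ∑ k, d k ^ 2 := by
  simp only [Fintype.card_prod, Fintype.card_sigma, Fintype.card_bool, Fintype.card_fin]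
  rw [mul_comm]
  congr 1
  exact Finset.sum_congr rfl fun k _ => (sq _).symm

end H69.DT
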