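import Pool.Agent.H69.DT.SumQ
import Pool.Agent.H69.DT.WlQ
import Pool.Agent.H69.DT.VertQ

/-!
# The low-degree threshold (MP_634cec): the inequality for principal submatrices (complete over the modules)
-/

set_option autoImplicit false

open MeasureTheory ProbabilityTheory
open scoped BigOperators

namespace H69.DT

open Pool.Agent.Results.MP_634cec_lc.LinearDegree
open Pool.Agent.H70.SS (gam)
open Pool.Agent.H47.LV

theorem block_ineq {L : ℕ} {d : Fin L → ℕ} {lam : ℝ} (h0 : 0 ≤ lam) (h1 : lam < 1) {G : Type}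
    [Group G] [TopologicalSpace G] [IsTopologicalGroup G] [CompactSpace G] [MeasurableSpace G]
    [BorelSpace G] (μ : Measure G) [μ.IsHaarMeasure] [IsProbabilityMeasure μ]
    {ρ : ∀ k : Fin L, G →* Matrix.unitaryGroup (Fin (d k)) ℂ} (hρ : Admissible ρ) {n D : ℕ}
    (hD : 128 * (∑ k, (d k : ℝ) ^ 2) * D ≤ (1 - lam ^ 2) ^ 2 * n)
    (F : Finset (Fin n) → (Coord n d → ℝ) → ℝ) (hF : ∀ K, Measurable (F K))
    (hloc : ∀ K z z', (∀ c, (pr c).1 ∈ K → (pr c).2 ∈ K → z c = z' c) → F K z = F K z')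
    (hF2 : ∀ K, MemLp (F K) 2 (gam (Coord n d))) :
    ((∫ g, ∫ z, ∑ K with K.card ≤ D, F K (shift ρ lam g + z) ∂(gam (Coord n d))
        ∂(Measure.pi fun _ : Fin n => μ)) -
          ∫ z, ∑ K with K.card ≤ D, F K z ∂(gam (Coord n d))) ^ 2 ≤
      (2 / (1 - lam ^ 2)) ^ (∑ k, d k ^ 2) *
      ((∫ z, (∑ K with K.card ≤ D, F K z) ^ 2 ∂(gam (Coord n d))) -
        (∫ z, ∑ K with K.card ≤ D, F K z ∂(gam (Coord n d))) ^ 2) := by
  classical
  have hl2 : lam ^ 2 < 1 := by nlinarith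
  set K2 : ℝ := ∑ k, (d k : ℝ) ^ 2 with hK2
  have hK0 : 0 ≤ K2 := Finset.sum_nonneg fun _ _ => sq_nonneg _
  set R : ℝ := Real.sqrt (2 * K2) with hR
  have hR2 : R ^ 2 = 2 * K2 := Real.sq_sqrt (by positivity)
  have hw : ∀ h, ∑ l, wl ρ l h ^ 2 ≤ R ^ 2 := fun h => by rw [sum_wl_sq ρ h, hR2]
  have hD' : 64 * R ^ 2 * D ≤ (1 - lam ^ 2) ^ 2 * n := by
    rw [hR2]
    refine le_trans (le_of_eq ?_) hD
    ring
  have h2 := sum_mob_le2 (ι := VIdx d × Bool) h0 h1 (Real.sqrt_nonneg _) μ (measurable_wl ρ hρ.1) hw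
    (wl_mean μ ρ hρ) (wl_cov μ ρ hρ) hD'
  have hC : ((Real.sqrt (1 - (1 + lam ^ 2) / 2))⁻¹) ^ Fintype.card (VIdx d × Bool) =
      (2 / (1 - lam ^ 2)) ^ (∑ k, d k ^ 2) := by
    rw [card_wl, pow_mul, inv_pow, Real.sq_sqrt (by linarith)]
    congr 1
    have h3 : (1 - lam ^ 2) ≠ 0 := by
      have : 0 < 1 - lam ^ 2 := by linarith
      exact this.ne'
    have h4 : 1 - (1 + lam ^ 2) / 2 = (1 - lam ^ 2) / 2 := by ring
    rw [h4, inv_div]
  rw [hC] at h2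
  refine (vert_mob μ ρ hρ.1 lam D F hF hloc hF2).trans ?_
  rw [mul_comm ((2 / (1 - lam ^ 2)) ^ (∑ k, d k ^ 2))]
  refine mul_le_mul_of_nonneg_left h2 ?_
  have hf0 : MemLp (fun z => ∑ K with K.card ≤ D, F K z) 2 (gam (Coord n d)) :=
    memLp_finsetSum _ fun S _ => hF2 S
  have h3 := variance_eq_sub hf0
  have h4 := variance_nonneg (fun z => ∑ K with K.card ≤ D, F K z) (gam (Coord n d))
  rw [h3] at h4
  simpa using h4

end H69.DT
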