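import Pool.Agent.H69.DT.Defs
import Pool.Agent.H69.DT.BlockQ

/-!
# The low-degree threshold (MP_634cec): the class of sums of functions of principal submatrices (complete over the modules)
-/

set_option autoImplicit false

open MeasureTheory ProbabilityTheory
open scoped BigOperators

namespace H69.DT

open Pool.Agent.Results.MP_634cec_lc.LinearDegree
open Pool.Agent.H47.LV
open Pool.Agent.H70.SS (gam symm data_symm measurable_symm null_eq final_ineq integrable_of_test)

section base

variable {G : Type} [Group G] [MeasurableSpace G] (μ : Measure G) [IsProbabilityMeasure μ]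
  {L n : ℕ} {d : Fin L → ℕ} (ρ : ∀ k : Fin L, G →* Matrix.unitaryGroup (Fin (d k)) ℂ)

omit [MeasurableSpace G] in
theorem data_null (ω : (Fin n → G) × (Coord n d → ℝ)) : data ρ 0 ω = symm ω.2 := by
  rw [data_symm, shift_zero, zero_add]

/-- square integrability in the null model, in the coordinates of the noise -/
theorem memLp_null_iff {F : (Coord n d → ℝ) → ℝ} (hF : Measurable F) :
    MemLp (fun ω => F (data ρ 0 ω)) 2 (law μ n d) ↔
      MemLp (fun z => F (symm z)) 2 (gam (Coord n d)) := by
  simp_rw [data_null]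
  have h1 : MeasurePreserving (Prod.snd : (Fin n → G) × (Coord n d → ℝ) → Coord n d → ℝ)
      (law μ n d) (gam (Coord n d)) := measurePreserving_snd
  have h2 : Measurable fun z : Coord n d → ℝ => F (symm z) := hF.comp measurable_symm
  rw [← h1.map_eq]
  exact (memLp_map_measure_iff h2.aestronglyMeasurable measurable_snd.aemeasurable).symm

variable {μ ρ}

/-- polynomials in the entries have a finite second moment in the null model -/
theorem memLp_poly (p : MvPolynomial (Coord n d) ℝ) :
    MemLp (fun ω => MvPolynomial.eval (data ρ 0 ω) p) 2 (law μ n d) := by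
  have h1 : ∀ q : MvPolynomial (Coord n d) ℝ,
      Integrable (fun ω => MvPolynomial.eval (data ρ 0 ω) q) (law μ n d) := by
    intro q
    have h := Pool.Agent.H28.GaussLowDeg.integrable_eval_shift
      (P := Measure.pi fun _ : Fin n => μ) (X := fun (_ : Fin n → G) (_ : Coord n d) => (0 : ℝ))
      (fun _ => measurable_const) 0 (fun _ _ => by simp) (MvPolynomial.bind₁ lin q)
    refine h.congr (ae_of_all _ fun ω => ?_)
    show _ = MvPolynomial.eval (data ρ 0 ω) q
    rw [eval_data, shift_zero]
    rfl
  rw [memLp_two_iff_integrable_sq (h1 p).aestronglyMeasurable]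
  refine (h1 (p ^ 2)).congr (ae_of_all _ fun ω => ?_)
  show MvPolynomial.eval (data ρ 0 ω) (p ^ 2) = MvPolynomial.eval (data ρ 0 ω) p ^ 2
  rw [map_pow]

end base

variable {G : Type} [Group G] [MeasurableSpace G] {μ : Measure G} [IsProbabilityMeasure μ]
  {L n : ℕ} {d : Fin L → ℕ} {ρ : ∀ k : Fin L, G →* Matrix.unitaryGroup (Fin (d k)) ℂ}

omit [IsProbabilityMeasure μ] in
theorem SumOnBlocks.single {D : ℕ} {S : Finset (Fin n)} (hS : S.card ≤ D)
    {F : (Coord n d → ℝ) → ℝ} (hF : Measurable F) (hloc : OnBlock S F)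
    (hF2 : MemLp (fun ω => F (data ρ 0 ω)) 2 (law μ n d)) : SumOnBlocks μ ρ D F := by
  classical
  refine ⟨fun T => if T = S then F else 0, fun T => ?_, fun y => ?_⟩
  · by_cases h : T = S
    · subst h
      simp only [if_true]
      exact ⟨hF, hloc, hF2⟩
    · simp only [h, if_false]
      exact ⟨measurable_const, fun _ _ _ => rfl, MemLp.zero⟩
  · rw [Finset.sum_eq_single S]
    · simp
    · intro T _ hT
      simp [hT]
    · intro h
      exact absurd (by simpa using hS) h

omit [IsProbabilityMeasure μ] in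
theorem SumOnBlocks.sum {D : ℕ} {ι : Type*} (s : Finset ι) {f : ι → (Coord n d → ℝ) → ℝ}
    (hf : ∀ i ∈ s, SumOnBlocks μ ρ D (f i)) : SumOnBlocks μ ρ D fun y => ∑ i ∈ s, f i y := by
  classical
  have h : ∀ i, ∃ F : Finset (Fin n) → (Coord n d → ℝ) → ℝ, i ∈ s →
      (∀ S, Measurable (F S) ∧ OnBlock S (F S) ∧
        MemLp (fun ω => F S (data ρ 0 ω)) 2 (law μ n d)) ∧
      ∀ y, f i y = ∑ S with S.card ≤ D, F S y := by
    intro i
    by_cases hi : i ∈ s
    · obtain ⟨F, hF⟩ := hf i hi
      exact ⟨F, fun _ => hF⟩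
    · exact ⟨0, fun h => absurd h hi⟩
  choose F hF using h
  refine ⟨fun S y => ∑ i ∈ s, F i S y, fun S => ⟨?_, ?_, ?_⟩, fun y => ?_⟩
  · exact Finset.measurable_sum _ fun i hi => ((hF i hi).1 S).1
  · intro y y' h
    exact Finset.sum_congr rfl fun i hi => ((hF i hi).1 S).2.1 y y' h
  · exact memLp_finsetSum _ fun i hi => ((hF i hi).1 S).2.2
  · rw [Finset.sum_comm]
    exact Finset.sum_congr rfl fun i hi => (hF i hi).2 y

omit [IsProbabilityMeasure μ] in
theorem SumOnBlocks.measurable {D : ℕ} {f : (Coord n d → ℝ) → ℝ} (hf : SumOnBlocks μ ρ D f) :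
    Measurable f := by
  obtain ⟨F, hF, hsum⟩ := hf
  have h : f = fun y => ∑ S with S.card ≤ D, F S y := funext hsum
  rw [h]
  exact Finset.measurable_sum _ fun S _ => (hF S).1

omit [IsProbabilityMeasure μ] in
theorem SumOnBlocks.memLp {D : ℕ} {f : (Coord n d → ℝ) → ℝ} (hf : SumOnBlocks μ ρ D f) :
    MemLp (fun ω => f (data ρ 0 ω)) 2 (law μ n d) := by
  obtain ⟨F, hF, hsum⟩ := hf
  have h : f = fun y => ∑ S with S.card ≤ D, F S y := funext hsum
  rw [h]
  exact memLp_finsetSum _ fun S _ => (hF S).2.2

/-- the vertices of the entries of a monomial -/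
def vt (m : Coord n d →₀ ℕ) : Finset (Fin n) :=
  m.support.image (fun c => c.2.1.1) ∪ m.support.image (fun c => c.2.2.1.1)

theorem card_vt_le (m : Coord n d →₀ ℕ) : (vt m).card ≤ 2 * m.degree := by
  unfold vt
  have h1 : m.support.card ≤ m.degree := by
    calc m.support.card = ∑ c ∈ m.support, 1 := by simp
      _ ≤ ∑ c ∈ m.support, m c :=
          Finset.sum_le_sum fun c hc => Nat.one_le_iff_ne_zero.2 (Finsupp.mem_support_iff.1 hc)
      _ = m.degree := rfl
  refine (Finset.card_union_le _ _).trans ?_
  have h2 : (m.support.image fun c => c.2.1.1).card ≤ m.support.card := Finset.card_image_le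
  have h3 : (m.support.image fun c => c.2.2.1.1).card ≤ m.support.card := Finset.card_image_le
  omega

/-- polynomials of degree at most `D / 2` are in the class -/
theorem SumOnBlocks.poly {D : ℕ} (p : MvPolynomial (Coord n d) ℝ) (hp : 2 * p.totalDegree ≤ D) :
    SumOnBlocks μ ρ D fun y => MvPolynomial.eval y p := by
  classical
  have h1 : (fun y => MvPolynomial.eval y p) = fun y => ∑ m ∈ p.support,
      MvPolynomial.eval y (MvPolynomial.monomial m (p.coeff m)) := by
    funext y
    rw [← map_sum, ← MvPolynomial.as_sum]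
  rw [h1]
  refine SumOnBlocks.sum _ fun m hm => ?_
  have hpm : Measurable fun y : Coord n d → ℝ =>
      MvPolynomial.eval y (MvPolynomial.monomial m (p.coeff m)) :=
    (MvPolynomial.continuous_eval _).measurable
  refine SumOnBlocks.single (S := vt m) ?_ hpm ?_ ?_
  · have h2 := card_vt_le m
    have h3 : m.degree ≤ p.totalDegree := MvPolynomial.le_totalDegree hm
    omega
  · intro y y' h
    show MvPolynomial.eval y (MvPolynomial.monomial m (p.coeff m)) =
        MvPolynomial.eval y' (MvPolynomial.monomial m (p.coeff m))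
    rw [MvPolynomial.eval_monomial, MvPolynomial.eval_monomial]
    congr 1
    refine Finsupp.prod_congr fun c hc => ?_
    rw [h c (Finset.mem_union_left _ (Finset.mem_image_of_mem _ hc))
      (Finset.mem_union_right _ (Finset.mem_image_of_mem _ hc))]
  · exact memLp_poly (ρ := ρ) (μ := μ) (MvPolynomial.monomial m (p.coeff m))

end H69.DT
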