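import Pool.Agent.H28.LinearDegreeModel

/-!
# The low-degree threshold (MP_634cec): definitions
-/

set_option autoImplicit false

open MeasureTheory ProbabilityTheory
open scoped BigOperators

namespace H69.DT

open Pool.Agent.Results.MP_634cec_lc.LinearDegree

/-- `F` depends only on the entries between vertices of `S` (in all observations): on the principal
submatrices with vertex set `S`. -/
def OnBlock {L n : ℕ} {d : Fin L → ℕ} (S : Finset (Fin n)) (F : (Coord n d → ℝ) → ℝ) : Prop :=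
  ∀ y y' : Coord n d → ℝ, (∀ c, c.2.1.1 ∈ S → c.2.2.1.1 ∈ S → y c = y' c) → F y = F y'

/-- `f` is a sum of functions each of which depends only on the entries between at most `D` vertices
(arbitrary terms for all sets of at most `D` vertices) and has a finite second moment in the null
model. -/
def SumOnBlocks {G : Type} [Group G] [MeasurableSpace G] (μ : Measure G) {L n : ℕ}
    {d : Fin L → ℕ} (ρ : ∀ k : Fin L, G →* Matrix.unitaryGroup (Fin (d k)) ℂ) (D : ℕ)
    (f : (Coord n d → ℝ) → ℝ) : Prop :=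
  ∃ F : Finset (Fin n) → (Coord n d → ℝ) → ℝ,
    (∀ S, Measurable (F S) ∧ OnBlock S (F S) ∧
      MemLp (fun ω => F S (data ρ 0 ω)) 2 (law μ n d)) ∧
    ∀ y, f y = ∑ S with S.card ≤ D, F S y

/-- heat polynomials: `E q_D(t + √v w) = t ^ D` for a standard normal `w` -/
noncomputable def hq (v : ℝ) : ℕ → Polynomial ℝ
  | 0 => 1
  | D + 1 => Polynomial.X * hq v D - Polynomial.C v * Polynomial.derivative (hq v D)

/-- the polynomial with the values `y ↦ E q(⟨a, y⟩)` -/
noncomputable def av {Ω : Type*} [MeasurableSpace Ω] (P : Measure Ω) {τ : Type*} [Fintype τ]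
    (a : Ω → τ → ℝ) (q : Polynomial ℝ) : MvPolynomial τ ℝ :=
  ∑ j ∈ Finset.range (q.natDegree + 1), ∑ κ : Fin j → τ,
    MvPolynomial.C (q.coeff j * ∫ ω, ∏ i, a ω (κ i) ∂P) * ∏ i, MvPolynomial.X (κ i)

/-- the properties of the character which are used -/
structure CharL {G : Type} [MeasurableSpace G] (μ : Measure G) (χ : G → ℂ) (L : ℕ) : Prop where
  meas : Measurable χ
  norm : ∀ g, ‖χ g‖ = 1
  zero : ∀ j : ℕ, 1 ≤ j → j ≤ 2 * L → ∫ g, χ g ^ j ∂μ = 0
  nonneg : ∀ j : ℕ, 0 ≤ (∫ g, χ g ^ j ∂μ).re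

/-- `X = Re (χ + χ^2 + .. + χ^L)` -/
noncomputable def XX {G : Type} (χ : G → ℂ) (L : ℕ) (g : G) : ℝ :=
  ∑ k : Fin L, (χ g ^ ((k : ℕ) + 1)).re

/-- a probability density `p` with `E X p = m` and relative entropy at most `l` -/
structure Tilt {G : Type} [MeasurableSpace G] (μ : Measure G) (χ : G → ℂ) (L : ℕ) (m l Λ : ℝ)
    (p : G → ℝ) : Prop where
  meas : Measurable p
  pos : ∀ g, 0 < p g
  log : ∀ g, |Real.log (p g)| ≤ Λ
  one : ∫ g, p g ∂μ = 1
  mean : ∫ g, XX χ L g * p g ∂μ = m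
  ent : ∫ g, p g * Real.log (p g) ∂μ ≤ l

end H69.DT
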