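import Pool.Agent.H69.DT.Defs

/-!
# Module Fej: the Fejer kernel in the character

`F := ‖∑ a in range (L+1), χ^a‖^2 / (L+1)`; `0 ≤ F ≤ L+1` (`‖χ‖ = 1`). `‖∑ a, χ^a‖^2 = ∑ a, ∑ b, χ^a * conj (χ^b)`
(complex; real part), `∫ χ^a conj χ^b = [a = b]` for `0 ≤ a, b ≤ L` (`zero`, and conjugation), so `∫ F = 1`.
`∫ F Re χ^k` for `1 ≤ k ≤ L`: `∫ χ^a conj(χ^b) χ^k = [a + k = b]` (for `a + k > b`: exponent between `1` and `2L`) and
`∫ χ^a conj(χ^b) conj (χ^k) = [a = b + k]`, so it is `(L + 1 - k)/(L+1)`; the sum over `k = 1..L` is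
`(L(L+1)/2)/(L+1) = L/2`.
-/

set_option autoImplicit false

open MeasureTheory ProbabilityTheory
open scoped BigOperators ComplexConjugate

namespace H69.DT

/-- the Fejer kernel -/
noncomputable def FK {G : Type} (χ : G → ℂ) (L : ℕ) (g : G) : ℝ :=
  ‖∑ a ∈ Finset.range (L + 1), χ g ^ a‖ ^ 2 / (L + 1)

variable {G : Type} [MeasurableSpace G] {μ : Measure G} [IsProbabilityMeasure μ] {χ : G → ℂ} {L : ℕ}

omit [IsProbabilityMeasure μ] in
theorem meas_FK (h : CharL μ χ L) : Measurable (FK χ L) := by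
  unfold FK
  have h1 : Measurable fun g => ∑ a ∈ Finset.range (L + 1), χ g ^ a :=
    Finset.measurable_sum _ fun a _ => h.meas.pow_const a
  exact (h1.norm.pow_const 2).div_const _

omit [MeasurableSpace G] in
theorem FK_nonneg (g : G) : 0 ≤ FK χ L g := by
  unfold FK
  positivity

omit [IsProbabilityMeasure μ] in
theorem FK_le (h : CharL μ χ L) (g : G) : FK χ L g ≤ L + 1 := by
  unfold FK
  have h1 : ‖∑ a ∈ Finset.range (L + 1), χ g ^ a‖ ≤ (L : ℝ) + 1 := by
    refine (norm_sum_le _ _).trans ?_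
    simp [h.norm g]
  have h2 : (0 : ℝ) < L + 1 := by positivity
  rw [div_le_iff₀ h2]
  have h3 := pow_le_pow_left₀ (norm_nonneg _) h1 2
  calc ‖∑ a ∈ Finset.range (L + 1), χ g ^ a‖ ^ 2 ≤ ((L : ℝ) + 1) ^ 2 := h3
    _ = ((L : ℝ) + 1) * (L + 1) := by ring

omit [IsProbabilityMeasure μ] in
private theorem Fej_conj (h : CharL μ χ L) (g : G) : χ g * conj (χ g) = 1 := by
  rw [Complex.mul_conj, Complex.normSq_eq_norm_sq, h.norm g]
  norm_num

private theorem Fej_int_pow (h : CharL μ χ L) (j : ℕ) : Integrable (fun g => χ g ^ j) μ := by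
  refine Integrable.mono' (integrable_const (1 : ℝ)) (h.meas.pow_const j).aestronglyMeasurable ?_
  refine Filter.Eventually.of_forall fun g => ?_
  rw [norm_pow, h.norm g, one_pow]

private theorem Fej_re_pow (h : CharL μ χ L) (j : ℕ) (h1 : 1 ≤ j) (h2 : j ≤ 2 * L) :
    ∫ g, (χ g ^ j).re ∂μ = 0 := by
  have h3 : ∫ g, (χ g ^ j).re ∂μ = (∫ g, χ g ^ j ∂μ).re := by
    have := integral_re (𝕜 := ℂ) (Fej_int_pow h j)
    simpa using this
  rw [h3, h.zero j h1 h2, Complex.zero_re]

private theorem Fej_pair (h : CharL μ χ L) (a b : ℕ) (h1 : a ≤ b + 2 * L) (h2 : b ≤ a + 2 * L) :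
    ∫ g, (χ g ^ a * conj (χ g) ^ b).re ∂μ = if a = b then 1 else 0 := by
  rcases lt_trichotomy a b with hab | hab | hab
  · rw [if_neg hab.ne]
    have h3 : ∀ g, (χ g ^ a * conj (χ g) ^ b).re = (χ g ^ (b - a)).re := by
      intro g
      have h4 : χ g ^ a * conj (χ g) ^ b = conj (χ g ^ (b - a)) := by
        have h5 : b = a + (b - a) := by omega
        conv_lhs => rw [h5, pow_add, ← mul_assoc, ← mul_pow, Fej_conj h g, one_pow, one_mul]
        rw [map_pow]
      rw [h4, Complex.conj_re]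
    simp only [h3]
    exact Fej_re_pow h _ (by omega) (by omega)
  · subst hab
    rw [if_pos rfl]
    have h3 : ∀ g, (χ g ^ a * conj (χ g) ^ a).re = 1 := by
      intro g
      rw [← mul_pow, Fej_conj h g, one_pow, Complex.one_re]
    simp only [h3]
    simp
  · rw [if_neg hab.ne']
    have h3 : ∀ g, (χ g ^ a * conj (χ g) ^ b).re = (χ g ^ (a - b)).re := by
      intro g
      have h4 : χ g ^ a * conj (χ g) ^ b = χ g ^ (a - b) := by
        have h5 : a = (a - b) + b := by omega
        conv_lhs => rw [h5, pow_add, mul_assoc, ← mul_pow, Fej_conj h g, one_pow, mul_one]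
      rw [h4]
    simp only [h3]
    exact Fej_re_pow h _ (by omega) (by omega)

private theorem Fej_pair_int (h : CharL μ χ L) (a b : ℕ) :
    Integrable (fun g => (χ g ^ a * conj (χ g) ^ b).re) μ := by
  refine Integrable.mono' (integrable_const (1 : ℝ)) ?_ ?_
  · exact (Complex.measurable_re.comp ((h.meas.pow_const a).mul
      ((Complex.continuous_conj.measurable.comp h.meas).pow_const b))).aestronglyMeasurable
  · refine Filter.Eventually.of_forall fun g => ?_
    rw [Real.norm_eq_abs]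
    refine (Complex.abs_re_le_norm _).trans ?_
    rw [norm_mul, norm_pow, norm_pow, RCLike.norm_conj, h.norm g, one_pow, one_pow, mul_one]

omit [IsProbabilityMeasure μ] in
private theorem Fej_expand (h : CharL μ χ L) (m : ℕ) (g : G) :
    (χ g ^ m).re * FK χ L g =
      (∑ a ∈ Finset.range (L + 1), ∑ b ∈ Finset.range (L + 1),
        (χ g ^ (m + a) * conj (χ g) ^ b).re) / (L + 1) := by
  have _ := h.norm g
  unfold FK
  rw [← mul_div_assoc]
  congr 1
  have h1 : ((‖∑ a ∈ Finset.range (L + 1), χ g ^ a‖ ^ 2 : ℝ) : ℂ) =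
      (∑ a ∈ Finset.range (L + 1), χ g ^ a) * ∑ b ∈ Finset.range (L + 1), conj (χ g) ^ b := by
    rw [← Complex.normSq_eq_norm_sq, ← Complex.mul_conj, map_sum]
    simp only [map_pow]
  have h2 : (χ g ^ m).re * ‖∑ a ∈ Finset.range (L + 1), χ g ^ a‖ ^ 2 =
      (χ g ^ m * ((‖∑ a ∈ Finset.range (L + 1), χ g ^ a‖ ^ 2 : ℝ) : ℂ)).re := by
    rw [Complex.re_mul_ofReal]
  rw [h2, h1, Finset.sum_mul_sum, Finset.mul_sum, Complex.re_sum]
  refine Finset.sum_congr rfl fun a _ => ?_
  rw [Finset.mul_sum, Complex.re_sum]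
  refine Finset.sum_congr rfl fun b _ => ?_
  rw [← mul_assoc, ← pow_add]

private theorem Fej_main (h : CharL μ χ L) (m : ℕ) (hm : m ≤ L) :
    ∫ g, (χ g ^ m).re * FK χ L g ∂μ = ((L : ℝ) + 1 - m) / (L + 1) := by
  simp only [Fej_expand h m]
  rw [integral_div]
  congr 1
  rw [integral_finsetSum _ fun a _ => integrable_finsetSum _ fun b _ => Fej_pair_int h _ _]
  have h1 : ∀ a ∈ Finset.range (L + 1), ∫ g, ∑ b ∈ Finset.range (L + 1),
      (χ g ^ (m + a) * conj (χ g) ^ b).re ∂μ = if a < L + 1 - m then 1 else 0 := by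
    intro a ha
    have ha' := Finset.mem_range.1 ha
    rw [integral_finsetSum _ fun b _ => Fej_pair_int h _ _]
    rw [Finset.sum_congr rfl fun b hb => Fej_pair h (m + a) b (by omega)
      (by have := Finset.mem_range.1 hb; omega)]
    rw [Finset.sum_ite_eq]
    have : (m + a ∈ Finset.range (L + 1)) ↔ a < L + 1 - m := by
      rw [Finset.mem_range]; omega
    simp only [this]
  rw [Finset.sum_congr rfl h1, ← Finset.sum_filter, Finset.sum_const, nsmul_eq_mul, mul_one]
  have h2 : (Finset.range (L + 1)).filter (fun a => a < L + 1 - m) = Finset.range (L + 1 - m) := by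
    ext a
    simp only [Finset.mem_filter, Finset.mem_range]
    omega
  rw [h2, Finset.card_range, Nat.cast_sub (by omega)]
  push_cast
  ring

theorem int_FK (h : CharL μ χ L) : ∫ g, FK χ L g ∂μ = 1 := by
  have h1 := Fej_main h 0 (Nat.zero_le _)
  simp only [pow_zero, Complex.one_re, one_mul, Nat.cast_zero, sub_zero] at h1
  rw [h1, div_self]
  positivity

theorem int_XX_FK (h : CharL μ χ L) : ∫ g, XX χ L g * FK χ L g ∂μ = L / 2 := by
  unfold XX
  simp only [Finset.sum_mul]
  rw [integral_finsetSum]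
  · have h0 : ∀ k : Fin L, ∫ g, (χ g ^ ((k : ℕ) + 1)).re * FK χ L g ∂μ =
        ((L : ℝ) + 1 - (((k : ℕ) + 1 : ℕ) : ℝ)) / (L + 1) := fun k => Fej_main h ((k : ℕ) + 1) k.2
    rw [Finset.sum_congr rfl fun k _ => h0 k]
    rw [← Finset.sum_div, Fin.sum_univ_eq_sum_range (fun k => (L : ℝ) + 1 - ((k + 1 : ℕ) : ℝ)) L]
    have h2 : ∑ k ∈ Finset.range L, ((L : ℝ) + 1 - ((k + 1 : ℕ) : ℝ)) = L * (L + 1) / 2 := by
      have h3 : ∀ M : ℕ, ∑ k ∈ Finset.range M, ((L : ℝ) + 1 - ((k + 1 : ℕ) : ℝ)) =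
          M * (2 * L + 1 - M) / 2 := by
        intro M
        induction M with
        | zero => simp
        | succ M ih =>
          rw [Finset.sum_range_succ, ih]
          push_cast
          ring
      rw [h3 L]
      ring
    rw [h2]
    have : (L : ℝ) + 1 ≠ 0 := by positivity
    field_simp
  · intro k _
    simp only [Fej_expand h]
    exact (integrable_finsetSum _ fun a _ =>
      integrable_finsetSum _ fun b _ => Fej_pair_int h _ _).div_const _

end H69.DT
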