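import Pool.Agent.H70.SS.Defs
import Pool.Agent.H70.SS.CM

/-!
# Module LinQ: the law of a linear form of a standard Gaussian vector

`gam σ = Measure.pi fun _ => gaussianReal 0 1`. The image of `gam σ` under `z ↦ ∑ c, s c * z c` is the image of `gaussianReal 0 1`
under `w ↦ √(∑ c, s c ^ 2) * w`. Possible proofs: characteristic functions (`Measure.ext_of_charFun`, `charFun_gaussianReal`,
`integral_fintype_prod_eq_prod`); or moment generating functions (`Pool.Agent.H70.SS.integral_exp_lin`:
`∫ exp (∑ c, ξ c * b c) = exp ((∑ c, b c ^ 2)/2)` and `Measure.ext_of_mgf_eq`-type lemmas); or independence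
(`iIndepFun_pi`, sums of independent normals).
-/

set_option autoImplicit false

open MeasureTheory ProbabilityTheory
open scoped BigOperators

namespace H69.DT

open Pool.Agent.H70.SS (gam)

theorem gam_lin {σ : Type*} [Fintype σ] (s : σ → ℝ) {F : ℝ → ℝ} (hF : Measurable F) :
    ∫ z, F (∑ c, s c * z c) ∂(gam σ) =
      ∫ w, F (Real.sqrt (∑ c, s c ^ 2) * w) ∂(gaussianReal 0 1) := by
  classical
  have hm1 : Measurable fun z : σ → ℝ => ∑ c, s c * z c := by fun_prop
  have hm2 : Measurable fun w : ℝ => Real.sqrt (∑ c, s c ^ 2) * w := by fun_prop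
  have hP : IsProbabilityMeasure (gam σ) := by
    unfold gam
    infer_instance
  have hone : ∀ t : ℝ, ∫ x : ℝ, Complex.exp (t * x * Complex.I) ∂(gaussianReal 0 1) =
      Complex.exp (-(t ^ 2 / 2 : ℝ)) := by
    intro t
    rw [← charFun_apply_real, charFun_gaussianReal]
    congr 1
    push_cast
    ring
  have hmap : (gam σ).map (fun z : σ → ℝ => ∑ c, s c * z c) =
      (gaussianReal 0 1).map fun w : ℝ => Real.sqrt (∑ c, s c ^ 2) * w := by
    have : IsProbabilityMeasure ((gam σ).map (fun z : σ → ℝ => ∑ c, s c * z c)) :=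
      Measure.isProbabilityMeasure_map hm1.aemeasurable
    have : IsProbabilityMeasure ((gaussianReal 0 1).map fun w : ℝ => Real.sqrt (∑ c, s c ^ 2) * w) :=
      Measure.isProbabilityMeasure_map hm2.aemeasurable
    apply Measure.ext_of_charFun
    funext t
    rw [charFun_apply_real, charFun_apply_real, integral_map hm1.aemeasurable (by fun_prop),
      integral_map hm2.aemeasurable (by fun_prop)]
    have h1 : ∀ z : σ → ℝ, Complex.exp (t * (∑ c, s c * z c : ℝ) * Complex.I) =
        ∏ c, Complex.exp ((t * s c : ℝ) * (z c) * Complex.I) := by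
      intro z
      rw [← Complex.exp_sum]
      congr 1
      push_cast
      rw [Finset.mul_sum, Finset.sum_mul]
      exact Finset.sum_congr rfl fun c _ => by ring
    simp only [h1]
    unfold gam
    rw [integral_fintype_prod_eq_prod (fun (c : σ) (x : ℝ) => Complex.exp ((t * s c : ℝ) * x * Complex.I))]
    simp only [hone]
    have h2 : ∀ w : ℝ, Complex.exp (t * (Real.sqrt (∑ c, s c ^ 2) * w : ℝ) * Complex.I) =
        Complex.exp ((t * Real.sqrt (∑ c, s c ^ 2) : ℝ) * w * Complex.I) := by
      intro w
      congr 1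
      push_cast
      ring
    simp only [h2, hone]
    rw [← Complex.exp_sum, mul_pow, Real.sq_sqrt (Finset.sum_nonneg fun c _ => sq_nonneg _)]
    congr 1
    push_cast
    rw [Finset.sum_neg_distrib, Finset.mul_sum, Finset.sum_div]
    congr 1
    exact Finset.sum_congr rfl fun c _ => by ring
  have e1 : ∫ z, F (∑ c, s c * z c) ∂(gam σ) =
      ∫ x, F x ∂((gam σ).map (fun z : σ → ℝ => ∑ c, s c * z c)) :=
    (integral_map hm1.aemeasurable hF.aestronglyMeasurable).symm
  have e2 : ∫ w, F (Real.sqrt (∑ c, s c ^ 2) * w) ∂(gaussianReal 0 1) =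
      ∫ x, F x ∂((gaussianReal 0 1).map fun w : ℝ => Real.sqrt (∑ c, s c ^ 2) * w) :=
    (integral_map hm2.aemeasurable hF.aestronglyMeasurable).symm
  rw [e1, e2, hmap]

end H69.DT
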