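import Pool.Agent.H69.DT.Heat
import Pool.Agent.H69.DT.LinQ
import Pool.Agent.H69.DT.AvP

/-!
# Module First: the mean of the averaged heat polynomial

Swap the two integrals (`integral_integral_swap`): the integrand is measurable in `(ω, z)` and bounded by a polynomial in
`∑ c, |z c|`, which is integrable under `gam σ` (`Pool.Agent.H70.SS.integrable_exp_abs` dominates every polynomial, or
`q.eval (∑ s (x + z))` is bounded by `∑ j |coeff j| (B ∑ c (|x c| + |z c|))^j` and `(∑ ..)^j ≤ j! exp (∑ ..)`). For fixed `ω`: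
`∑ c, s c * (x c + z c) = t + ∑ c, s c * z c`, `t := ∑ c, s c * x c`; `gam_lin` with `F u := (hq v D).eval (t + u)` and
`hq_gauss` (`v = ∑ c, s c ^ 2 ≥ 0`).
-/

set_option autoImplicit false

open MeasureTheory ProbabilityTheory
open scoped BigOperators

namespace H69.DT

open Pool.Agent.H70.SS (gam)

private lemma first_bound (q : Polynomial ℝ) :
    ∃ C : ℝ, 0 ≤ C ∧ ∀ u : ℝ, |q.eval u| ≤ C * Real.exp |u| := by
  refine ⟨∑ j ∈ Finset.range (q.natDegree + 1), |q.coeff j| * (j.factorial : ℝ),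
    Finset.sum_nonneg fun j _ => by positivity, fun u => ?_⟩
  rw [Polynomial.eval_eq_sum_range, Finset.sum_mul]
  refine (Finset.abs_sum_le_sum_abs _ _).trans (Finset.sum_le_sum fun j _ => ?_)
  rw [abs_mul, abs_pow, mul_assoc]
  refine mul_le_mul_of_nonneg_left ?_ (abs_nonneg _)
  have h := Real.pow_div_factorial_le_exp |u| (abs_nonneg u) j
  have hj : (0 : ℝ) < (j.factorial : ℝ) := by exact_mod_cast j.factorial_pos
  rw [div_le_iff₀ hj] at h
  linarith

private lemma first_int {σ : Type*} [Fintype σ] {Ω : Type*} [MeasurableSpace Ω] (P : Measure Ω)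
    [IsProbabilityMeasure P] {s : Ω → σ → ℝ} (hs : ∀ c, Measurable fun ω => s ω c) {B : ℝ}
    (hB : ∀ ω c, |s ω c| ≤ B) (q : Polynomial ℝ) (x : σ → ℝ) :
    Integrable (fun y : (σ → ℝ) × Ω => q.eval (∑ c, s y.2 c * (x c + y.1 c)))
      ((gam σ).prod P) := by
  obtain ⟨C, hC0, hC⟩ := first_bound q
  have h1 : Integrable (fun y : (σ → ℝ) × Ω =>
      C * Real.exp (|B| * ∑ c, |x c|) * Real.exp (|B| * ∑ c, |y.1 c|)) ((gam σ).prod P) := by
    have h2 := (Pool.Agent.H70.SS.integrable_exp_abs (ι := σ) |B|).comp_fst P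
    exact h2.const_mul _
  refine h1.mono' ?_ ?_
  · refine Measurable.aestronglyMeasurable ?_
    refine (q.continuous.measurable).comp ?_
    refine Finset.measurable_fun_sum _ fun c _ => ?_
    exact ((hs c).comp measurable_snd).mul
      (measurable_const.add ((measurable_pi_apply c).comp measurable_fst))
  · refine Filter.Eventually.of_forall fun y => ?_
    rw [Real.norm_eq_abs]
    refine (hC _).trans ?_
    rw [mul_assoc, ← Real.exp_add]
    refine mul_le_mul_of_nonneg_left (Real.exp_le_exp.2 ?_) hC0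
    rw [← mul_add, ← Finset.sum_add_distrib, Finset.mul_sum]
    refine (Finset.abs_sum_le_sum_abs _ _).trans (Finset.sum_le_sum fun c _ => ?_)
    rw [abs_mul]
    exact mul_le_mul ((hB _ _).trans (le_abs_self B)) (abs_add_le _ _) (abs_nonneg _)
      (abs_nonneg _)

theorem heat_first {σ : Type*} [Fintype σ] {Ω : Type*} [MeasurableSpace Ω] (P : Measure Ω)
    [IsProbabilityMeasure P] {s : Ω → σ → ℝ} (hs : ∀ c, Measurable fun ω => s ω c) {B : ℝ}
    (hB : ∀ ω c, |s ω c| ≤ B) {v : ℝ} (hv : ∀ ω, ∑ c, s ω c ^ 2 = v) (D : ℕ) (x : σ → ℝ) :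
    ∫ z, (∫ ω, (hq v D).eval (∑ c, s ω c * (x c + z c)) ∂P) ∂(gam σ) =
      ∫ ω, (∑ c, s ω c * x c) ^ D ∂P := by
  have hswap := integral_integral_swap (f := fun (z : σ → ℝ) (ω : Ω) =>
    (hq v D).eval (∑ c, s ω c * (x c + z c))) (first_int P hs hB (hq v D) x)
  rw [hswap]
  refine integral_congr_ae (Filter.Eventually.of_forall fun ω => ?_)
  have hv0 : 0 ≤ v := by
    rw [← hv ω]
    exact Finset.sum_nonneg fun c _ => sq_nonneg _
  have h1 : ∀ z : σ → ℝ, (hq v D).eval (∑ c, s ω c * (x c + z c)) =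
      (fun u : ℝ => (hq v D).eval ((∑ c, s ω c * x c) + u)) (∑ c, s ω c * z c) := by
    intro z
    simp only [mul_add, Finset.sum_add_distrib]
  have hF : Measurable (fun u : ℝ => (hq v D).eval ((∑ c, s ω c * x c) + u)) :=
    ((hq v D).continuous.measurable).comp (measurable_const.add measurable_id)
  change ∫ z, (hq v D).eval (∑ c, s ω c * (x c + z c)) ∂(gam σ) = _
  rw [integral_congr_ae (Filter.Eventually.of_forall h1), gam_lin (s ω) hF, hv ω]
  exact hq_gauss hv0 D _

end H69.DT
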