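import Pool.Agent.H28.GaussLowDeg

/-!
# Module Stein: Gaussian integration by parts for polynomials

`integrable_poly`: `Polynomial.eval_eq_sum_range` and `Pool.Agent.H28.GaussLowDeg.integrable_pow_gauss`.
`stein`: both sides are linear in `r` (`Polynomial.induction_on` or the sum over the coefficients); for `r = X^j` :
`∫ w^(j+1) = gm (j+1) = j * gm (j-1)` from `gm_succ_succ`, `gm_one`.
-/

set_option autoImplicit false

open MeasureTheory ProbabilityTheory

namespace H69.DT

theorem integrable_poly (r : Polynomial ℝ) : Integrable (fun w => r.eval w) (gaussianReal 0 1) := by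
  have h : (fun w : ℝ => r.eval w) =
      fun w => ∑ i ∈ Finset.range (r.natDegree + 1), r.coeff i * w ^ i := by
    funext w
    exact Polynomial.eval_eq_sum_range w
  rw [h]
  exact integrable_finsetSum _ fun i _ =>
    (Pool.Agent.H28.GaussLowDeg.integrable_pow_gauss i).const_mul _

private lemma Stein_mul (r : Polynomial ℝ) :
    Integrable (fun w => w * r.eval w) (gaussianReal 0 1) := by
  have h : (fun w : ℝ => w * r.eval w) = fun w => (Polynomial.X * r).eval w := by
    funext w
    simp
  rw [h]
  exact integrable_poly _

theorem stein (r : Polynomial ℝ) : ∫ w, w * r.eval w ∂(gaussianReal 0 1) =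
    ∫ w, (Polynomial.derivative r).eval w ∂(gaussianReal 0 1) := by
  induction r using Polynomial.induction_on' with
  | add p q hp hq =>
    have h1 : (fun w : ℝ => w * (p + q).eval w) = fun w => w * p.eval w + w * q.eval w := by
      funext w
      rw [Polynomial.eval_add, mul_add]
    have h2 : (fun w : ℝ => (Polynomial.derivative (p + q)).eval w) =
        fun w => (Polynomial.derivative p).eval w + (Polynomial.derivative q).eval w := by
      funext w
      rw [Polynomial.derivative_add, Polynomial.eval_add]
    rw [h1, h2, integral_add (Stein_mul p) (Stein_mul q),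
      integral_add (integrable_poly _) (integrable_poly _), hp, hq]
  | monomial j a =>
    have h1 : (fun w : ℝ => w * (Polynomial.monomial j a).eval w) = fun w => a * w ^ (j + 1) := by
      funext w
      rw [Polynomial.eval_monomial]
      ring
    have h2 : (fun w : ℝ => (Polynomial.derivative (Polynomial.monomial j a)).eval w) =
        fun w => (a * j) * w ^ (j - 1) := by
      funext w
      rw [Polynomial.derivative_monomial, Polynomial.eval_monomial]
    rw [h1, h2, integral_const_mul, integral_const_mul]
    change a * Pool.Agent.H28.GaussLowDeg.gm (j + 1) =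
      a * j * Pool.Agent.H28.GaussLowDeg.gm (j - 1)
    cases j with
    | zero =>
      rw [zero_add, Pool.Agent.H28.GaussLowDeg.gm_one]
      simp
    | succ i =>
      rw [Pool.Agent.H28.GaussLowDeg.gm_succ_succ, Nat.add_sub_cancel]
      push_cast
      ring

end H69.DT
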