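import Pool.Agent.H69.DT.Defs
import Pool.Agent.H69.DT.Stein

/-!
# Module Heat: heat polynomials

`hq_gauss` by induction: with `r := (hq v D).comp (C t + C (√v) * X)` one has `r.eval w = (hq v D).eval (t + √v w)` and
`(derivative r).eval w = √v * (derivative (hq v D)).eval (t + √v w)`; then
`∫ (t + √v w) hq(t + √v w) = t ∫ hq + √v ∫ w r(w) = t * t^D + √v * √v ∫ hq'` by `stein`, and `- v ∫ hq'` cancels.
-/

set_option autoImplicit false

open MeasureTheory ProbabilityTheory

namespace H69.DT

theorem natDegree_hq (v : ℝ) (D : ℕ) : (hq v D).natDegree ≤ D := by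
  induction D with
  | zero => simp [hq]
  | succ D ih =>
    have h1 : (Polynomial.X * hq v D).natDegree ≤ D + 1 := by
      refine Polynomial.natDegree_mul_le.trans ?_
      have := Polynomial.natDegree_X_le (R := ℝ)
      omega
    have h2 : (Polynomial.C v * Polynomial.derivative (hq v D)).natDegree ≤ D + 1 := by
      refine (Polynomial.natDegree_C_mul_le _ _).trans ?_
      have := Polynomial.natDegree_derivative_le (hq v D)
      omega
    rw [hq]
    exact (Polynomial.natDegree_sub_le _ _).trans (max_le h1 h2)

theorem hq_gauss {v : ℝ} (hv : 0 ≤ v) (D : ℕ) (t : ℝ) :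
    ∫ w, (hq v D).eval (t + Real.sqrt v * w) ∂(gaussianReal 0 1) = t ^ D := by
  induction D with
  | zero => simp [hq]
  | succ D ih =>
    obtain ⟨h, hh⟩ : ∃ h, h = hq v D := ⟨_, rfl⟩
    obtain ⟨l, hl⟩ : ∃ l : Polynomial ℝ, l = Polynomial.C t + Polynomial.C (Real.sqrt v) * Polynomial.X :=
      ⟨_, rfl⟩
    have hle : ∀ w, l.eval w = t + Real.sqrt v * w := by
      intro w
      rw [hl]
      simp
    have e1 : ∀ w, (h.comp l).eval w = h.eval (t + Real.sqrt v * w) := by
      intro w
      rw [Polynomial.eval_comp, hle]
    have e2 : ∀ w, ((Polynomial.derivative h).comp l).eval w =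
        (Polynomial.derivative h).eval (t + Real.sqrt v * w) := by
      intro w
      rw [Polynomial.eval_comp, hle]
    have e3 : ∀ w, (Polynomial.derivative (h.comp l)).eval w =
        Real.sqrt v * (Polynomial.derivative h).eval (t + Real.sqrt v * w) := by
      intro w
      rw [Polynomial.derivative_comp, Polynomial.eval_mul, e2]
      congr 1
      rw [hl]
      simp
    have i1 : Integrable (fun w => h.eval (t + Real.sqrt v * w)) (gaussianReal 0 1) := by
      have := integrable_poly (h.comp l)
      simpa only [e1] using this
    have i2 : Integrable (fun w => w * h.eval (t + Real.sqrt v * w)) (gaussianReal 0 1) := by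
      have := integrable_poly (Polynomial.X * h.comp l)
      simpa only [Polynomial.eval_mul, Polynomial.eval_X, e1] using this
    have i3 : Integrable (fun w => (Polynomial.derivative h).eval (t + Real.sqrt v * w))
        (gaussianReal 0 1) := by
      have := integrable_poly ((Polynomial.derivative h).comp l)
      simpa only [e2] using this
    have hst := stein (h.comp l)
    simp only [e1, e3] at hst
    rw [integral_const_mul] at hst
    have hsum : ∀ w, (hq v (D + 1)).eval (t + Real.sqrt v * w) =
        t * h.eval (t + Real.sqrt v * w) + Real.sqrt v * (w * h.eval (t + Real.sqrt v * w)) -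
          v * (Polynomial.derivative h).eval (t + Real.sqrt v * w) := by
      intro w
      rw [hq, ← hh, Polynomial.eval_sub, Polynomial.eval_mul, Polynomial.eval_mul, Polynomial.eval_X,
        Polynomial.eval_C]
      ring
    simp only [hsum]
    have i4 : Integrable (fun w => t * h.eval (t + Real.sqrt v * w) +
        Real.sqrt v * (w * h.eval (t + Real.sqrt v * w))) (gaussianReal 0 1) :=
      (i1.const_mul t).add (i2.const_mul _)
    rw [integral_sub i4 (i3.const_mul v),
      integral_add (i1.const_mul t) (i2.const_mul _), integral_const_mul, integral_const_mul,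
      integral_const_mul, hst, ← mul_assoc, Real.mul_self_sqrt hv, hh, ih]
    ring

end H69.DT
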