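import Pool.Agent.H69.DT.AMain
import Pool.Agent.H69.DT.BMain

/-!
# The low-degree threshold (MP_634cec): both sides (complete over the modules)
-/

set_option autoImplicit false

open MeasureTheory ProbabilityTheory
open scoped BigOperators

namespace H69.DT

open Pool.Agent.Results.MP_634cec_lc.LinearDegree

/-- (A) lower bound -/
theorem part_A (L : ℕ) (d : Fin L → ℕ) (lam : ℝ) (h0 : 0 ≤ lam) (h1 : lam < 1) (G : Type) [Group G]
    [TopologicalSpace G] [IsTopologicalGroup G] [CompactSpace G] [MeasurableSpace G] [BorelSpace G]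
    (μ : Measure G) [μ.IsHaarMeasure] [IsProbabilityMeasure μ]
    (ρ : ∀ k : Fin L, G →* Matrix.unitaryGroup (Fin (d k)) ℂ) (hρ : Admissible ρ) (n D : ℕ)
    (hD : 128 * (∑ k, (d k : ℝ) ^ 2) * D ≤ (1 - lam ^ 2) ^ 2 * n) :
    (∀ f, SumOnBlocks μ ρ D f → Integrable (fun ω => f (data ρ lam ω)) (law μ n d) ∧
      ((∫ ω, f (data ρ lam ω) ∂(law μ n d)) - ∫ ω, f (data ρ 0 ω) ∂(law μ n d)) ^ 2 ≤
        (2 / (1 - lam ^ 2)) ^ (∑ k, d k ^ 2) * Var[fun ω => f (data ρ 0 ω); law μ n d]) ∧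
    (∀ φ, SumOnBlocks μ ρ D φ → (∀ y, 0 ≤ φ y) → (∀ y, φ y ≤ 1) →
      ((1 - lam ^ 2) / 2) ^ (∑ k, d k ^ 2) / 4 ≤
        (∫ ω, φ (data ρ 0 ω) ∂(law μ n d)) + (1 - ∫ ω, φ (data ρ lam ω) ∂(law μ n d))) ∧
    (∀ p : MvPolynomial (Coord n d) ℝ, 2 * p.totalDegree ≤ D →
      SumOnBlocks μ ρ D fun y => MvPolynomial.eval y p) :=
  ⟨fun _ hf => lower_bound h0 h1 hρ hD hf, fun _ hφ h2 h3 => lower_test h0 h1 hρ hD hφ h2 h3,
    fun p hp => SumOnBlocks.poly p hp⟩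

end H69.DT
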