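import Pool.Agent.H47.LV.Num

/-!
# Module NumQ: the numerical estimate with explicit constants

Put `r := (1 - lam^2)/2 ∈ (0, 1/2]`, `z := n y^2 / 2` (so `0 ≤ z ≤ lam^2 q / 2`). CASE 1, `exp (R y) ≤ 1 + r`: the sum is
`≤ p ^ n` (`Pool.Agent.H47.LV.binom_le` with `y := p - 1`) `≤ exp (n (p - 1))` (`p ≤ exp (p - 1)`)
`≤ exp (z (1 + r))`, and `lam^2 (1 + r) ≤ (1 + lam^2)/2` (true: difference is `(1-lam^2)^2/2 ≥ 0`).
CASE 2, `1 + r < exp (R y)`: then `R y > log (1 + r) ≥ r/(1+r) ≥ 2r/3 = (1 - lam^2)/3` (`Real.one_sub_inv_le_log_of_pos`),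
so `R > 0`, `y > 0` and `(1 - lam^2)^2 ≤ 9 R^2 y^2`, hence from `hD` : `64 D ≤ 9 n y^2`, i.e. `D ≤ (9/32) z`.
Also `D * (R y) ≤ (6/64) z`: `64 R^2 D * y ≤ (1-lam^2)^2 n y ≤ (1 - lam^2) n y * 3 R y`, `1 - lam^2 ≤ 1`, divide by `R`.
The sum: `(n.choose v) ≤ n^v / v!` (`Nat.choose_le_pow_div`), `(p-1)^v ≤ (y^2/2)^v exp(R y v)`, `exp (R y v) ≤ exp (D R y)`,
`z^v / v! = (9/32 z)^v / v! * (32/9)^v ≤ (9/32 z)^v / v! * (exp (3/2))^D`, `∑ (9/32 z)^v / v! ≤ exp (9/32 z)`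
(`Real.sum_le_exp_of_nonneg`). Total `≤ exp (6/64 z + 3/2 D + 9/32 z) ≤ exp z` (`3/2 D ≤ 27/64 z`; `6 + 27 + 18 = 51 ≤ 64`) and
`z ≤ lam^2 q / 2 ≤ (1 + lam^2)/2/2 * q`. `32/9 ≤ exp (3/2)`: `Real.quadratic_le_exp_of_nonneg` gives
`1 + 3/2 + 9/8 = 3.625 ≥ 3.5556`.
-/

set_option autoImplicit false

open Finset

namespace H69.DT

private theorem numQ_case1 {w r : ℝ} (hw0 : 0 ≤ w) (hr : r = (1 - w) / 2) {n D : ℕ} {q y p E : ℝ}
    (hq : 0 ≤ q) (hny : n * y ^ 2 ≤ w * q) (hp : 1 ≤ p)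
    (hp1 : p - 1 ≤ y ^ 2 / 2 * E) (hE : E ≤ 1 + r) :
    ∑ v ∈ range (D + 1), (n.choose v : ℝ) * (p - 1) ^ v ≤ Real.exp ((1 + w) / 2 / 2 * q) := by
  have hn : (0 : ℝ) ≤ n := Nat.cast_nonneg n
  have h3 : ∑ v ∈ range (D + 1), (n.choose v : ℝ) * (p - 1) ^ v ≤ p ^ n := by
    have := Pool.Agent.H47.LV.binom_le (y := p - 1) (by linarith) n D
    rwa [sub_add_cancel] at this
  refine h3.trans ?_
  have h4 : p ≤ Real.exp (p - 1) := by
    have := Real.add_one_le_exp (p - 1)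
    linarith
  calc p ^ n ≤ Real.exp (p - 1) ^ n := pow_le_pow_left₀ (by linarith) h4 n
    _ = Real.exp (n * (p - 1)) := by rw [← Real.exp_nat_mul]
    _ ≤ Real.exp ((1 + w) / 2 / 2 * q) := by
        refine Real.exp_le_exp.2 ?_
        have hy2 : (0 : ℝ) ≤ y ^ 2 := sq_nonneg y
        have h5 : (n : ℝ) * (p - 1) ≤ n * (y ^ 2 / 2 * (1 + r)) := by
          refine mul_le_mul_of_nonneg_left (hp1.trans ?_) hn
          exact mul_le_mul_of_nonneg_left hE (by positivity)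
        have hr1 : 0 ≤ n * y ^ 2 := by positivity
        have h6 : (n : ℝ) * (y ^ 2 / 2 * (1 + r)) = (n * y ^ 2) * (1 + r) / 2 := by ring
        rw [h6] at h5
        refine h5.trans ?_
        by_cases h1r : 0 ≤ 1 + r
        · have h7 : (n * y ^ 2) * (1 + r) ≤ (w * q) * (1 + r) := mul_le_mul_of_nonneg_right hny h1r
          have h8 : w * (1 + r) ≤ (1 + w) / 2 := by
            rw [hr]
            nlinarith [sq_nonneg (1 - w)]
          have h9 : w * (1 + r) * q ≤ (1 + w) / 2 * q := mul_le_mul_of_nonneg_right h8 hq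
          nlinarith
        · rw [not_le] at h1r
          have h7 : (n * y ^ 2) * (1 + r) ≤ 0 := mul_nonpos_of_nonneg_of_nonpos hr1 h1r.le
          have h8 : 0 ≤ (1 + w) / 2 / 2 * q := by positivity
          linarith

private theorem numQ_exp : (32 / 9 : ℝ) ≤ Real.exp (3 / 2) := by
  have := Real.quadratic_le_exp_of_nonneg (x := (3 / 2 : ℝ)) (by norm_num)
  norm_num at this ⊢
  linarith

private theorem numQ_sum {n D : ℕ} {y p E z : ℝ} (hz : z = n * y ^ 2 / 2) (hE : 1 ≤ E) (hp : 1 ≤ p)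
    (hp1 : p - 1 ≤ y ^ 2 / 2 * E) :
    ∑ v ∈ range (D + 1), (n.choose v : ℝ) * (p - 1) ^ v ≤
      E ^ D * Real.exp (3 / 2) ^ D * Real.exp (9 / 32 * z) := by
  have hn : (0 : ℝ) ≤ n := Nat.cast_nonneg n
  have hz0 : 0 ≤ z := by rw [hz]; positivity
  have hterm : ∀ v ∈ range (D + 1), (n.choose v : ℝ) * (p - 1) ^ v ≤
      E ^ D * Real.exp (3 / 2) ^ D * ((9 / 32 * z) ^ v / (v.factorial : ℝ)) := by
    intro v hv
    have hvD : v ≤ D := by rw [mem_range] at hv; omega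
    have h1 : (n.choose v : ℝ) ≤ (n : ℝ) ^ v / (v.factorial : ℝ) := Nat.choose_le_pow_div v n
    have h2 : (p - 1) ^ v ≤ (y ^ 2 / 2 * E) ^ v := pow_le_pow_left₀ (by linarith) hp1 v
    have hf : (0 : ℝ) < (v.factorial : ℝ) := by positivity
    calc (n.choose v : ℝ) * (p - 1) ^ v ≤ (n : ℝ) ^ v / (v.factorial : ℝ) * (y ^ 2 / 2 * E) ^ v :=
          mul_le_mul h1 h2 (pow_nonneg (by linarith) v) (by positivity)
      _ = E ^ v * (32 / 9) ^ v * ((9 / 32 * z) ^ v / (v.factorial : ℝ)) := by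
          rw [hz]
          have e1 : (n : ℝ) ^ v * (y ^ 2 / 2 * E) ^ v =
              E ^ v * (32 / 9) ^ v * (9 / 32 * (n * y ^ 2 / 2)) ^ v := by
            rw [← mul_pow, ← mul_pow, ← mul_pow]
            congr 1
            ring
          rw [div_mul_eq_mul_div, e1, mul_div_assoc]
      _ ≤ E ^ D * Real.exp (3 / 2) ^ D * ((9 / 32 * z) ^ v / (v.factorial : ℝ)) := by
          refine mul_le_mul_of_nonneg_right ?_ (by positivity)
          refine mul_le_mul (pow_le_pow_right₀ hE hvD) ?_ (by positivity) (by positivity)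
          calc (32 / 9 : ℝ) ^ v ≤ (32 / 9) ^ D := pow_le_pow_right₀ (by norm_num) hvD
            _ ≤ Real.exp (3 / 2) ^ D := pow_le_pow_left₀ (by norm_num) numQ_exp D
  refine (sum_le_sum hterm).trans ?_
  rw [← mul_sum]
  refine mul_le_mul_of_nonneg_left ?_ (by positivity)
  exact Real.sum_le_exp_of_nonneg (by positivity) (D + 1)

theorem num2 {lam R : ℝ} (h0 : 0 ≤ lam) (h1 : lam < 1) (hR : 0 ≤ R) {n D : ℕ}
    (hD : 64 * R ^ 2 * D ≤ (1 - lam ^ 2) ^ 2 * n) {q y p : ℝ} (hq : 0 ≤ q) (hy : 0 ≤ y)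
    (hny : n * y ^ 2 ≤ lam ^ 2 * q) (hp : 1 ≤ p) (hp1 : p - 1 ≤ y ^ 2 / 2 * Real.exp (R * y)) :
    ∑ v ∈ range (D + 1), (n.choose v : ℝ) * (p - 1) ^ v ≤
      Real.exp ((1 + lam ^ 2) / 2 / 2 * q) := by
  have hl2 : lam ^ 2 < 1 := by nlinarith
  have hl0 : 0 ≤ lam ^ 2 := sq_nonneg _
  generalize lam ^ 2 = w at *
  have hn : (0 : ℝ) ≤ n := Nat.cast_nonneg n
  by_cases hc : Real.exp (R * y) ≤ 1 + (1 - w) / 2
  · exact numQ_case1 hl0 rfl hq hny hp hp1 hc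
  · rw [not_le] at hc
    have hRy0 : 0 ≤ R * y := mul_nonneg hR hy
    have hE1 : 1 ≤ Real.exp (R * y) := Real.one_le_exp hRy0
    have hlog : 1 - w ≤ 3 * (R * y) := by
      have hpos : 0 < 1 + (1 - w) / 2 := by linarith
      have h2 : Real.log (1 + (1 - w) / 2) ≤ R * y := by
        have := (Real.log_lt_iff_lt_exp hpos).2 hc
        exact this.le
      have h3 : 1 - (1 + (1 - w) / 2)⁻¹ ≤ Real.log (1 + (1 - w) / 2) :=
        Real.one_sub_inv_le_log_of_pos hpos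
      have h4 : (1 - w) / 3 ≤ 1 - (1 + (1 - w) / 2)⁻¹ := by
        have h5 : (1 + (1 - w) / 2)⁻¹ ≤ 1 - (1 - w) / 3 := by
          rw [inv_le_iff_one_le_mul₀ hpos]
          nlinarith
        linarith
      linarith
    have hRpos : 0 < R := by
      rcases hR.lt_or_eq with h | h
      · exact h
      · exfalso
        rw [← h] at hlog
        linarith
    set z : ℝ := n * y ^ 2 / 2 with hz
    have hz0 : 0 ≤ z := by positivity
    -- D ≤ 9/32 z
    have hDz : (D : ℝ) ≤ 9 / 32 * z := by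
      have h2 : (1 - w) ^ 2 ≤ 9 * R ^ 2 * y ^ 2 := by
        have := pow_le_pow_left₀ (by linarith : (0 : ℝ) ≤ 1 - w) hlog 2
        nlinarith
      have h3 : 64 * R ^ 2 * D ≤ 9 * R ^ 2 * y ^ 2 * n := hD.trans (mul_le_mul_of_nonneg_right h2 hn)
      have h4 : R ^ 2 * (64 * (D : ℝ)) ≤ R ^ 2 * (9 * y ^ 2 * n) := by nlinarith
      have h5 : 64 * (D : ℝ) ≤ 9 * y ^ 2 * n := le_of_mul_le_mul_left h4 (by positivity)
      rw [hz]
      linarith
    have hDR : D * (R * y) ≤ 6 / 64 * z := by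
      have h2 : 64 * R ^ 2 * D * y ≤ (1 - w) ^ 2 * n * y := mul_le_mul_of_nonneg_right hD hy
      have h3 : (1 - w) ^ 2 * n * y ≤ 3 * (R * y) * (n * y) := by
        have h31 : (1 - w) ^ 2 ≤ 3 * (R * y) := by nlinarith
        calc (1 - w) ^ 2 * n * y = (1 - w) ^ 2 * (n * y) := by ring
          _ ≤ 3 * (R * y) * (n * y) := mul_le_mul_of_nonneg_right h31 (by positivity)
      have h4 : R * (64 * (D * (R * y))) ≤ R * (3 * (n * y ^ 2)) := by nlinarith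
      have h5 : 64 * (D * (R * y)) ≤ 3 * (n * y ^ 2) := le_of_mul_le_mul_left h4 hRpos
      rw [hz]
      linarith
    refine (numQ_sum hz hE1 hp hp1).trans ?_
    rw [← Real.exp_nat_mul, ← Real.exp_nat_mul, ← Real.exp_add, ← Real.exp_add]
    refine Real.exp_le_exp.2 ?_
    have hzq : z ≤ w * q / 2 := by rw [hz]; linarith
    have hwq : w * q ≤ q := by nlinarith
    nlinarith

end H69.DT
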