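import Pool.Agent.H47.LV.Phi

/-!
# Module PhiQ: exponential moment of an isotropic vector of bounded norm

`phi μ w y = ∫ exp (∑ l, y l * w l h)`. Model: `phi_bounds` of `Pool/Agent/H47/LV/Phi.lean` (copy the first half of its
proof: `x h = ∑ l, y l * w l h`, `∫ x = 0`, `∫ x^2 = Y^2`). New: `|x h| ≤ R * Y` by Cauchy-Schwarz
(`Finset.sum_mul_sq_le_sq_mul_sq`, `∑ l, w l h ^ 2 ≤ R ^ 2`), so `|w l h| ≤ R`. The inequality
`exp x ≤ 1 + x + x^2/2 * exp |x|` for all real `x` (prove it first: for `x ≤ 0` from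
`exp x ≤ 1 + x + x^2/2`, for `x ≥ 0` from the series or from `exp x - 1 - x ≤ x^2/2 exp x`, e.g. monotonicity of
`1 - (1 + x) exp(-x) ≤ x^2/2`), hence `exp (x h) ≤ 1 + x h + x h ^ 2 / 2 * exp (R Y)`; integrate.
-/

set_option autoImplicit false

open MeasureTheory
open scoped BigOperators

namespace H69.DT

open Pool.Agent.H47.LV (phi)

private theorem phiq_neg {x : ℝ} (hx : x ≤ 0) : Real.exp x ≤ 1 + x + x ^ 2 / 2 := by
  have hd : ∀ t : ℝ, HasDerivAt (fun t : ℝ => 1 + t + t ^ 2 / 2 - Real.exp t)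
      (1 + t - Real.exp t) t := by
    intro t
    have h1 := (((hasDerivAt_id t).const_add 1).add (((hasDerivAt_id t).pow 2).div_const 2)).sub
      (Real.hasDerivAt_exp t)
    refine h1.congr_deriv ?_
    simp
  have ha : Antitone (fun t : ℝ => 1 + t + t ^ 2 / 2 - Real.exp t) := by
    apply antitone_of_deriv_nonpos
    · exact fun t => (hd t).differentiableAt
    · intro t
      rw [(hd t).deriv]
      have := Real.add_one_le_exp t
      linarith
  have h0 := ha hx
  simp only [Real.exp_zero] at h0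
  norm_num at h0
  linarith

private theorem phiq_pos {x : ℝ} (hx : 0 ≤ x) : Real.exp x ≤ 1 + x + x ^ 2 / 2 * Real.exp x := by
  have hd : ∀ t : ℝ, HasDerivAt (fun t : ℝ => t ^ 2 / 2 - 1 + (1 + t) * Real.exp (-t))
      (t * (1 - Real.exp (-t))) t := by
    intro t
    have h1 := ((((hasDerivAt_id t).pow 2).div_const 2).sub_const 1).add
      (((hasDerivAt_id t).const_add 1).mul ((Real.hasDerivAt_exp (-t)).comp t (hasDerivAt_neg t)))
    refine h1.congr_deriv ?_
    simp
    ring
  have ha : MonotoneOn (fun t : ℝ => t ^ 2 / 2 - 1 + (1 + t) * Real.exp (-t)) (Set.Ici 0) := by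
    apply monotoneOn_of_deriv_nonneg (convex_Ici 0)
    · exact fun t _ => (hd t).continuousAt.continuousWithinAt
    · exact fun t _ => (hd t).differentiableAt.differentiableWithinAt
    · intro t ht
      rw [interior_Ici, Set.mem_Ioi] at ht
      rw [(hd t).deriv]
      have : Real.exp (-t) ≤ 1 := Real.exp_le_one_iff.2 (by linarith)
      exact mul_nonneg ht.le (by linarith)
  have h0 := ha (Set.mem_Ici.2 le_rfl) (Set.mem_Ici.2 hx) hx
  simp only [neg_zero, Real.exp_zero] at h0
  norm_num at h0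
  have h1 : Real.exp (-x) * Real.exp x = 1 := by
    rw [← Real.exp_add]
    simp
  have h2 := mul_le_mul_of_nonneg_right h0 (Real.exp_pos x).le
  nlinarith

private theorem phiq_exp (x : ℝ) : Real.exp x ≤ 1 + x + x ^ 2 / 2 * Real.exp |x| := by
  rcases le_total x 0 with h | h
  · refine (phiq_neg h).trans ?_
    have h1 : 1 ≤ Real.exp |x| := Real.one_le_exp (abs_nonneg x)
    have h2 : 0 ≤ x ^ 2 / 2 := by positivity
    nlinarith
  · rw [abs_of_nonneg h]
    exact phiq_pos h

theorem phi_quad {G : Type} [MeasurableSpace G] (μ : Measure G) [IsProbabilityMeasure μ] {ι : Type*}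
    [Fintype ι] [DecidableEq ι] {w : ι → G → ℝ} (hw : ∀ l, Measurable (w l)) {R : ℝ} (hR0 : 0 ≤ R)
    (hR : ∀ h, ∑ l, w l h ^ 2 ≤ R ^ 2) (hmean : ∀ l, ∫ h, w l h ∂μ = 0)
    (hcov : ∀ l l', ∫ h, w l h * w l' h ∂μ = if l = l' then 1 else 0)
    (y : ι → ℝ) {Y : ℝ} (hY0 : 0 ≤ Y) (hY : Y ^ 2 = ∑ l, y l ^ 2) :
    1 ≤ phi μ w y ∧ phi μ w y - 1 ≤ Y ^ 2 / 2 * Real.exp (R * Y) := by
  have hwb : ∀ l h, |w l h| ≤ R := by
    intro l h
    apply abs_le_of_sq_le_sq _ hR0
    exact (Finset.single_le_sum (f := fun l => w l h ^ 2) (fun l _ => sq_nonneg _)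
      (Finset.mem_univ l)).trans (hR h)
  set x : G → ℝ := fun h => ∑ l, y l * w l h with hx
  have hxm : Measurable x := Finset.measurable_sum _ fun l _ => (hw l).const_mul _
  have hxb : ∀ h, |x h| ≤ R * Y := by
    intro h
    apply abs_le_of_sq_le_sq _ (by positivity)
    have h1 : (∑ l, y l * w l h) ^ 2 ≤ (∑ l, y l ^ 2) * ∑ l, w l h ^ 2 :=
      Finset.sum_mul_sq_le_sq_mul_sq _ _ _
    calc x h ^ 2 ≤ (∑ l, y l ^ 2) * ∑ l, w l h ^ 2 := h1
      _ ≤ Y ^ 2 * R ^ 2 := by
          rw [← hY]
          exact mul_le_mul_of_nonneg_left (hR h) (sq_nonneg _)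
      _ = (R * Y) ^ 2 := by ring
  have hwi : ∀ l, Integrable (w l) μ := fun l =>
    Integrable.of_bound (C := R) (hw l).aestronglyMeasurable
      (Filter.Eventually.of_forall fun h => by rw [Real.norm_eq_abs]; exact hwb l h)
  have hwwi : ∀ l l', Integrable (fun h => w l h * w l' h) μ := fun l l' =>
    Integrable.of_bound (C := R * R) ((hw l).mul (hw l')).aestronglyMeasurable
      (Filter.Eventually.of_forall fun h => by
        rw [Real.norm_eq_abs, abs_mul]
        exact mul_le_mul (hwb l h) (hwb l' h) (abs_nonneg _) hR0)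
  have hxi : Integrable x μ := integrable_finsetSum _ fun l _ => (hwi l).const_mul _
  have hxmean : ∫ h, x h ∂μ = 0 := by
    simp only [hx]
    rw [integral_finsetSum _ fun l _ => (hwi l).const_mul _]
    refine Finset.sum_eq_zero fun l _ => ?_
    rw [integral_const_mul, hmean, mul_zero]
  have hxx : ∀ h, x h ^ 2 = ∑ l, ∑ l', (y l * y l') * (w l h * w l' h) := by
    intro h
    simp only [hx]
    rw [sq, Finset.sum_mul_sum]
    exact Finset.sum_congr rfl fun l _ => Finset.sum_congr rfl fun l' _ => by ring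
  have hx2i : Integrable (fun h => x h ^ 2) μ := by
    simp_rw [hxx]
    exact integrable_finsetSum _ fun l _ => integrable_finsetSum _ fun l' _ => (hwwi l l').const_mul _
  have hx2 : ∫ h, x h ^ 2 ∂μ = Y ^ 2 := by
    simp_rw [hxx]
    rw [integral_finsetSum _ fun l _ =>
      integrable_finsetSum _ fun l' _ => (hwwi l l').const_mul _, hY]
    refine Finset.sum_congr rfl fun l _ => ?_
    rw [integral_finsetSum _ fun l' _ => (hwwi l l').const_mul _]
    simp_rw [integral_const_mul, hcov]
    simp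
    ring
  have hei : Integrable (fun h => Real.exp (x h)) μ :=
    Integrable.of_bound (C := Real.exp (R * Y)) (Real.measurable_exp.comp hxm).aestronglyMeasurable
      (Filter.Eventually.of_forall fun h => by
        rw [Real.norm_eq_abs, abs_of_pos (Real.exp_pos _)]
        exact Real.exp_le_exp.2 ((le_abs_self _).trans (hxb h)))
  refine ⟨?_, ?_⟩
  · calc (1 : ℝ) = ∫ h, (x h + 1) ∂μ := by
          rw [integral_add hxi (integrable_const _), hxmean]
          simp
      _ ≤ phi μ w y := integral_mono (hxi.add (integrable_const _)) hei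
          fun h => Real.add_one_le_exp (x h)
  · have h2 : ∀ h, Real.exp (x h) ≤ (1 + x h) + Real.exp (R * Y) / 2 * x h ^ 2 := by
      intro h
      have h3 := phiq_exp (x h)
      have h4 : x h ^ 2 / 2 * Real.exp |x h| ≤ x h ^ 2 / 2 * Real.exp (R * Y) :=
        mul_le_mul_of_nonneg_left (Real.exp_le_exp.2 (hxb h)) (by positivity)
      linarith
    have h1i : Integrable (fun h => 1 + x h) μ := (integrable_const _).add hxi
    have h5 : phi μ w y ≤ 1 + Real.exp (R * Y) / 2 * Y ^ 2 := by
      calc phi μ w y ≤ ∫ h, ((1 + x h) + Real.exp (R * Y) / 2 * x h ^ 2) ∂μ :=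
            integral_mono hei (h1i.add (hx2i.const_mul _)) h2
        _ = 1 + Real.exp (R * Y) / 2 * Y ^ 2 := by
            rw [integral_add h1i (hx2i.const_mul _), integral_const_mul, hx2,
              integral_add (integrable_const _) hxi, hxmean]
            simp
    linarith

end H69.DT
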