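import Pool.Agent.H47.LV.Mk
import Pool.Agent.H69.DT.PhiQ
import Pool.Agent.H69.DT.NumQ

/-!
# Module SumQ: the bound for the sum over small sets of vertices, explicit constants

Copy of the proof of `sum_mob_le` in `Pool/Agent/H47/LV/Mk.lean` with `phi_quad`, `num2` instead of `phi_bounds`, `num`
(`θ = (1 + lam^2)/2`, `1 - θ = (1 - lam^2)/2`; `|w l h| ≤ R` from `∑ l, w l h ^ 2 ≤ R ^ 2`).
-/

set_option autoImplicit false

open MeasureTheory ProbabilityTheory
open scoped BigOperators

namespace H69.DT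

open Pool.Agent.H47.LV (phi mob MK)

theorem sum_mob_le2 {ι : Type*} [Fintype ι] [DecidableEq ι] {lam R : ℝ} (h0 : 0 ≤ lam)
    (h1 : lam < 1) (hR0 : 0 ≤ R) {G : Type} [MeasurableSpace G] (μ : Measure G)
    [IsProbabilityMeasure μ] {w : ι → G → ℝ} (hw : ∀ l, Measurable (w l))
    (hR : ∀ h, ∑ l, w l h ^ 2 ≤ R ^ 2) (hmean : ∀ l, ∫ h, w l h ∂μ = 0)
    (hcov : ∀ l l', ∫ h, w l h * w l' h ∂μ = if l = l' then 1 else 0) {n D : ℕ}
    (hD : 64 * R ^ 2 * D ≤ (1 - lam ^ 2) ^ 2 * n) :
    ∑ V ∈ (Finset.univ : Finset (Finset (Fin n))).filter (fun V => V ≠ ∅ ∧ V.card ≤ D),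
      mob (MK μ w (lam / Real.sqrt n)) V ≤
        ((Real.sqrt (1 - (1 + lam ^ 2) / 2))⁻¹) ^ Fintype.card ι := by
  have hR1 : ∀ l h, |w l h| ≤ R := by
    intro l h
    have h2 : w l h ^ 2 ≤ R ^ 2 :=
      le_trans (Finset.single_le_sum (f := fun l => w l h ^ 2) (fun _ _ => sq_nonneg _)
        (Finset.mem_univ l)) (hR h)
    exact abs_le_of_sq_le_sq h2 hR0
  have hlam : lam ^ 2 < 1 := by nlinarith
  have hθ : (1 + lam ^ 2) / 2 < 1 := by linarith
  set a := lam / Real.sqrt n with ha
  have hpt : ∀ ξ : ι → ℝ,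
      ∑ V ∈ (Finset.univ : Finset (Finset (Fin n))).filter (fun V => V ≠ ∅ ∧ V.card ≤ D),
        (phi μ w (fun l => a * ξ l) - 1) ^ V.card ≤
          Real.exp ((1 + lam ^ 2) / 2 / 2 * ∑ l, ξ l ^ 2) := by
    intro ξ
    set q := ∑ l, ξ l ^ 2 with hq
    have hq0 : 0 ≤ q := Finset.sum_nonneg fun _ _ => sq_nonneg _
    have hsum : ∑ l, (a * ξ l) ^ 2 = a ^ 2 * q := by
      rw [hq, Finset.mul_sum]
      exact Finset.sum_congr rfl fun l _ => by ring
    obtain ⟨p1, p2⟩ := phi_quad μ hw hR0 hR hmean hcov (fun l => a * ξ l)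
      (Y := Real.sqrt (a ^ 2 * q)) (Real.sqrt_nonneg _) (by
        rw [Real.sq_sqrt (by positivity), hsum])
    have hn : (n : ℝ) * Real.sqrt (a ^ 2 * q) ^ 2 ≤ lam ^ 2 * q := by
      rw [Real.sq_sqrt (by positivity), ha, div_pow, Real.sq_sqrt (Nat.cast_nonneg _)]
      rcases Nat.eq_zero_or_pos n with h | h
      · rw [h]
        simp only [Nat.cast_zero, zero_mul]
        positivity
      · have hn0 : (n : ℝ) ≠ 0 := by positivity
        apply le_of_eq
        field_simp
    have key := num2 h0 h1 hR0 hD hq0 (Real.sqrt_nonneg _) hn p1 p2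
    refine le_trans ?_ key
    have hp0 : 0 ≤ phi μ w (fun l => a * ξ l) - 1 := by linarith
    calc ∑ V ∈ (Finset.univ : Finset (Finset (Fin n))).filter (fun V => V ≠ ∅ ∧ V.card ≤ D),
          (phi μ w (fun l => a * ξ l) - 1) ^ V.card
        ≤ ∑ V ∈ (Finset.univ : Finset (Finset (Fin n))).filter (fun V => V.card ∈
            Finset.range (D + 1)), (phi μ w (fun l => a * ξ l) - 1) ^ V.card := by
          refine Finset.sum_le_sum_of_subset_of_nonneg ?_ fun V _ _ => pow_nonneg hp0 _
          intro V hV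
          rw [Finset.mem_filter] at hV ⊢
          exact ⟨Finset.mem_univ _, Finset.mem_range.2 (by omega)⟩
      _ = ∑ v ∈ Finset.range (D + 1), ∑ V ∈ (Finset.univ : Finset (Finset (Fin n))).filter
            (fun V => V.card = v), (phi μ w (fun l => a * ξ l) - 1) ^ V.card := by
          rw [← Finset.sum_fiberwise_of_maps_to (s := (Finset.univ : Finset (Finset (Fin n))).filter
            (fun V => V.card ∈ Finset.range (D + 1))) (t := Finset.range (D + 1))
            (g := fun V => V.card) (fun V hV => (Finset.mem_filter.1 hV).2)]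
          refine Finset.sum_congr rfl fun v hv => ?_
          refine Finset.sum_congr ?_ fun _ _ => rfl
          ext V
          simp only [Finset.mem_filter, Finset.mem_univ, true_and]
          constructor
          · rintro ⟨_, h⟩
            exact h
          · intro h
            exact ⟨by rw [h]; exact hv, h⟩
      _ = ∑ v ∈ Finset.range (D + 1), (n.choose v : ℝ) *
            (phi μ w (fun l => a * ξ l) - 1) ^ v := by
          refine Finset.sum_congr rfl fun v _ => ?_
          have h5 : ∀ V ∈ (Finset.univ : Finset (Finset (Fin n))).filter (fun V => V.card = v),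
              (phi μ w (fun l => a * ξ l) - 1) ^ V.card =
              (phi μ w (fun l => a * ξ l) - 1) ^ v := fun V hV => by
            rw [(Finset.mem_filter.1 hV).2]
          rw [Finset.sum_congr rfl h5, Finset.sum_const, nsmul_eq_mul]
          congr 1
          have h6 : ((Finset.univ : Finset (Finset (Fin n))).filter (fun V => V.card = v)) =
              Finset.powersetCard v Finset.univ := by
            ext V
            simp [Finset.mem_powersetCard]
          rw [h6, Finset.card_powersetCard, Finset.card_univ, Fintype.card_fin]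
  simp_rw [Pool.Agent.H47.LV.mob_MK μ hw hR1 a]
  rw [← integral_finsetSum _ fun V _ => Pool.Agent.H47.LV.integrable_sub_pow μ hw hR1 a V.card,
    ← Pool.Agent.H70.SS.integral_exp_quad (ι := ι) hθ]
  exact integral_mono
    (integrable_finsetSum _ fun V _ => Pool.Agent.H47.LV.integrable_sub_pow μ hw hR1 a V.card)
    (Pool.Agent.H70.SS.integrable_exp_quad hθ) hpt

end H69.DT
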